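import Mathlib.Combinatorics.SimpleGraph.Acyclic

set_option autoImplicit false

namespace Pool.Agent.MP_9694c2_lc

/-- Adjacency in the graph given by the edge list `E` (loops allowed). -/
def adjE (E : List (ℕ × ℕ)) (a b : ℕ) : Prop := (a, b) ∈ E ∨ (b, a) ∈ E

/-- The vertices: the ends of the edges (there are no isolated vertices). -/
def verts (E : List (ℕ × ℕ)) : Set ℕ := {a | ∃ b, adjE E a b}

/-- The rabbit territory; `terr E W t` is `R (t + 1)` and `W t` is the set shot at time `t + 1`. -/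
def terr (E : List (ℕ × ℕ)) (W : ℕ → Finset ℕ) : ℕ → Set ℕ
  | 0 => verts E \ W 0
  | t + 1 => {v | ∃ a ∈ terr E W t, adjE E a v} \ W (t + 1)

/-- The hunting number. -/
noncomputable def hunt (E : List (ℕ × ℕ)) : ℕ :=
  sInf {k | ∃ (T : ℕ) (W : ℕ → Finset ℕ), (∀ t, (W t : Set ℕ) ⊆ verts E) ∧ terr E W T = ∅ ∧
    (Finset.range (T + 1)).sup (fun t => (W t).card) = k}

/-- The graph given by `E` is a (simple) tree. -/
def IsTreeE (E : List (ℕ × ℕ)) : Prop :=
  (∀ e ∈ E, e.1 ≠ e.2) ∧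
    ((SimpleGraph.fromRel (fun a b => (a, b) ∈ E)).induce (verts E)).IsTree

end Pool.Agent.MP_9694c2_lc
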