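import Mathlib.Tactic.Ring.RingNF
import Mathlib.Tactic.Monotonicity.Lemmas
import Mathlib.Order.CompletePartialOrder
import Pool.Agent.MP_9694c2_lc.Defs

-- ======== part 0: formerly Pool.Agent.MP_9694c2_lc.Game
section MrgPart0

/-!
The game in terms of clean sets.
-/

set_option autoImplicit false

namespace Pool.Agent.MP_9694c2_lc

open Set

section game

variable {V : Type} (r : V → V → Prop)

/-- One step with at most `n` shots turns the clean set `S` into `S'`. -/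
def St (n : ℕ) (S S' : Set V) : Prop :=
  ∃ W : Finset V, W.card ≤ n ∧ ∀ v ∈ S', v ∈ W ∨ ∀ w, r v w → w ∈ S

/-- A round: two steps. -/
def Rnd (p q : ℕ) (S S' : Set V) : Prop := ∃ T, St r p S T ∧ St r q T S'

/-- Finitely many rounds. -/
def Reach (p q : ℕ) (S S' : Set V) : Prop :=
  ∃ S'', Relation.ReflTransGen (Rnd r p q) S S'' ∧ S' ⊆ S''

variable {r}

theorem St.mono {n n' : ℕ} {S S' D D' : Set V} (h : St r n S S') (hn : n ≤ n') (h1 : S ⊆ D)
    (h2 : D' ⊆ S') : St r n' D D' := by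
  obtain ⟨W, hW, h⟩ := h
  refine ⟨W, hW.trans hn, fun v hv => ?_⟩
  rcases h v (h2 hv) with h | h
  · exact Or.inl h
  · exact Or.inr fun w hw => h1 (h w hw)

theorem St.union {a b : ℕ} {S S1 S2 : Set V} (h1 : St r a S S1) (h2 : St r b S S2) :
    St r (a + b) S (S1 ∪ S2) := by
  classical
  obtain ⟨W1, hW1, h1⟩ := h1
  obtain ⟨W2, hW2, h2⟩ := h2
  refine ⟨W1 ∪ W2, (Finset.card_union_le _ _).trans (by omega), fun v hv => ?_⟩
  rcases hv with hv | hv
  · rcases h1 v hv with h | h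
    · exact Or.inl (Finset.mem_union_left _ h)
    · exact Or.inr h
  · rcases h2 v hv with h | h
    · exact Or.inl (Finset.mem_union_right _ h)
    · exact Or.inr h

theorem St.shoot (S : Set V) (v : V) : St r 1 S {v} :=
  ⟨{v}, by simp, fun w hw => Or.inl (by simpa using hw)⟩

theorem St.free {S K : Set V} (h : ∀ v ∈ K, ∀ w, r v w → w ∈ S) : St r 0 S K :=
  ⟨∅, by simp, fun v hv => Or.inr (h v hv)⟩

theorem St.empty (n : ℕ) (S : Set V) : St r n S ∅ := ⟨∅, by simp, fun v hv => hv.elim⟩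

theorem Rnd.mono {p q p' q' : ℕ} {S S' D D' : Set V} (h : Rnd r p q S S') (hp : p ≤ p')
    (hq : q ≤ q') (h1 : S ⊆ D) (h2 : D' ⊆ S') : Rnd r p' q' D D' := by
  obtain ⟨T, a, b⟩ := h
  exact ⟨T, a.mono hp h1 Subset.rfl, b.mono hq Subset.rfl h2⟩

theorem Rnd.par {p q p' q' : ℕ} {S S' D D' : Set V} (h : Rnd r p q S S') (h' : Rnd r p' q' D D') :
    Rnd r (p + p') (q + q') (S ∪ D) (S' ∪ D') := by
  obtain ⟨T, a, b⟩ := h
  obtain ⟨T', a', b'⟩ := h'
  exact ⟨T ∪ T', (a.mono le_rfl subset_union_left Subset.rfl).union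
    (a'.mono le_rfl subset_union_right Subset.rfl),
    (b.mono le_rfl subset_union_left Subset.rfl).union
    (b'.mono le_rfl subset_union_right Subset.rfl)⟩

theorem Reach.of_subset {p q : ℕ} {S S' : Set V} (h : S' ⊆ S) : Reach r p q S S' :=
  ⟨S, Relation.ReflTransGen.refl, h⟩

theorem Reach.refl {p q : ℕ} (S : Set V) : Reach r p q S S := Reach.of_subset Subset.rfl

theorem Rnd.reach {p q : ℕ} {S S' : Set V} (h : Rnd r p q S S') : Reach r p q S S' :=
  ⟨S', Relation.ReflTransGen.single h, Subset.rfl⟩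

theorem Reach.tail {p q : ℕ} {S S' S'' : Set V} (h : Reach r p q S S') (h' : Rnd r p q S' S'') :
    Reach r p q S S'' := by
  obtain ⟨D, a, b⟩ := h
  exact ⟨S'', a.tail (h'.mono le_rfl le_rfl b Subset.rfl), Subset.rfl⟩

theorem Reach.sub {p q : ℕ} {S S' S'' : Set V} (h : Reach r p q S S') (h' : S'' ⊆ S') :
    Reach r p q S S'' := by
  obtain ⟨D, a, b⟩ := h
  exact ⟨D, a, h'.trans b⟩

theorem Reach.induct {p q : ℕ} {S : Set V} {C : Set V → Prop} (h0 : C S)
    (hs : ∀ D D', C D → Rnd r p q D D' → C D') (hm : ∀ D D', C D → D' ⊆ D → C D') {S' : Set V}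
    (h : Reach r p q S S') : C S' := by
  obtain ⟨D, a, b⟩ := h
  refine hm _ _ ?_ b
  clear b
  induction a with
  | refl => exact h0
  | tail _ h2 ih => exact hs _ _ ih h2

theorem Reach.trans {p q : ℕ} {S S' S'' : Set V} (h : Reach r p q S S') (h' : Reach r p q S' S'') :
    Reach r p q S S'' :=
  Reach.induct (C := fun D => Reach r p q S D) h (fun _ _ a b => a.tail b)
    (fun _ _ a b => a.sub b) h'

theorem Reach.mono {p q p' q' : ℕ} {S S' D D' : Set V} (h : Reach r p q S S') (hp : p ≤ p')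
    (hq : q ≤ q') (h1 : S ⊆ D) (h2 : D' ⊆ S') : Reach r p' q' D D' :=
  (Reach.induct (C := fun X => Reach r p' q' D X) (Reach.of_subset h1)
    (fun _ _ a b => a.tail (b.mono hp hq Subset.rfl Subset.rfl)) (fun _ _ a b => a.sub b) h).sub h2

theorem Reach.par {p q p' q' : ℕ} {S S' D : Set V} (h : Reach r p q S S') (h' : Rnd r p' q' D D) :
    Reach r (p + p') (q + q') (S ∪ D) (S' ∪ D) :=
  Reach.induct (C := fun X => Reach r (p + p') (q + q') (S ∪ D) (X ∪ D)) (Reach.refl _)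
    (fun _ _ a b => a.tail (b.par h')) (fun _ _ a b => a.sub (union_subset_union_left _ b)) h

theorem Reach.par' {p q p' q' : ℕ} {S S' D : Set V} (h' : Rnd r p' q' D D) (h : Reach r p q S S') :
    Reach r (p' + p) (q' + q) (D ∪ S) (D ∪ S') := by
  rw [union_comm D, union_comm D, add_comm p', add_comm q']
  exact h.par h'

/-- Exchanging the roles of the two steps of a round. -/
theorem Reach.swap {p q : ℕ} {B A : Set V} (h : Reach r p q ∅ B)
    (hA : ∀ v ∈ A, ∀ w, r v w → w ∈ B) : Reach r q p ∅ A := by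
  have key : ∀ T, St r p B T → Reach r q p ∅ T := by
    refine Reach.induct (C := fun D => ∀ T, St r p D T → Reach r q p ∅ T) ?_ ?_ ?_ h
    · intro T hT
      exact Rnd.reach ⟨∅, St.empty _ _, hT⟩
    · rintro D D' ih ⟨T, a, b⟩ T' hT'
      exact (ih T a).tail ⟨D', b, hT'⟩
    · intro D D' ih hD T hT
      exact ih T (hT.mono le_rfl hD Subset.rfl)
  exact key A ((St.free hA).mono (Nat.zero_le _) Subset.rfl Subset.rfl)

/-- The contaminated sets of a play. -/
structure Play (r : V → V → Prop) (p q : ℕ) where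
  P : ℕ → Set V
  Q : ℕ → Set V
  X : ℕ → Finset V
  Y : ℕ → Finset V
  hX : ∀ t, (X t).card ≤ q
  hY : ∀ t, (Y t).card ≤ p
  h0 : ∀ v, v ∈ P 0
  hQ : ∀ t a v, a ∈ P t → r v a → v ∉ Y t → v ∈ Q t
  hP : ∀ t a v, a ∈ Q t → r v a → v ∉ X (t + 1) → v ∈ P (t + 1)

theorem exists_seq {α : Type} {R : α → α → Prop} {a b : α} (h : Relation.ReflTransGen R a b) :
    ∃ (n : ℕ) (f : ℕ → α), f 0 = a ∧ f n = b ∧ ∀ i < n, R (f i) (f (i + 1)) := by
  induction h with
  | refl => exact ⟨0, fun _ => a, rfl, rfl, fun i hi => by omega⟩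
  | @tail b c _ h2 ih =>
    obtain ⟨n, f, h0, hn, hf⟩ := ih
    refine ⟨n + 1, fun i => if i ≤ n then f i else c, by simpa using h0, by simp, fun i hi => ?_⟩
    by_cases h : i < n
    · simpa [h.le, Nat.succ_le_of_lt h] using hf i h
    · have : i = n := by omega
      subst this
      simpa [hn] using h2

theorem Reach.exists_play {p q : ℕ} {B : Set V} (h : Reach r p q ∅ B) :
    ∃ (G : Play r p q) (n : ℕ), ∀ v ∈ B, v ∉ G.P n := by
  obtain ⟨D, a, b⟩ := h
  obtain ⟨n, f, h0, hn, hf⟩ := exists_seq a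
  have : ∀ i, ∃ (T : Set V) (Y X : Finset V), Y.card ≤ p ∧ X.card ≤ q ∧ (i < n →
      (∀ v ∈ T, v ∈ Y ∨ ∀ w, r v w → w ∈ f i) ∧
        ∀ v ∈ f (i + 1), v ∈ X ∨ ∀ w, r v w → w ∈ T) := by
    intro i
    by_cases hi : i < n
    · obtain ⟨T, ⟨Y, hY, h1⟩, ⟨X, hX, h2⟩⟩ := hf i hi
      exact ⟨T, Y, X, hY, hX, fun _ => ⟨h1, h2⟩⟩
    · exact ⟨∅, ∅, ∅, by simp, by simp, fun h => (hi h).elim⟩
  choose T Y X hY hX h using this
  refine ⟨⟨fun t => {v | t ≤ n → v ∉ f t}, fun t => {v | t < n → v ∉ T t},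
    fun t => X (t - 1), Y, fun t => hX _, hY, ?_, ?_, ?_⟩, n, ?_⟩
  · intro v _
    simp [h0]
  · intro t a v ha hr hv ht hT
    rcases (h t ht).1 v hT with h1 | h1
    · exact hv h1
    · exact ha ht.le (h1 a hr)
  · intro t a v ha hr hv ht hT
    rcases (h t ht).2 v hT with h1 | h1
    · exact hv (by simpa using h1)
    · exact ha ht (h1 a hr)
  · intro v hv h1
    exact h1 le_rfl (hn ▸ b hv)

/-- Transport along an embedding of graphs onto the non-isolated part. -/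
theorem Reach.image {V' : Type} {r' : V' → V' → Prop} (φ : V → V')
    (hr : ∀ a b, r' (φ a) b → ∃ b', b = φ b' ∧ r a b') {p q : ℕ} {S S' : Set V}
    (h : Reach r p q S S') : Reach r' p q (φ '' S) (φ '' S') := by
  classical
  have key : ∀ n S S', St r n S S' → St r' n (φ '' S) (φ '' S') := by
    rintro n S S' ⟨W, hW, h⟩
    refine ⟨W.image φ, Finset.card_image_le.trans hW, ?_⟩
    rintro _ ⟨v, hv, rfl⟩
    rcases h v hv with h | h
    · exact Or.inl (Finset.mem_image_of_mem _ h)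
    · refine Or.inr fun w hw => ?_
      obtain ⟨b', rfl, hb⟩ := hr _ _ hw
      exact ⟨b', h _ hb, rfl⟩
  exact Reach.induct (C := fun X => Reach r' p q (φ '' S) (φ '' X)) (Reach.refl _)
    (fun _ _ a ⟨T, b, c⟩ => a.tail ⟨_, key _ _ _ b, key _ _ _ c⟩)
    (fun _ _ a b => a.sub (image_mono b)) h

theorem Reach.preimage {V' : Type} {r' : V' → V' → Prop} (φ : V → V') (hφ : Function.Injective φ)
    (hr : ∀ a b, r a b → r' (φ a) (φ b)) {p q : ℕ} {S S' : Set V'}
    (h : Reach r' p q S S') : Reach r p q (φ ⁻¹' S) (φ ⁻¹' S') := by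
  classical
  have key : ∀ n S S', St r' n S S' → St r n (φ ⁻¹' S) (φ ⁻¹' S') := by
    rintro n S S' ⟨W, hW, h⟩
    refine ⟨W.preimage φ hφ.injOn, ?_, fun v hv => ?_⟩
    · refine le_trans ?_ hW
      rw [← Finset.card_image_of_injective _ hφ]
      refine Finset.card_le_card fun x hx => ?_
      obtain ⟨y, hy, rfl⟩ := Finset.mem_image.1 hx
      exact Finset.mem_preimage.1 hy
    · rcases h _ hv with h | h
      · exact Or.inl (Finset.mem_preimage.2 h)
      · exact Or.inr fun w hw => h _ (hr _ _ hw)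
  exact Reach.induct (C := fun X => Reach r p q (φ ⁻¹' S) (φ ⁻¹' X)) (Reach.refl _)
    (fun _ _ a ⟨T, b, c⟩ => a.tail ⟨_, key _ _ _ b, key _ _ _ c⟩)
    (fun _ _ a b => a.sub (preimage_mono b)) h

/-- Pigeonhole: few shots miss some member of a large family. -/
theorem exists_unshot {ι : Type} (F : Finset ι) (Z : Finset V) (lab : V → ι)
    (h : Z.card < F.card) : ∃ l ∈ F, ∀ v ∈ Z, lab v ≠ l := by
  classical
  by_contra hc
  push Not at hc
  have : F ⊆ Z.image lab := fun l hl => by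
    obtain ⟨v, hv, rfl⟩ := hc l hl
    exact Finset.mem_image_of_mem _ hv
  have := (Finset.card_le_card this).trans Finset.card_image_le
  omega

open Classical in
theorem card_unshot {ι : Type} (F : Finset ι) (Z : Finset V) (lab : V → ι) :
    F.card ≤ (F.filter (fun l => ∀ v ∈ Z, lab v ≠ l)).card + Z.card := by
  have : F ⊆ F.filter (fun l => ∀ v ∈ Z, lab v ≠ l) ∪ Z.image lab := fun l hl => by
    by_cases h : ∀ v ∈ Z, lab v ≠ l
    · exact Finset.mem_union_left _ (Finset.mem_filter.2 ⟨hl, h⟩)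
    · push Not at h
      obtain ⟨v, hv, rfl⟩ := h
      exact Finset.mem_union_right _ (Finset.mem_image_of_mem _ hv)
  have h1 := (Finset.card_le_card this).trans (Finset.card_union_le _ _)
  have h2 : (Z.image lab).card ≤ Z.card := Finset.card_image_le
  omega

end game

end Pool.Agent.MP_9694c2_lc

end MrgPart0

-- ======== part 1: formerly Pool.Agent.MP_9694c2_lc.Rooted
section MrgPart1

/-!
Rooted trees given by lists of (child, parent) pairs, and the hunting number of such trees.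
-/

set_option autoImplicit false

namespace Pool.Agent.MP_9694c2_lc

open Set

/-- `E` lists the (child, parent) pairs of a tree with root `ρ` and depth function `d`. -/
structure Good (E : List (ℕ × ℕ)) (ρ : ℕ) (d : ℕ → ℕ) : Prop where
  ne : E ≠ []
  root : d ρ = 0
  dep : ∀ a b, (a, b) ∈ E → d a = d b + 1
  uniq : ∀ a b b', (a, b) ∈ E → (a, b') ∈ E → b = b'
  par : ∀ a b, (a, b) ∈ E → b = ρ ∨ ∃ c, (b, c) ∈ E

theorem adjE_symm {E : List (ℕ × ℕ)} {a b : ℕ} (h : adjE E a b) : adjE E b a := Or.symm h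

/-- Walks of a given length. -/
inductive Wk {V : Type} (r : V → V → Prop) : ℕ → V → V → Prop
  | nil (a : V) : Wk r 0 a a
  | cons {n : ℕ} {a b c : V} : r a b → Wk r n b c → Wk r (n + 1) a c

theorem Wk.snoc {V : Type} {r : V → V → Prop} {n : ℕ} {a b c : V} (h : Wk r n a b) (h' : r b c) :
    Wk r (n + 1) a c := by
  induction h with
  | nil a => exact Wk.cons h' (Wk.nil _)
  | cons h1 _ ih => exact Wk.cons h1 (ih h')

theorem Wk.symm {V : Type} {r : V → V → Prop} (hr : ∀ a b, r a b → r b a) {n : ℕ} {a b : V}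
    (h : Wk r n a b) : Wk r n b a := by
  induction h with
  | nil a => exact Wk.nil _
  | cons h1 _ ih => exact ih.snoc (hr _ _ h1)

theorem Wk.pad {V : Type} {r : V → V → Prop} (hr : ∀ a b, r a b → r b a) {n : ℕ} {a b c : V}
    (h : Wk r n a b) (hc : r a c) (j : ℕ) : Wk r (n + 2 * j) a b := by
  induction j with
  | zero => exact h
  | succ j ih => exact Wk.cons hc (Wk.cons (hr _ _ hc) ih)

/-- The vertices whose depth has a given parity. -/
def Cls {V : Type} (r : V → V → Prop) (d : V → ℕ) (c : ℕ) : Set V :=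
  {v | (∃ w, r v w) ∧ d v % 2 = c}

namespace Good

variable {E : List (ℕ × ℕ)} {ρ : ℕ} {d : ℕ → ℕ}

theorem vert (h : Good E ρ d) {v : ℕ} (hv : ∃ w, adjE E v w) : v = ρ ∨ ∃ c, (v, c) ∈ E := by
  obtain ⟨w, hw | hw⟩ := hv
  · exact Or.inr ⟨w, hw⟩
  · exact h.par _ _ hw

theorem wk (h : Good E ρ d) {v : ℕ} (hv : v = ρ ∨ ∃ c, (v, c) ∈ E) : Wk (adjE E) (d v) v ρ := by
  induction hn : d v generalizing v with
  | zero =>
    rcases hv with rfl | ⟨c, hc⟩
    · exact Wk.nil _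
    · have := h.dep _ _ hc
      omega
  | succ n ih =>
    rcases hv with rfl | ⟨c, hc⟩
    · have := h.root
      omega
    · have := h.dep _ _ hc
      exact Wk.cons (Or.inl hc) (ih (h.par _ _ hc) (by omega))

theorem exists_level (h : Good E ρ d) {v : ℕ} (hv : v = ρ ∨ ∃ c, (v, c) ∈ E) (j : ℕ) (h1 : 1 ≤ j)
    (h2 : j ≤ d v) : ∃ e ∈ E, d e.1 = j := by
  induction hn : d v generalizing v with
  | zero => omega
  | succ n ih =>
    rcases hv with rfl | ⟨c, hc⟩
    · have := h.root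
      omega
    · have := h.dep _ _ hc
      by_cases hj : j = n + 1
      · exact ⟨_, hc, by simp only; omega⟩
      · exact ih (h.par _ _ hc) (by omega) (by omega)

theorem depth_le (h : Good E ρ d) {v : ℕ} (hv : v = ρ ∨ ∃ c, (v, c) ∈ E) : d v ≤ E.length := by
  have : Finset.Icc 1 (d v) ⊆ (E.map (fun e => d e.1)).toFinset := fun j hj => by
    rw [Finset.mem_Icc] at hj
    obtain ⟨e, he, rfl⟩ := h.exists_level hv j hj.1 hj.2
    exact List.mem_toFinset.2 (List.mem_map_of_mem he)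
  have h1 := (Finset.card_le_card this).trans (List.toFinset_card_le _)
  simpa using h1

theorem root_adj (h : Good E ρ d) : ∃ w, adjE E ρ w := by
  obtain ⟨⟨a, b⟩, he⟩ := List.exists_mem_of_ne_nil _ h.ne
  have h1 := h.dep _ _ he
  obtain ⟨⟨a', b'⟩, he', h2⟩ := h.exists_level (Or.inr ⟨b, he⟩) 1 le_rfl (by omega)
  have h3 := h.dep _ _ he'
  rcases h.par _ _ he' with rfl | ⟨c, hc⟩
  · exact ⟨a', Or.inr he'⟩
  · have := h.dep _ _ hc
    simp only at h2
    omega

theorem length_pos (h : Good E ρ d) : 1 ≤ E.length := List.length_pos_of_ne_nil h.ne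

theorem parity (h : Good E ρ d) {a b : ℕ} (hab : adjE E a b) : (d a + d b) % 2 = 1 := by
  rcases hab with h1 | h1 <;> have := h.dep _ _ h1 <;> omega

theorem cls_adj (h : Good E ρ d) {c c' : ℕ} (hc : c + c' = 1) :
    ∀ v ∈ Cls (adjE E) d c, ∀ w, adjE E v w → w ∈ Cls (adjE E) d c' := by
  intro v hv w hw
  have := h.parity hw
  have := hv.2
  exact ⟨⟨v, adjE_symm hw⟩, by omega⟩

theorem isTree (h : Good E ρ d) : IsTreeE E := by
  have hne : ∀ a b, (a, b) ∈ E → a ≠ b := fun a b hab hh => by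
    have := h.dep _ _ hab
    subst hh
    omega
  refine ⟨fun e he => hne e.1 e.2 he, ⟨?_, SimpleGraph.IsAcyclic.induce ?_ _⟩⟩
  · have hρ : ρ ∈ verts E := h.root_adj
    have key : ∀ n a b, Wk (adjE E) n a b → ∀ (ha : a ∈ verts E) (hb : b ∈ verts E),
        ((SimpleGraph.fromRel (fun a b => (a, b) ∈ E)).induce (verts E)).Reachable ⟨a, ha⟩
          ⟨b, hb⟩ := by
      intro n a b hw
      induction hw with
      | nil a => exact fun _ _ => SimpleGraph.Reachable.refl _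
      | @cons n a b c h1 _ ih =>
        intro ha hc
        have hb : b ∈ verts E := ⟨a, adjE_symm h1⟩
        refine SimpleGraph.Reachable.trans (SimpleGraph.Adj.reachable ?_) (ih hb hc)
        simp only [SimpleGraph.comap_adj, Function.Embedding.subtype_apply,
          SimpleGraph.fromRel_adj]
        refine ⟨?_, h1⟩
        rcases h1 with h1 | h1
        · exact hne _ _ h1
        · exact (hne _ _ h1).symm
    have : Nonempty (verts E) := ⟨⟨ρ, hρ⟩⟩
    refine SimpleGraph.Connected.mk fun a b => ?_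
    exact (key _ _ _ (h.wk (h.vert a.2)) a.2 hρ).trans (key _ _ _ (h.wk (h.vert b.2)) b.2 hρ).symm
  · have key : ∀ a b, (a, b) ∈ E →
        ¬ ((SimpleGraph.fromRel (fun a b => (a, b) ∈ E)).deleteEdges {s(a, b)}).Reachable a b := by
      intro a b hab hr
      rw [SimpleGraph.reachable_iff_reflTransGen] at hr
      have hD : ∀ v, Relation.ReflTransGen (fun x y => (x, y) ∈ E) v a → d a ≤ d v := by
        intro v hv
        induction hv using Relation.ReflTransGen.head_induction_on with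
        | refl => exact le_rfl
        | head h1 _ ih =>
          have := h.dep _ _ h1
          omega
      have : ∀ v, Relation.ReflTransGen ((SimpleGraph.fromRel
          (fun a b => (a, b) ∈ E)).deleteEdges {s(a, b)}).Adj a v →
          Relation.ReflTransGen (fun x y => (x, y) ∈ E) v a := by
        intro v hv
        induction hv with
        | refl => exact Relation.ReflTransGen.refl
        | @tail x y _ h2 ih =>
          rw [SimpleGraph.deleteEdges_adj, SimpleGraph.fromRel_adj] at h2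
          rcases h2.1.2 with h3 | h3
          · rcases ih.cases_head with rfl | ⟨z, hz, h4⟩
            · exact (h2.2 (by rw [h.uniq _ _ _ h3 hab]; rfl)).elim
            · rwa [h.uniq _ _ _ h3 hz]
          · exact Relation.ReflTransGen.head h3 ih
      have h1 := hD _ (this b hr)
      have := h.dep _ _ hab
      omega
    rw [SimpleGraph.isAcyclic_iff_forall_adj_isBridge]
    intro a b hab
    rw [SimpleGraph.fromRel_adj] at hab
    rcases hab.2 with h1 | h1
    · exact SimpleGraph.isBridge_iff.2 (key _ _ h1)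
    · rw [Sym2.eq_swap]
      exact SimpleGraph.isBridge_iff.2 (key _ _ h1)

end Good

theorem verts_finite (E : List (ℕ × ℕ)) : (verts E).Finite := by
  refine ((E.map Prod.fst ++ E.map Prod.snd).finite_toSet).subset ?_
  rintro a ⟨b, h | h⟩
  · exact List.mem_append_left _ (List.mem_map_of_mem h)
  · exact List.mem_append_right _ (List.mem_map_of_mem h)

theorem terr_subset (E : List (ℕ × ℕ)) (W : ℕ → Finset ℕ) (t : ℕ) : terr E W t ⊆ verts E := by
  cases t with
  | zero => exact sdiff_subset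
  | succ t =>
    rintro v ⟨⟨a, _, h⟩, -⟩
    exact ⟨a, adjE_symm h⟩

theorem hunt_le_iff (E : List (ℕ × ℕ)) (k : ℕ) :
    hunt E ≤ k ↔ ∃ (T : ℕ) (W : ℕ → Finset ℕ), (∀ t, (W t).card ≤ k) ∧ terr E W T = ∅ := by
  classical
  constructor
  · intro h
    have hne : {k | ∃ (T : ℕ) (W : ℕ → Finset ℕ), (∀ t, (W t : Set ℕ) ⊆ verts E) ∧
        terr E W T = ∅ ∧ (Finset.range (T + 1)).sup (fun t => (W t).card) = k}.Nonempty :=
      ⟨_, 0, fun _ => (verts_finite E).toFinset, fun _ => by simp, by simp [terr], rfl⟩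
    obtain ⟨T, W, -, h2, h3⟩ := Nat.sInf_mem hne
    have key : ∀ t ≤ T, terr E (fun t => if t ≤ T then W t else ∅) t = terr E W t := by
      intro t ht
      induction t with
      | zero => simp [terr]
      | succ t ih => simp only [terr, ih (by omega), if_pos ht]
    refine ⟨T, fun t => if t ≤ T then W t else ∅, fun t => ?_, by rw [key T le_rfl, h2]⟩
    by_cases ht : t ≤ T
    · simp only [if_pos ht]
      refine le_trans ?_ h
      unfold hunt
      rw [← h3]
      exact Finset.le_sup (f := fun t => (W t).card) (Finset.mem_range.2 (by omega))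
    · simp [ht]
  · rintro ⟨T, W, h1, h2⟩
    have key : ∀ t, terr E (fun t => (W t).filter (· ∈ verts E)) t = terr E W t := by
      intro t
      induction t with
      | zero =>
        ext v
        simp only [terr, mem_sdiff, Finset.coe_filter, mem_ofPred_eq, Finset.mem_coe]
        tauto
      | succ t ih =>
        ext v
        simp only [terr, ih, mem_sdiff, Finset.coe_filter, mem_ofPred_eq, Finset.mem_coe]
        constructor
        · rintro ⟨⟨a, h3, h4⟩, h5⟩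
          exact ⟨⟨a, h3, h4⟩, fun h6 => h5 ⟨h6, a, adjE_symm h4⟩⟩
        · rintro ⟨h3, h5⟩
          exact ⟨h3, fun h6 => h5 h6.1⟩
    refine le_trans (Nat.sInf_le ⟨T, fun t => (W t).filter (· ∈ verts E), fun t v hv => ?_,
      by rw [key, h2], rfl⟩) ?_
    · exact (Finset.mem_filter.1 hv).2
    · exact Finset.sup_le fun t _ => (Finset.card_filter_le _ _).trans (h1 t)

theorem st_terr (E : List (ℕ × ℕ)) (W : ℕ → Finset ℕ) (k : ℕ) (hW : ∀ t, (W t).card ≤ k) (t : ℕ) :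
    St (adjE E) k (terr E W t)ᶜ (terr E W (t + 1))ᶜ :=
  ⟨W (t + 1), hW _, fun v hv => by
    by_cases h : v ∈ W (t + 1)
    · exact Or.inl h
    · exact Or.inr fun w hw h1 => hv ⟨⟨w, h1, adjE_symm hw⟩, h⟩⟩

theorem reach_of_terr {E : List (ℕ × ℕ)} {k T : ℕ} {W : ℕ → Finset ℕ} (hW : ∀ t, (W t).card ≤ k)
    (hT : terr E W T = ∅) : Reach (adjE E) k k ∅ univ := by
  have hz : ∀ j, terr E W (T + j) = ∅ := by
    intro j
    induction j with
    | zero => exact hT
    | succ j ih =>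
      rw [← add_assoc]
      simp [terr, ih]
  have key : ∀ j, Reach (adjE E) k k ∅ (terr E W (2 * j + 1))ᶜ := by
    intro j
    induction j with
    | zero =>
      refine Rnd.reach ⟨(terr E W 0)ᶜ, ⟨W 0, hW 0, fun v hv => ?_⟩, st_terr E W k hW 0⟩
      by_cases h : v ∈ W 0
      · exact Or.inl h
      · exact Or.inr fun w hw => (hv ⟨⟨w, hw⟩, h⟩).elim
    | succ j ih => exact ih.tail ⟨_, st_terr E W k hW _, st_terr E W k hW _⟩
  have := key T
  rwa [show 2 * T + 1 = T + (T + 1) by ring, hz, compl_empty] at this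

theorem terr_of_steps {E : List (ℕ × ℕ)} {k : ℕ}
    (h : Relation.ReflTransGen (St (adjE E) k) ∅ (verts E)) :
    ∃ (T : ℕ) (W : ℕ → Finset ℕ), (∀ t, (W t).card ≤ k) ∧ terr E W T = ∅ := by
  obtain ⟨n, f, h0, hn, hf⟩ := exists_seq h
  have : ∀ i, ∃ W : Finset ℕ, W.card ≤ k ∧ (i < n →
      ∀ v ∈ f (i + 1), v ∈ W ∨ ∀ w, adjE E v w → w ∈ f i) := by
    intro i
    by_cases hi : i < n
    · obtain ⟨W, hW, h1⟩ := hf i hi
      exact ⟨W, hW, fun _ => h1⟩
    · exact ⟨∅, by simp, fun h => (hi h).elim⟩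
  choose W hW h using this
  have key : ∀ t, t < n → ∀ v ∈ terr E W t, v ∉ f (t + 1) := by
    intro t
    induction t with
    | zero =>
      rintro ht v ⟨⟨w, hw⟩, h2⟩ h3
      rcases h 0 ht v h3 with h4 | h4
      · exact h2 h4
      · have := h4 w hw
        rw [h0] at this
        exact this
    | succ t ih =>
      rintro ht v ⟨⟨a, ha, hw⟩, h2⟩ h3
      rcases h _ ht v h3 with h4 | h4
      · exact h2 h4
      · exact ih (by omega) a ha (h4 a (adjE_symm hw))
  refine ⟨n - 1, W, hW, eq_empty_of_forall_notMem fun v hv => ?_⟩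
  have hv' := terr_subset E W _ hv
  rcases Nat.eq_zero_or_pos n with rfl | hpos
  · rw [← hn, h0] at hv'
    exact hv'
  · refine key (n - 1) (by omega) v hv ?_
    rwa [Nat.sub_add_cancel hpos, hn]

theorem steps_of_reach {V : Type} {r : V → V → Prop} {k : ℕ} {S S' : Set V}
    (h : Reach r k k S S') : ∃ D, S' ⊆ D ∧ Relation.ReflTransGen (St r k) S D :=
  Reach.induct (C := fun X => ∃ D, X ⊆ D ∧ Relation.ReflTransGen (St r k) S D)
    ⟨S, Subset.rfl, Relation.ReflTransGen.refl⟩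
    (fun _ _ ⟨_, a, b⟩ ⟨T, c, e⟩ => ⟨_, Subset.rfl,
      (b.tail (c.mono le_rfl a Subset.rfl : St r k _ T)).tail e⟩)
    (fun _ _ ⟨D, a, b⟩ c => ⟨D, c.trans a, b⟩) h

theorem Good.hunt_le {E : List (ℕ × ℕ)} {ρ : ℕ} {d : ℕ → ℕ} (h : Good E ρ d) (k : ℕ) :
    hunt E ≤ k ↔ Reach (adjE E) k k ∅ (Cls (adjE E) d 0) := by
  rw [hunt_le_iff]
  constructor
  · rintro ⟨T, W, h1, h2⟩
    exact (reach_of_terr h1 h2).sub (subset_univ _)
  · intro h0
    have h1 : Reach (adjE E) k k ∅ (Cls (adjE E) d 1) := h0.swap (h.cls_adj rfl)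
    have h2 : Rnd (adjE E) 0 0 (Cls (adjE E) d 0) (Cls (adjE E) d 0) :=
      ⟨_, St.free (h.cls_adj (c := 1) rfl), St.free (h.cls_adj rfl)⟩
    have h3 := h0.trans ((h1.par h2).mono le_rfl le_rfl (by simp) Subset.rfl)
    obtain ⟨D, h4, h5⟩ := steps_of_reach h3
    refine terr_of_steps (h5.tail ((St.free (S := verts E) fun v _ w hw =>
      ⟨v, adjE_symm hw⟩).mono (Nat.zero_le _) (subset_trans ?_ h4) Subset.rfl))
    intro v hv
    rcases Nat.mod_two_eq_zero_or_one (d v) with h6 | h6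
    · exact Or.inr ⟨hv, h6⟩
    · exact Or.inl ⟨hv, h6⟩

end Pool.Agent.MP_9694c2_lc

end MrgPart1

-- ======== part 2: formerly Pool.Agent.MP_9694c2_lc.Pad
section MrgPart2

/-!
Padding: many copies of a rooted tree below a new root need one more hunter every second step.
-/

set_option autoImplicit false

namespace Pool.Agent.MP_9694c2_lc

open Set

/-- The name of vertex `v` in copy `l`. -/
def emb (l v : ℕ) : ℕ := Nat.pair l v + 1

theorem emb_inj {l v l' v' : ℕ} : emb l v = emb l' v' ↔ l = l' ∧ v = v' := by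
  simp [emb, Nat.pair_eq_pair]

theorem emb_ne (l v : ℕ) : emb l v ≠ 0 := by simp [emb]

/-- Copies of the tree `E` (root `0`) below the new root `0`. -/
def pad (C : ℕ) (E : List (ℕ × ℕ)) : List (ℕ × ℕ) :=
  (List.range (C * E.length)).flatMap
    (fun l => (emb l 0, 0) :: E.map (fun e => (emb l e.1, emb l e.2)))

/-- The depth function after padding. -/
def padD (d : ℕ → ℕ) (v : ℕ) : ℕ := if v = 0 then 0 else d (Nat.unpair (v - 1)).2 + 1

@[simp] theorem padD_zero (d : ℕ → ℕ) : padD d 0 = 0 := by simp [padD]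

@[simp] theorem padD_emb (d : ℕ → ℕ) (l v : ℕ) : padD d (emb l v) = d v + 1 := by
  simp [padD, emb]

variable {C : ℕ} {E : List (ℕ × ℕ)} {d : ℕ → ℕ}

theorem mem_pad {a b : ℕ} : (a, b) ∈ pad C E ↔ ∃ l < C * E.length, (a = emb l 0 ∧ b = 0) ∨
    ∃ a' b', (a', b') ∈ E ∧ a = emb l a' ∧ b = emb l b' := by
  simp only [pad, List.mem_flatMap, List.mem_range, List.mem_cons, List.mem_map, Prod.mk.injEq,
    Prod.exists]
  refine exists_congr fun l => and_congr_right fun _ => or_congr_right ?_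
  refine exists_congr fun a' => exists_congr fun b' => and_congr_right fun _ => ?_
  exact ⟨fun h => ⟨h.1.symm, h.2.symm⟩, fun h => ⟨h.1.symm, h.2.symm⟩⟩

theorem adj_pad_emb {l a w : ℕ} (h : adjE (pad C E) (emb l a) w) :
    l < C * E.length ∧ ((a = 0 ∧ w = 0) ∨ ∃ b, adjE E a b ∧ w = emb l b) := by
  rcases h with h | h <;> obtain ⟨l', hl, h | ⟨a', b', h1, h2, h3⟩⟩ := mem_pad.1 h
  · obtain ⟨rfl, rfl⟩ := emb_inj.1 h.1
    exact ⟨hl, Or.inl ⟨rfl, h.2⟩⟩
  · obtain ⟨rfl, rfl⟩ := emb_inj.1 h2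
    exact ⟨hl, Or.inr ⟨b', Or.inl h1, h3⟩⟩
  · exact (emb_ne _ _ h.2).elim
  · obtain ⟨rfl, rfl⟩ := emb_inj.1 h3
    exact ⟨hl, Or.inr ⟨a', Or.inr h1, h2⟩⟩

theorem adj_pad_cases {v w : ℕ} (h : adjE (pad C E) v w) :
    v = 0 ∨ ∃ l a, v = emb l a := by
  rcases h with h | h <;> obtain ⟨l', hl, h | ⟨a', b', h1, h2, h3⟩⟩ := mem_pad.1 h
  · exact Or.inr ⟨_, _, h.1⟩
  · exact Or.inr ⟨_, _, h2⟩
  · exact Or.inl h.2
  · exact Or.inr ⟨_, _, h3⟩

theorem adj_pad_of {l a b : ℕ} (hl : l < C * E.length) (h : adjE E a b) :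
    adjE (pad C E) (emb l a) (emb l b) := by
  rcases h with h | h
  · exact Or.inl (mem_pad.2 ⟨l, hl, Or.inr ⟨a, b, h, rfl, rfl⟩⟩)
  · exact Or.inr (mem_pad.2 ⟨l, hl, Or.inr ⟨b, a, h, rfl, rfl⟩⟩)

theorem adj_pad_root {l : ℕ} (hl : l < C * E.length) : adjE (pad C E) 0 (emb l 0) :=
  Or.inr (mem_pad.2 ⟨l, hl, Or.inl ⟨rfl, rfl⟩⟩)

theorem Good.pad (h : Good E 0 d) (hC : 1 ≤ C) : Good (pad C E) 0 (padD d) where
  ne := by
    have : (emb 0 0, 0) ∈ MP_9694c2_lc.pad C E :=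
      mem_pad.2 ⟨0, Nat.mul_pos hC h.length_pos, Or.inl ⟨rfl, rfl⟩⟩
    exact List.ne_nil_of_mem this
  root := padD_zero d
  dep := by
    intro a b hab
    obtain ⟨l, -, ⟨rfl, rfl⟩ | ⟨a', b', h1, rfl, rfl⟩⟩ := mem_pad.1 hab
    · simp [h.root]
    · simp [h.dep _ _ h1]
  uniq := by
    intro a b b' hab hab'
    obtain ⟨l, -, ⟨rfl, rfl⟩ | ⟨a', b', h1, rfl, rfl⟩⟩ := mem_pad.1 hab <;>
      obtain ⟨l', -, ⟨h2, rfl⟩ | ⟨a'', b'', h3, h2, rfl⟩⟩ := mem_pad.1 hab' <;>
      obtain ⟨rfl, h4⟩ := emb_inj.1 h2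
    · rfl
    · have := h.dep _ _ h3
      have := h.root
      subst h4
      omega
    · have := h.dep _ _ h1
      have := h.root
      subst h4
      omega
    · subst h4
      rw [h.uniq _ _ _ h1 h3]
  par := by
    intro a b hab
    obtain ⟨l, hl, ⟨rfl, rfl⟩ | ⟨a', b', h1, rfl, rfl⟩⟩ := mem_pad.1 hab
    · exact Or.inl rfl
    · rcases h.par _ _ h1 with rfl | ⟨c, hc⟩
      · exact Or.inr ⟨0, mem_pad.2 ⟨l, hl, Or.inl ⟨rfl, rfl⟩⟩⟩
      · exact Or.inr ⟨_, mem_pad.2 ⟨l, hl, Or.inr ⟨_, _, hc, rfl, rfl⟩⟩⟩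

theorem Good.pad_complete (h : Good E 0 d) {p q : ℕ}
    (hw : Reach (adjE E) p q ∅ (Cls (adjE E) d 0)) :
    Reach (adjE (MP_9694c2_lc.pad C E)) (p + 1) q ∅
      (Cls (adjE (MP_9694c2_lc.pad C E)) (padD d) 1) := by
  classical
  set D : ℕ → ℕ → Set ℕ := fun c l => {v | ∃ l' < l, ∃ b ∈ Cls (adjE E) d c, v = emb l' b} with hD
  have key : ∀ l, Reach (adjE (MP_9694c2_lc.pad C E)) (p + 1) q ∅ (D 0 l) := by
    intro l
    induction l with
    | zero => exact Reach.of_subset (by rintro v ⟨l', h, -⟩; omega)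
    | succ l ih =>
      refine (ih.trans (Reach.induct (C := fun X => Reach (adjE (MP_9694c2_lc.pad C E)) (p + 1) q
        (D 0 l) (D 0 l ∪ emb l '' (X ∩ Cls (adjE E) d 0))) (Reach.of_subset (by simp)) ?_ ?_
        hw)).sub ?_
      · rintro X X' a ⟨T, ⟨Y, hY, h1⟩, ⟨Z, hZ, h2⟩⟩
        refine a.tail ⟨insert 0 (D 1 l ∪ emb l '' (T ∩ Cls (adjE E) d 1)),
          ⟨insert 0 (Y.image (emb l)), (Finset.card_insert_le _ _).trans
            (Nat.succ_le_succ (Finset.card_image_le.trans hY)), ?_⟩,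
          ⟨Z.image (emb l), Finset.card_image_le.trans hZ, ?_⟩⟩
        · rintro v (rfl | ⟨l', hl', b, hb, rfl⟩ | ⟨b, hb, rfl⟩)
          · exact Or.inl (Finset.mem_insert_self _ _)
          · refine Or.inr fun w hw => ?_
            rcases (adj_pad_emb hw).2 with ⟨rfl, -⟩ | ⟨c, hc, rfl⟩
            · have := hb.2
              rw [h.root] at this
              omega
            · exact Or.inl ⟨l', hl', c, h.cls_adj rfl _ hb _ hc, rfl⟩
          · rcases h1 b hb.1 with h3 | h3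
            · exact Or.inl (Finset.mem_insert_of_mem (Finset.mem_image_of_mem _ h3))
            · refine Or.inr fun w hw => ?_
              rcases (adj_pad_emb hw).2 with ⟨rfl, -⟩ | ⟨c, hc, rfl⟩
              · have := hb.2.2
                rw [h.root] at this
                omega
              · exact Or.inr ⟨c, ⟨h3 c hc, h.cls_adj rfl _ hb.2 _ hc⟩, rfl⟩
        · rintro v (⟨l', hl', b, hb, rfl⟩ | ⟨b, hb, rfl⟩)
          · refine Or.inr fun w hw => ?_
            rcases (adj_pad_emb hw).2 with ⟨-, rfl⟩ | ⟨c, hc, rfl⟩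
            · exact Or.inl rfl
            · exact Or.inr (Or.inl ⟨l', hl', c, h.cls_adj rfl _ hb _ hc, rfl⟩)
          · rcases h2 b hb.1 with h3 | h3
            · exact Or.inl (Finset.mem_image_of_mem _ h3)
            · refine Or.inr fun w hw => ?_
              rcases (adj_pad_emb hw).2 with ⟨-, rfl⟩ | ⟨c, hc, rfl⟩
              · exact Or.inl rfl
              · exact Or.inr (Or.inr ⟨c, ⟨h3 c hc, h.cls_adj rfl _ hb.2 _ hc⟩, rfl⟩)
      · intro X X' a b
        exact a.sub (union_subset_union_right _ (image_mono (inter_subset_inter_left _ b)))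
      · rintro v ⟨l', hl', b, hb, rfl⟩
        rcases Nat.lt_succ_iff_lt_or_eq.1 hl' with h1 | rfl
        · exact Or.inl ⟨l', h1, b, hb, rfl⟩
        · exact Or.inr ⟨b, ⟨hb, hb⟩, rfl⟩
  refine (key (C * E.length)).sub ?_
  rintro v ⟨⟨w, hw⟩, hv⟩
  rcases adj_pad_cases hw with rfl | ⟨l, a, rfl⟩
  · simp at hv
  · obtain ⟨hl, h1⟩ := adj_pad_emb hw
    rw [padD_emb] at hv
    refine ⟨l, hl, a, ⟨?_, by omega⟩, rfl⟩
    rcases h1 with ⟨rfl, -⟩ | ⟨c, hc, -⟩
    · exact h.root_adj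
    · exact ⟨c, hc⟩

/-- The vertices shot in `j` rounds starting from round `s`. -/
noncomputable def Play.shots {V : Type} {r : V → V → Prop} {p q : ℕ} (G : Play r p q) (s j : ℕ) :
    Finset V := by
  classical
  exact (Finset.range j).biUnion (fun i => G.Y (s + i) ∪ G.X (s + i + 1))

theorem Play.card_shots {V : Type} {r : V → V → Prop} {p q : ℕ} (G : Play r p q) (s j : ℕ) :
    (G.shots s j).card ≤ j * (p + q) := by
  classical
  unfold Play.shots
  refine (Finset.card_biUnion_le_card_mul _ _ (p + q) fun i _ => ?_).trans (by simp)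
  exact (Finset.card_union_le _ _).trans (Nat.add_le_add (G.hY _) (G.hX _))

theorem Play.notMem_shots {V : Type} {r : V → V → Prop} {p q : ℕ} (G : Play r p q) {s j : ℕ}
    {v : V} (h : v ∉ G.shots s j) {i : ℕ} (hi : i < j) : v ∉ G.Y (s + i) ∧ v ∉ G.X (s + i + 1) := by
  classical
  unfold Play.shots at h
  simp only [Finset.mem_biUnion, Finset.mem_range, Finset.mem_union, not_exists, not_and,
    not_or] at h
  exact h i hi

theorem Play.shots_mono {V : Type} {r : V → V → Prop} {p q : ℕ} (G : Play r p q) {s j j' : ℕ}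
    (h : j ≤ j') : G.shots s j ⊆ G.shots s j' := by
  classical
  unfold Play.shots
  exact Finset.biUnion_subset_biUnion_of_subset_left _ (Finset.range_subset_range.2 h)

theorem Play.walk {V V' : Type} {r : V → V → Prop} {r' : V' → V' → Prop} {p q : ℕ}
    (G : Play r p q) (φ : V' → V) (hφ : ∀ a b, r' a b → r (φ b) (φ a)) (j : ℕ) :
    ∀ (s : ℕ) (a b : V'), (∀ i < j, ∀ v, φ v ∉ G.Y (s + i) ∧ φ v ∉ G.X (s + i + 1)) →
      Wk r' (2 * j) a b → φ a ∈ G.P s → φ b ∈ G.P (s + j) := by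
  induction j with
  | zero =>
    intro s a b _ hw ha
    cases hw
    exact ha
  | succ j ih =>
    intro s a b hs hw ha
    rw [show 2 * (j + 1) = 2 * j + 1 + 1 by ring] at hw
    cases hw with
    | cons h1 hw =>
      cases hw with
      | cons h2 hw =>
        have h3 := G.hQ _ _ _ ha (hφ _ _ h1) (hs 0 (by omega) _).1
        have h4 := G.hP _ _ _ h3 (hφ _ _ h2) (hs 0 (by omega) _).2
        have := ih (s + 1) _ b (fun i hi v => by
          have := hs (i + 1) (by omega) v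
          rwa [show s + (i + 1) = s + 1 + i by ring] at this) hw h4
        rwa [show s + 1 + j = s + (j + 1) by ring] at this

theorem Good.pad_sound (h : Good E 0 d) {p q : ℕ} (hC : 3 * (p + 1 + q) + 1 ≤ C)
    (hw : Reach (adjE (MP_9694c2_lc.pad C E)) (p + 1) q ∅
      (Cls (adjE (MP_9694c2_lc.pad C E)) (padD d) 1)) :
    Reach (adjE E) p q ∅ (Cls (adjE E) d 0) := by
  classical
  obtain ⟨G, n, hn⟩ := hw.exists_play
  set D := E.length with hD
  have hD1 : 1 ≤ D := h.length_pos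
  obtain ⟨w0, hw0⟩ := h.root_adj
  have hsym : ∀ a b, adjE E a b → adjE E b a := fun _ _ => adjE_symm
  -- walks of length `2 * D` between the root and the vertices of its class
  have hwk : ∀ b ∈ Cls (adjE E) d 0, Wk (adjE E) (2 * D) b 0 := by
    intro b hb
    obtain ⟨c, hc⟩ := hb.1
    have h1 := h.depth_le (h.vert hb.1)
    have h2 := hb.2
    have := (h.wk (h.vert hb.1)).pad hsym hc ((2 * D - d b) / 2)
    rwa [show d b + 2 * ((2 * D - d b) / 2) = 2 * D by omega] at this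
  set lab : ℕ → ℕ := fun v => (Nat.unpair (v - 1)).1 with hlab
  have hlab' : ∀ l v, lab (emb l v) = l := fun l v => by simp [hlab, emb]
  have walk : ∀ l < C * D, ∀ s j a b, (∀ v ∈ G.shots s j, lab v ≠ l) → Wk (adjE E) (2 * j) a b →
      emb l a ∈ G.P s → emb l b ∈ G.P (s + j) := by
    intro l hl s j a b hs hw ha
    exact G.walk (emb l) (fun a b hab => adj_pad_of hl (adjE_symm hab)) j s a b
      (fun i hi v => G.notMem_shots (fun hv => hs _ hv (hlab' _ _)) hi) hw ha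
  -- the last time all copies were open to the root
  set Rs : ℕ → Prop := fun β => ∀ l < C * D, emb l 0 ∉ G.X β → emb l 0 ∈ G.P β with hRs
  set β := Nat.findGreatest Rs n with hβ
  have hβn : β ≤ n := Nat.findGreatest_le n
  have hβR : Rs β := Nat.findGreatest_spec (Nat.zero_le n) (fun l _ _ => G.h0 _)
  have hroot : ∀ s, β ≤ s → s < n → 0 ∉ G.Q s := by
    intro s h1 h2 h3
    refine Nat.findGreatest_is_greatest (P := Rs) (k := s + 1) (n := n) (by omega) (by omega) ?_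
    intro l hl hx
    exact G.hP _ _ _ h3 (adjE_symm (adj_pad_root hl)) hx
  set F := ((Finset.range (C * D)).filter (fun l => ∀ v ∈ G.X β ∪ G.shots β D, lab v ≠ l))
    with hF
  have hFc : D * (p + 1 + q) < F.card := by
    have h1 := card_unshot (Finset.range (C * D)) (G.X β ∪ G.shots β D) lab
    have h2 := Finset.card_union_le (G.X β) (G.shots β D)
    have h3 := G.hX β
    have h4 := G.card_shots β D
    rw [Finset.card_range] at h1
    have h5 : (3 * (p + 1 + q) + 1) * D ≤ C * D := Nat.mul_le_mul_right _ hC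
    have h6 : q ≤ D * (p + 1 + q) := le_trans (by omega) (Nat.le_mul_of_pos_left _ hD1)
    have h7 : C * D ≤ F.card + (G.X β ∪ G.shots β D).card := by convert h1
    have h8 : (3 * (p + 1 + q) + 1) * D = 3 * (D * (p + 1 + q)) + D := by ring
    omega
  have hFl : ∀ l ∈ F, l < C * D := fun l hl => Finset.mem_range.1 (Finset.mem_filter.1 hl).1
  have hF0 : ∀ l ∈ F, emb l 0 ∈ G.P β := fun l hl => hβR l (hFl l hl) fun hx =>
    (Finset.mem_filter.1 hl).2 _ (Finset.mem_union_left _ hx) (hlab' _ _)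
  have hFu : ∀ l ∈ F, ∀ j ≤ D, ∀ v ∈ G.shots β j, lab v ≠ l := by
    intro l hl j hj v hv
    refine (Finset.mem_filter.1 hl).2 _ (Finset.mem_union_right _ ?_)
    exact G.shots_mono hj hv
  have hfull : ∀ l ∈ F, ∀ b ∈ Cls (adjE E) d 0, emb l b ∈ G.P (β + D) := fun l hl b hb =>
    walk l (hFl l hl) β D 0 b (hFu l hl D le_rfl) ((hwk b hb).symm hsym) (hF0 l hl)
  have h0c : (0 : ℕ) ∈ Cls (adjE E) d 0 := ⟨⟨w0, hw0⟩, by rw [h.root]⟩
  have hend : ∀ l < C * D, ∀ b ∈ Cls (adjE E) d 0, emb l b ∉ G.P n := by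
    intro l hl b hb
    obtain ⟨c, hc⟩ := hb.1
    refine hn _ ⟨⟨_, adj_pad_of hl hc⟩, ?_⟩
    have := hb.2
    rw [padD_emb]
    omega
  have hloop : ∀ j, Wk (adjE E) (2 * j) 0 0 := fun j => by
    simpa using (Wk.nil (r := adjE E) 0).pad hsym hw0 j
  obtain ⟨l0, hl0⟩ : F.Nonempty := Finset.card_pos.1 (by omega)
  have hτ : β + D ≤ n := by
    by_contra hc
    have := walk l0 (hFl l0 hl0) β (n - β) 0 0 (hFu l0 hl0 _ (by omega)) (hloop _) (hF0 l0 hl0)
    rw [show β + (n - β) = n by omega] at this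
    exact hend l0 (hFl l0 hl0) 0 h0c this
  have hex : ∃ j, ∃ l ∈ F, ∀ b ∈ Cls (adjE E) d 0, emb l b ∉ G.P (β + D + j) :=
    ⟨n - (β + D), l0, hl0, by
      rw [show β + D + (n - (β + D)) = n by omega]
      exact hend l0 (hFl l0 hl0)⟩
  set φ := Nat.find hex with hφ
  obtain ⟨l, hl, hlφ⟩ : ∃ l ∈ F, ∀ b ∈ Cls (adjE E) d 0, emb l b ∉ G.P (β + D + φ) :=
    Nat.find_spec hex
  have hφn : φ ≤ n - (β + D) := Nat.find_min' hex ⟨l0, hl0, by
      rw [show β + D + (n - (β + D)) = n by omega]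
      exact hend l0 (hFl l0 hl0)⟩
  have hheld : ∀ j < φ, 0 ∈ G.Y (β + D + j) := by
    intro j hj
    by_contra hc
    refine hroot (β + D + j) (by omega) (by omega) ?_
    suffices ∃ l ∈ F, emb l 0 ∈ G.P (β + D + j) by
      obtain ⟨l, hl, h1⟩ := this
      exact G.hQ _ _ _ h1 (adj_pad_root (hFl l hl)) hc
    by_cases hjD : j ≤ D
    · obtain ⟨l, hl, h1⟩ := exists_unshot F (G.shots (β + D) j) lab
        ((G.card_shots _ _).trans_lt (lt_of_le_of_lt (Nat.mul_le_mul_right _ hjD) hFc))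
      exact ⟨l, hl, walk l (hFl l hl) _ j 0 0 h1 (hloop _) (hfull l hl 0 h0c)⟩
    · obtain ⟨l, hl, h1⟩ := exists_unshot F (G.shots (β + D + (j - D)) D) lab
        ((G.card_shots _ _).trans_lt hFc)
      have h2 := Nat.find_min hex (m := j - D) (by omega)
      push Not at h2
      obtain ⟨b, hb, h3⟩ := h2 l hl
      have := walk l (hFl l hl) _ D b 0 h1 (hwk b hb) h3
      rw [show β + D + (j - D) + D = β + D + j by omega] at this
      exact ⟨l, hl, this⟩
  have hinj : Function.Injective (emb l) := fun a b hab => (emb_inj.1 hab).2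
  have hcard : ∀ W : Finset ℕ, (W.preimage (emb l) hinj.injOn).card ≤ (W.erase 0).card := by
    intro W
    rw [← Finset.card_image_of_injective _ hinj]
    refine Finset.card_le_card fun x hx => ?_
    obtain ⟨y, hy, rfl⟩ := Finset.mem_image.1 hx
    exact Finset.mem_erase.2 ⟨emb_ne _ _, Finset.mem_preimage.1 hy⟩
  have key : ∀ j ≤ φ, Reach (adjE E) p q ∅
      {b | b ∈ Cls (adjE E) d 0 ∧ emb l b ∉ G.P (β + D + j)} := by
    intro j hj
    induction j with
    | zero => exact Reach.of_subset fun b hb => hb.2 (hfull l hl b hb.1)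
    | succ j ih =>
      refine (ih (by omega)).tail ⟨{b | b ∈ Cls (adjE E) d 1 ∧ emb l b ∉ G.Q (β + D + j)},
        ⟨(G.Y (β + D + j)).preimage (emb l) hinj.injOn, (hcard _).trans ?_, fun v hv => ?_⟩,
        ⟨(G.X (β + D + j + 1)).preimage (emb l) hinj.injOn,
          (hcard _).trans (Finset.card_erase_le.trans (G.hX _)), fun v hv => ?_⟩⟩
      · rw [Finset.card_erase_of_mem (hheld j (by omega))]
        have := G.hY (β + D + j)
        omega
      · by_cases h1 : emb l v ∈ G.Y (β + D + j)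
        · exact Or.inl (Finset.mem_preimage.2 h1)
        · exact Or.inr fun w hw => ⟨h.cls_adj rfl _ hv.1 _ hw, fun h2 =>
            hv.2 (G.hQ _ _ _ h2 (adj_pad_of (hFl l hl) hw) h1)⟩
      · by_cases h1 : emb l v ∈ G.X (β + D + j + 1)
        · exact Or.inl (Finset.mem_preimage.2 h1)
        · exact Or.inr fun w hw => ⟨h.cls_adj rfl _ hv.1 _ hw, fun h2 =>
            hv.2 (G.hP _ _ _ h2 (adj_pad_of (hFl l hl) hw) h1)⟩
  exact (key φ le_rfl).sub fun b hb => ⟨hb, hlφ b hb⟩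

theorem Good.pad_iff (h : Good E 0 d) {p q : ℕ} (hC : 3 * (p + 1 + q) + 1 ≤ C) :
    Reach (adjE (MP_9694c2_lc.pad C E)) q (p + 1) ∅
      (Cls (adjE (MP_9694c2_lc.pad C E)) (padD d) 0) ↔
    Reach (adjE E) p q ∅ (Cls (adjE E) d 0) :=
  ⟨fun h1 => h.pad_sound hC (h1.swap ((h.pad (by omega)).cls_adj rfl)),
    fun h1 => (h.pad_complete h1).swap ((h.pad (by omega)).cls_adj rfl)⟩

theorem Good.hunt_pad (h : Good E 0 d) (k : ℕ) :
    hunt (MP_9694c2_lc.pad (6 * k + 7) (MP_9694c2_lc.pad (6 * k + 7) E)) ≤ k + 1 ↔ hunt E ≤ k := by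
  rw [((h.pad (by omega)).pad (by omega)).hunt_le, h.hunt_le,
    (h.pad (by omega)).pad_iff (by omega), h.pad_iff (by omega)]

end Pool.Agent.MP_9694c2_lc

end MrgPart2

-- ======== part 3: formerly Pool.Agent.MP_9694c2_lc.Tree
section MrgPart3

/-!
The tree of the reduction for two hunters.
-/

set_option autoImplicit false

namespace Pool.Agent.MP_9694c2_lc

open Set

/-- Vertices that carry pendant units. -/
inductive Hs
  | ch (i : ℕ)
  | gx (k : ℕ)
  | zy (s : Bool) (i : ℕ)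
  deriving DecidableEq

/-- The vertices. -/
inductive Vx
  | host (h : Hs)
  | un (h : Hs) (l pos : ℕ)
  | c (i : ℕ)
  | zb (s : Bool) (i : ℕ)
  | g
  | u
  | y (j : ℕ)
  | leg (j l k : ℕ)
  deriving DecidableEq

/-- The parameters of the tree. -/
structure Pm where
  N : ℕ
  hard : ℕ → Bool
  n : ℕ
  M : ℕ → ℕ
  Z : ℕ

open Hs Vx

namespace Pm

variable (A : Pm)

/-- Hosts with hard units. -/
def isH : Hs → Bool
  | ch i => A.hard i
  | gx _ => true
  | zy _ _ => false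

/-- Number of units. -/
def nU : Hs → ℕ
  | ch i => if 1 ≤ i ∧ i ≤ A.N then (if A.hard i then 5 else 3) else 0
  | gx k => if k < 3 then 5 else 0
  | zy _ i => if i < 9 then A.Z else 0

/-- The two ends of the chain. -/
def zc (s : Bool) : ℕ := if s then A.N + 1 else 0

/-- The (child, parent) relation. -/
inductive Ed : Vx → Vx → Prop
  | ch_c {i : ℕ} : i ≤ A.N → Ed (host (ch (i + 1))) (c (i + 1))
  | c_ch {i : ℕ} : i ≤ A.N → Ed (c (i + 1)) (host (ch i))
  | gx_g {k : ℕ} : k < 3 → Ed (host (gx k)) g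
  | g_ch : Ed g (host (ch A.N))
  | u_g : Ed u g
  | y_u {j : ℕ} : j < A.n → Ed (y j) u
  | leg0 {j l : ℕ} : j < A.n → l < A.M j → Ed (leg j l 0) (y j)
  | legS {j l k : ℕ} : j < A.n → l < A.M j → k < 6 → Ed (leg j l (k + 1)) (leg j l k)
  | zb_z {s : Bool} {i : ℕ} : i < 9 → Ed (zb s i) (host (ch (A.zc s)))
  | zy_zb {s : Bool} {i : ℕ} : i < 9 → Ed (host (zy s i)) (zb s i)
  | un0 {h : Hs} {l : ℕ} : l < A.nU h → Ed (un h l 0) (host h)
  | un1 {h : Hs} {l : ℕ} : l < A.nU h → Ed (un h l 1) (un h l 0)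
  | un2 {h : Hs} {l : ℕ} : l < A.nU h → Ed (un h l 2) (un h l 1)
  | un3 {h : Hs} {l : ℕ} : l < A.nU h → A.isH h = true → Ed (un h l 3) (un h l 1)

/-- Adjacency. -/
def adj (a b : Vx) : Prop := A.Ed a b ∨ A.Ed b a

/-- Depth of a host. -/
def depH : Hs → ℕ
  | ch i => 2 * i
  | gx _ => 2 * A.N + 2
  | zy s _ => 2 * A.zc s + 2

/-- Depth. -/
def dep : Vx → ℕ
  | host h => A.depH h
  | un h _ pos => A.depH h + (if pos = 0 then 1 else if pos = 1 then 2 else 3)
  | c i => 2 * i - 1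
  | zb s _ => 2 * A.zc s + 1
  | g => 2 * A.N + 1
  | u => 2 * A.N + 2
  | y _ => 2 * A.N + 3
  | leg _ _ k => 2 * A.N + 4 + k

variable {A}

theorem adj_symm {a b : Vx} (h : A.adj a b) : A.adj b a := Or.symm h

theorem Ed.dep {a b : Vx} (h : A.Ed a b) : A.dep a = A.dep b + 1 := by
  cases h <;> simp only [Pm.dep, depH] <;> first | omega | simp

theorem Ed.uniq {a b b' : Vx} (h : A.Ed a b) (h' : A.Ed a b') : b = b' := by
  cases h <;> cases h' <;> rfl

theorem Ed.par {a b : Vx} (h : A.Ed a b) : b = host (ch 0) ∨ ∃ e, A.Ed b e := by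
  have hch : ∀ i ≤ A.N + 1, host (ch i) = host (ch 0) ∨ ∃ e, A.Ed (host (ch i)) e := by
    intro i hi
    rcases i with _ | i
    · exact Or.inl rfl
    · exact Or.inr ⟨_, Ed.ch_c (by omega)⟩
  cases h with
  | ch_c h => exact Or.inr ⟨_, Ed.c_ch h⟩
  | c_ch h => exact hch _ (by omega)
  | gx_g _ => exact Or.inr ⟨_, Ed.g_ch⟩
  | g_ch => exact hch _ (by omega)
  | u_g => exact Or.inr ⟨_, Ed.g_ch⟩
  | y_u _ => exact Or.inr ⟨_, Ed.u_g⟩
  | leg0 h _ => exact Or.inr ⟨_, Ed.y_u h⟩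
  | @legS j l k h1 h2 h3 =>
    rcases k with _ | k
    · exact Or.inr ⟨_, Ed.leg0 h1 h2⟩
    · exact Or.inr ⟨_, Ed.legS h1 h2 (by omega)⟩
  | @zb_z s i _ => exact hch _ (by unfold zc; split_ifs <;> omega)
  | zy_zb h => exact Or.inr ⟨_, Ed.zb_z h⟩
  | @un0 h l h1 =>
    rcases h with i | k | ⟨s, i⟩
    · simp only [nU] at h1
      exact hch _ (by split_ifs at h1 <;> omega)
    · simp only [nU] at h1
      exact Or.inr ⟨_, Ed.gx_g (by split_ifs at h1 <;> omega)⟩
    · simp only [nU] at h1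
      exact Or.inr ⟨_, Ed.zy_zb (by split_ifs at h1 <;> omega)⟩
  | un1 h => exact Or.inr ⟨_, Ed.un0 h⟩
  | un2 h => exact Or.inr ⟨_, Ed.un1 h⟩
  | un3 h _ => exact Or.inr ⟨_, Ed.un1 h⟩

/-! Neighbourhoods. -/

theorem nb_ch {i : ℕ} {w : Vx} (h : A.adj (host (ch i)) w) :
    (w = c i ∧ 1 ≤ i ∧ i ≤ A.N + 1) ∨ (w = c (i + 1) ∧ i ≤ A.N) ∨ (w = g ∧ i = A.N) ∨
      (∃ s j, w = zb s j ∧ i = A.zc s ∧ j < 9) ∨ ∃ l < A.nU (ch i), w = un (ch i) l 0 := by
  rcases h with h | h <;> cases h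
  · exact Or.inl ⟨rfl, by omega, by omega⟩
  · exact Or.inr (Or.inl ⟨rfl, ‹_›⟩)
  · exact Or.inr (Or.inr (Or.inl ⟨rfl, rfl⟩))
  · exact Or.inr (Or.inr (Or.inr (Or.inl ⟨_, _, rfl, rfl, ‹_›⟩)))
  · exact Or.inr (Or.inr (Or.inr (Or.inr ⟨_, ‹_›, rfl⟩)))

theorem nb_gx {k : ℕ} {w : Vx} (h : A.adj (host (gx k)) w) :
    (w = g ∧ k < 3) ∨ ∃ l < A.nU (gx k), w = un (gx k) l 0 := by
  rcases h with h | h <;> cases h
  · exact Or.inl ⟨rfl, ‹_›⟩
  · exact Or.inr ⟨_, ‹_›, rfl⟩

theorem nb_zy {s : Bool} {i : ℕ} {w : Vx} (h : A.adj (host (zy s i)) w) :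
    (w = zb s i ∧ i < 9) ∨ ∃ l < A.nU (zy s i), w = un (zy s i) l 0 := by
  rcases h with h | h <;> cases h
  · exact Or.inl ⟨rfl, ‹_›⟩
  · exact Or.inr ⟨_, ‹_›, rfl⟩

theorem nb_un {a : Hs} {l pos : ℕ} {w : Vx} (h : A.adj (un a l pos) w) :
    l < A.nU a ∧ ((pos = 0 ∧ (w = host a ∨ w = un a l 1)) ∨
      (pos = 1 ∧ (w = un a l 0 ∨ w = un a l 2 ∨ (w = un a l 3 ∧ A.isH a = true))) ∨
      (pos = 2 ∧ w = un a l 1) ∨ (pos = 3 ∧ w = un a l 1 ∧ A.isH a = true)) := by
  rcases h with h | h <;> cases h <;> simp_all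

theorem nb_c {i : ℕ} {w : Vx} (h : A.adj (c i) w) :
    1 ≤ i ∧ i ≤ A.N + 1 ∧ (w = host (ch (i - 1)) ∨ w = host (ch i)) := by
  rcases h with h | h <;> cases h
  · exact ⟨by omega, by omega, Or.inl rfl⟩
  · exact ⟨by omega, by omega, Or.inr rfl⟩

theorem nb_zb {s : Bool} {i : ℕ} {w : Vx} (h : A.adj (zb s i) w) :
    i < 9 ∧ (w = host (ch (A.zc s)) ∨ w = host (zy s i)) := by
  rcases h with h | h <;> cases h
  · exact ⟨‹_›, Or.inl rfl⟩
  · exact ⟨‹_›, Or.inr rfl⟩

theorem nb_g {w : Vx} (h : A.adj g w) :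
    w = host (ch A.N) ∨ w = u ∨ ∃ k < 3, w = host (gx k) := by
  rcases h with h | h <;> cases h
  · exact Or.inl rfl
  · exact Or.inr (Or.inr ⟨_, ‹_›, rfl⟩)
  · exact Or.inr (Or.inl rfl)

theorem nb_u {w : Vx} (h : A.adj u w) : w = g ∨ ∃ j < A.n, w = y j := by
  rcases h with h | h <;> cases h
  · exact Or.inl rfl
  · exact Or.inr ⟨_, ‹_›, rfl⟩

theorem nb_y {j : ℕ} {w : Vx} (h : A.adj (y j) w) :
    j < A.n ∧ (w = u ∨ ∃ l < A.M j, w = leg j l 0) := by
  rcases h with h | h <;> cases h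
  · exact ⟨‹_›, Or.inl rfl⟩
  · exact ⟨‹_›, Or.inr ⟨_, ‹_›, rfl⟩⟩

theorem nb_leg {j l k : ℕ} {w : Vx} (h : A.adj (leg j l k) w) :
    j < A.n ∧ l < A.M j ∧ k < 7 ∧ ((k = 0 ∧ w = y j) ∨ (1 ≤ k ∧ w = leg j l (k - 1)) ∨
      (k < 6 ∧ w = leg j l (k + 1))) := by
  rcases h with h | h <;> cases h
  · exact ⟨‹_›, ‹_›, by omega, Or.inl ⟨rfl, rfl⟩⟩
  · exact ⟨‹_›, ‹_›, by omega, Or.inr (Or.inl ⟨by omega, rfl⟩)⟩
  · exact ⟨‹_›, ‹_›, by omega, Or.inr (Or.inr ⟨‹_›, rfl⟩)⟩

/-! Adjacency facts. -/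

theorem a_ch_c {i : ℕ} (h1 : 1 ≤ i) (h2 : i ≤ A.N + 1) : A.adj (host (ch i)) (c i) := by
  obtain ⟨i, rfl⟩ : ∃ j, i = j + 1 := ⟨i - 1, by omega⟩
  exact Or.inl (Ed.ch_c (by omega))

theorem a_ch_c' {i : ℕ} (h : i ≤ A.N) : A.adj (host (ch i)) (c (i + 1)) := Or.inr (Ed.c_ch h)

theorem a_leg {j l k : ℕ} (h1 : j < A.n) (h2 : l < A.M j) (h3 : k < 6) :
    A.adj (leg j l (k + 1)) (leg j l k) := Or.inl (Ed.legS h1 h2 h3)

theorem a_leg' {j l k : ℕ} (h1 : j < A.n) (h2 : l < A.M j) (h3 : k < 6) :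
    A.adj (leg j l k) (leg j l (k + 1)) := Or.inr (Ed.legS h1 h2 h3)

theorem parity {a b : Vx} (hab : A.adj a b) : (A.dep a + A.dep b) % 2 = 1 := by
  rcases hab with h1 | h1 <;> have := h1.dep <;> omega

theorem depH_even (h : Hs) : A.depH h % 2 = 0 := by
  cases h <;> simp only [depH] <;> omega

end Pm

end Pool.Agent.MP_9694c2_lc

end MrgPart3

-- ======== part 4: formerly Pool.Agent.MP_9694c2_lc.Comp1
section MrgPart4

/-!
Building blocks of the strategy of the hunters.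
-/

set_option autoImplicit false

namespace Pool.Agent.MP_9694c2_lc

open Set Hs Vx

namespace Pm

variable (A : Pm)

/-- The class of vertices of odd depth. -/
def BB : Set Vx := Cls A.adj A.dep 1

/-- The part of a region that matters at the start of a round. -/
def st (U : Set Vx) : Set Vx := U ∩ A.BB

/-- The region `U` can be kept clean with `p` and `q` shots. -/
def Hold (p q : ℕ) (U : Set Vx) : Prop :=
  ∃ Y X : Finset Vx, Y.card ≤ p ∧ X.card ≤ q ∧
    (∀ v ∈ U, A.dep v % 2 = 0 → v ∉ Y → ∀ w, A.adj v w → w ∈ U) ∧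
    ∀ v ∈ U, A.dep v % 2 = 1 → v ∉ X → ∀ w, A.adj v w → w ∈ U

variable {A}

theorem st_mono {U U' : Set Vx} (h : U ⊆ U') : A.st U ⊆ A.st U' := inter_subset_inter_left _ h

theorem st_sub {U U' : Set Vx}
    (h : ∀ v ∈ U, A.dep v % 2 = 1 → ∀ w, A.adj v w → v ∈ U') : A.st U ⊆ A.st U' := by
  rintro v ⟨h1, ⟨w, hw⟩, h2⟩
  exact ⟨h v h1 h2 w hw, ⟨w, hw⟩, h2⟩

theorem st_union (U U' : Set Vx) : A.st (U ∪ U') = A.st U ∪ A.st U' := union_inter_distrib_right ..

theorem tr {U U' U'' : Set Vx} (Y X : Finset Vx)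
    (h1 : ∀ v ∈ U', A.dep v % 2 = 0 → v ∉ Y → ∀ w, A.adj v w → w ∈ U)
    (h2 : ∀ v ∈ U'', A.dep v % 2 = 1 → v ∉ X → ∀ w, A.adj v w → w ∈ U') :
    Rnd A.adj Y.card X.card (A.st U) (A.st U'') := by
  refine ⟨{v | v ∈ U' ∧ A.dep v % 2 = 0}, ⟨Y, le_rfl, fun v hv => ?_⟩, ⟨X, le_rfl, fun v hv => ?_⟩⟩
  · by_cases h : v ∈ Y
    · exact Or.inl h
    · refine Or.inr fun w hw => ⟨h1 v hv.1 hv.2 h w hw, ⟨v, adj_symm hw⟩, ?_⟩
      have := parity hw
      have := hv.2
      omega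
  · by_cases h : v ∈ X
    · exact Or.inl h
    · refine Or.inr fun w hw => ⟨h2 v hv.1 hv.2.2 h w hw, ?_⟩
      have := parity hw
      have := hv.2.2
      omega

theorem Hold.rnd {p q : ℕ} {U : Set Vx} (h : A.Hold p q U) : Rnd A.adj p q (A.st U) (A.st U) := by
  obtain ⟨Y, X, hY, hX, h1, h2⟩ := h
  exact (tr Y X h1 h2).mono hY hX Subset.rfl Subset.rfl

theorem Hold.add {p q : ℕ} {U : Set Vx} (h : A.Hold p q U) {U0 U'' : Set Vx} (K : Set Vx)
    (Y' X' : Finset Vx) (h0 : U ⊆ U0) (h1 : ∀ v ∈ K, v ∉ Y' → ∀ w, A.adj v w → w ∈ U0)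
    (h2 : ∀ v ∈ U'', A.dep v % 2 = 1 → v ∉ U → v ∉ X' → ∀ w, A.adj v w → w ∈ U ∪ K) :
    Rnd A.adj (p + Y'.card) (q + X'.card) (A.st U0) (A.st U'') := by
  obtain ⟨Y, X, hY, hX, h3, h4⟩ := h
  refine (tr (U' := U ∪ K) (Y ∪ Y') (X ∪ X') ?_ ?_).mono
    ((Finset.card_union_le _ _).trans (by omega)) ((Finset.card_union_le _ _).trans (by omega))
    Subset.rfl Subset.rfl
  · rintro v (hv | hv) h5 h6 w hw
    · exact h0 (h3 v hv h5 (fun h => h6 (Finset.mem_union_left _ h)) w hw)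
    · exact h1 v hv (fun h => h6 (Finset.mem_union_right _ h)) w hw
  · intro v hv h5 h6 w hw
    by_cases hU : v ∈ U
    · exact Or.inl (h4 v hU h5 (fun h => h6 (Finset.mem_union_left _ h)) w hw)
    · exact h2 v hv h5 hU (fun h => h6 (Finset.mem_union_right _ h)) w hw

theorem Hold.closed {p q : ℕ} {U : Set Vx} (h : A.Hold p q U) {K : Set Vx}
    (hK : ∀ v ∈ K, ∀ w, A.adj v w → w ∈ U ∪ K) : A.Hold p q (U ∪ K) := by
  obtain ⟨Y, X, hY, hX, h3, h4⟩ := h
  refine ⟨Y, X, hY, hX, ?_, ?_⟩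
  · rintro v (hv | hv) h5 h6 w hw
    · exact Or.inl (h3 v hv h5 h6 w hw)
    · exact hK v hv w hw
  · rintro v (hv | hv) h5 h6 w hw
    · exact Or.inl (h4 v hv h5 h6 w hw)
    · exact hK v hv w hw

theorem hold_of {U : Set Vx} (Y X : Finset Vx) (hY : ∀ v ∈ Y, A.dep v % 2 = 0)
    (hX : ∀ v ∈ X, A.dep v % 2 = 1) (h : ∀ v ∈ U, v ∉ Y → v ∉ X → ∀ w, A.adj v w → w ∈ U) :
    A.Hold Y.card X.card U :=
  ⟨Y, X, le_rfl, le_rfl, fun v hv h1 h2 => h v hv h2 (fun h3 => by have := hX v h3; omega),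
    fun v hv h1 h2 => h v hv (fun h3 => by have := hY v h3; omega) h2⟩

theorem Hold.insertA {p q : ℕ} {U : Set Vx} (h : A.Hold p q U) {a : Vx} (ha : A.dep a % 2 = 0) :
    A.Hold (p + 1) q (insert a U) := by
  obtain ⟨Y, X, hY, hX, h3, h4⟩ := h
  refine ⟨insert a Y, X, (Finset.card_insert_le _ _).trans (by omega), hX, ?_, ?_⟩
  · rintro v (rfl | hv) h5 h6 w hw
    · exact (h6 (Finset.mem_insert_self _ _)).elim
    · exact Or.inr (h3 v hv h5 (fun h => h6 (Finset.mem_insert_of_mem h)) w hw)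
  · rintro v (rfl | hv) h5 h6 w hw
    · omega
    · exact Or.inr (h4 v hv h5 h6 w hw)

/-- The first `l0` units of a host. -/
def Un (a : Hs) (l0 : ℕ) : Set Vx := {v | ∃ l < l0, ∃ pos, v = un a l pos}

/-- The first `l0` legs of a job. -/
def Lg (j l0 : ℕ) : Set Vx := {v | ∃ l < l0, ∃ k, v = leg j l k}

theorem dep_un (a : Hs) (l pos : ℕ) : A.dep (un a l pos) % 2 = if pos = 1 then 0 else 1 := by
  have := depH_even (A := A) a
  simp only [dep]
  split_ifs <;> omega

theorem dep_host (a : Hs) : A.dep (host a) % 2 = 0 := depH_even a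

theorem Hold.un {p q : ℕ} {U : Set Vx} (h : A.Hold p q U) {a : Hs} (ha : host a ∈ U) (l0 : ℕ) :
    A.Hold p q (U ∪ Un a l0) := by
  refine h.closed ?_
  rintro v ⟨l, hl, pos, rfl⟩ w hw
  rcases (nb_un hw).2 with ⟨-, rfl | rfl⟩ | ⟨-, rfl | rfl | ⟨rfl, -⟩⟩ | ⟨-, rfl⟩ | ⟨-, rfl, -⟩ <;>
    first | exact Or.inl ha | exact Or.inr ⟨l, hl, _, rfl⟩

theorem Hold.killOdd {p q : ℕ} {U : Set Vx} (h : A.Hold p q U) {a : Hs} (ha : host a ∈ U)
    (l0 : ℕ) : Reach A.adj (p + 1) q (A.st U) (A.st (U ∪ Un a l0)) := by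
  induction l0 with
  | zero => exact Reach.of_subset (st_mono (by rintro v (hv | ⟨l, hl, -⟩); exacts [hv, by omega]))
  | succ l0 ih =>
    refine ih.tail ((h.un ha l0).add {Vx.un a l0 1} {Vx.un a l0 1} ∅ Subset.rfl ?_ ?_)
    · rintro v rfl hv
      simp at hv
    · rintro v (hv | ⟨l, hl, pos, rfl⟩) h1 h2 - w hw
      · exact (h2 (Or.inl hv)).elim
      · have hl' : l = l0 := by
          by_contra hc
          exact h2 (Or.inr ⟨l, by omega, pos, rfl⟩)
        subst hl'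
        rw [dep_un] at h1
        rcases (nb_un hw).2 with ⟨-, rfl | rfl⟩ | ⟨rfl, -⟩ | ⟨-, rfl⟩ | ⟨-, rfl, -⟩
        · exact Or.inl (Or.inl ha)
        · exact Or.inr rfl
        · simp at h1
        · exact Or.inr rfl
        · exact Or.inr rfl

theorem Hold.killEven {p q : ℕ} {U : Set Vx} (h : A.Hold p q U) {a : Hs} (ha : host a ∈ U)
    (hs : A.isH a = false) (l0 : ℕ) : Reach A.adj p (q + 2) (A.st U) (A.st (U ∪ Un a l0)) := by
  induction l0 with
  | zero => exact Reach.of_subset (st_mono (by rintro v (hv | ⟨l, hl, -⟩); exacts [hv, by omega]))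
  | succ l0 ih =>
    refine ih.tail (((h.un ha l0).add ∅ ∅ {Vx.un a l0 0, Vx.un a l0 2} Subset.rfl ?_ ?_).mono
      le_rfl (Nat.add_le_add_left Finset.card_le_two _) Subset.rfl Subset.rfl)
    · exact fun v hv => hv.elim
    · rintro v (hv | ⟨l, hl, pos, rfl⟩) h1 h2 h3 w hw
      · exact (h2 (Or.inl hv)).elim
      · have hl' : l = l0 := by
          by_contra hc
          exact h2 (Or.inr ⟨l, by omega, pos, rfl⟩)
        subst hl'
        rw [dep_un] at h1
        rcases (nb_un hw).2 with ⟨rfl, -⟩ | ⟨rfl, -⟩ | ⟨rfl, -⟩ | ⟨-, -, h4⟩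
        · simp at h3
        · simp at h1
        · simp at h3
        · simp [hs] at h4

theorem st_un_all (U : Set Vx) (a : Hs) {U' : Set Vx}
    (h : ∀ v ∈ U', v ∈ U ∨ A.dep v % 2 = 0 ∨ ∃ l pos, v = un a l pos) :
    A.st U' ⊆ A.st (U ∪ Un a (A.nU a)) := by
  refine st_sub fun v hv h1 w hw => ?_
  rcases h v hv with h2 | h2 | ⟨l, pos, rfl⟩
  · exact Or.inl h2
  · omega
  · exact Or.inr ⟨l, (nb_un hw).1, pos, rfl⟩

theorem Hold.lg {p q : ℕ} {U : Set Vx} (h : A.Hold p q U) {j : ℕ} (ha : y j ∈ U) (l0 : ℕ) :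
    A.Hold p q (U ∪ Lg j l0) := by
  refine h.closed ?_
  rintro v ⟨l, hl, pos, rfl⟩ w hw
  rcases (nb_leg hw).2.2.2 with ⟨-, rfl⟩ | ⟨-, rfl⟩ | ⟨-, rfl⟩ <;>
    first | exact Or.inl ha | exact Or.inr ⟨l, hl, _, rfl⟩

theorem dep_leg (j l k : ℕ) : A.dep (leg j l k) % 2 = k % 2 := by
  simp only [dep]
  omega

theorem Hold.legKill {p q : ℕ} {U : Set Vx} (h : A.Hold p q U) {j : ℕ} (ha : y j ∈ U) (l0 : ℕ) :
    ∃ S1 S2, Rnd A.adj p (q + 1) (A.st (U ∪ Lg j l0)) S1 ∧ Rnd A.adj (p + 1) (q + 1) S1 S2 ∧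
      Rnd A.adj (p + 1) (q + 1) S2 (A.st (U ∪ Lg j (l0 + 1))) := by
  have h' := h.lg ha l0
  refine ⟨A.st (insert (leg j l0 1) (U ∪ Lg j l0)),
    A.st (insert (leg j l0 3) (insert (leg j l0 1) (U ∪ Lg j l0))),
    h'.add ∅ ∅ {leg j l0 1} Subset.rfl (fun v hv => hv.elim) ?_,
    h'.add {leg j l0 0, leg j l0 2} {leg j l0 2} {leg j l0 3} (subset_insert _ _) ?_ ?_,
    h'.add {leg j l0 0, leg j l0 2, leg j l0 4} {leg j l0 4} {leg j l0 5}
      ((subset_insert _ _).trans (subset_insert _ _)) ?_ ?_⟩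
  · rintro v (rfl | hv) - h2 h3
    · simp at h3
    · exact (h2 hv).elim
  · rintro v (rfl | rfl) h1 w hw
    · rcases (nb_leg hw).2.2.2 with ⟨-, rfl⟩ | ⟨h2, -⟩ | ⟨-, rfl⟩
      · exact Or.inr (Or.inl ha)
      · omega
      · exact Or.inl rfl
    · simp at h1
  · rintro v (rfl | rfl | hv) - h2 h3 w hw
    · simp at h3
    · rcases (nb_leg hw).2.2.2 with ⟨h2, -⟩ | ⟨-, rfl⟩ | ⟨-, rfl⟩
      · omega
      · exact Or.inr (Or.inl rfl)
      · exact Or.inr (Or.inr rfl)
    · exact (h2 hv).elim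
  · rintro v (rfl | rfl | rfl) h1 w hw
    · rcases (nb_leg hw).2.2.2 with ⟨-, rfl⟩ | ⟨h2, -⟩ | ⟨-, rfl⟩
      · exact Or.inr (Or.inr (Or.inl ha))
      · omega
      · exact Or.inr (Or.inl rfl)
    · rcases (nb_leg hw).2.2.2 with ⟨h2, -⟩ | ⟨-, rfl⟩ | ⟨-, rfl⟩
      · omega
      · exact Or.inr (Or.inl rfl)
      · exact Or.inl rfl
    · simp at h1
  · rintro v (hv | ⟨l, hl, k, rfl⟩) h1 h2 h3 w hw
    · exact (h2 (Or.inl hv)).elim
    · have hl' : l = l0 := by
        by_contra hc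
        exact h2 (Or.inr ⟨l, by omega, k, rfl⟩)
      subst hl'
      rw [dep_leg] at h1
      have h4 : k ≠ 5 := by
        rintro rfl
        simp at h3
      obtain ⟨-, -, h5, h6⟩ := nb_leg hw
      have : k = 1 ∨ k = 3 := by omega
      rcases this with rfl | rfl <;> rcases h6 with ⟨h2, -⟩ | ⟨-, rfl⟩ | ⟨-, rfl⟩ <;>
        first | omega | simp

/-- The part of the tree below the `i`-th connector. -/
def LowM (i : ℕ) : Set Vx := fun v =>
  match v with
  | host (ch i') => i' < i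
  | un (ch i') _ _ => i' < i
  | c i' => i' < i
  | zb s _ => s = false
  | host (zy s _) => s = false
  | un (zy s _) _ _ => s = false
  | _ => False

/-- The same with the connector. -/
def Low (i : ℕ) : Set Vx := insert (c i) (LowM i)

theorem lowM_mono {i j : ℕ} (h : i ≤ j) : LowM i ⊆ LowM j := by
  rintro ((_ | _ | _) | ⟨_ | _ | _, _, _⟩ | _ | _ | _ | _ | _ | _) hv <;>
    first | exact hv | exact lt_of_lt_of_le hv h

theorem low_sub (i : ℕ) : Low i ⊆ LowM (i + 1) := by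
  rintro v (rfl | hv)
  · exact Nat.lt_succ_self i
  · exact lowM_mono (Nat.le_succ i) hv

theorem low_mono {i j : ℕ} (h : i ≤ j) : Low i ⊆ Low j := by
  rcases h.eq_or_lt with rfl | h
  · exact Subset.rfl
  · exact ((low_sub i).trans (lowM_mono h)).trans (subset_insert _ _)

theorem lowM_cl {i : ℕ} (hi1 : 1 ≤ i) (hi : i ≤ A.N + 1) {v w : Vx} (hv : v ∈ LowM i)
    (hw : A.adj v w) :
    w ∈ LowM i ∨ (v = host (ch (i - 1)) ∧ (w = c i ∨ (w = g ∧ i = A.N + 1))) := by
  rcases v with ((i' | _ | ⟨s, i'⟩) | ⟨i' | _ | ⟨s, i'⟩, l, pos⟩ | i' | ⟨s, i'⟩ | _ | _ | _ | _) <;>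
    first | exact hv.elim | skip
  · have hv : i' < i := hv
    rcases nb_ch hw with ⟨rfl, -⟩ | ⟨rfl, -⟩ | ⟨rfl, h⟩ | ⟨s, j, rfl, h, -⟩ | ⟨l, -, rfl⟩
    · exact Or.inl hv
    · by_cases h : i' + 1 < i
      · exact Or.inl h
      · obtain rfl : i = i' + 1 := by omega
        exact Or.inr ⟨rfl, Or.inl rfl⟩
    · obtain rfl : i = i' + 1 := by omega
      exact Or.inr ⟨rfl, Or.inr ⟨rfl, by omega⟩⟩
    · cases s
      · exact Or.inl rfl
      · simp only [zc, if_true] at h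
        omega
    · exact Or.inl hv
  · rcases nb_zy hw with ⟨rfl, -⟩ | ⟨l, -, rfl⟩ <;> exact Or.inl hv
  · rcases (nb_un hw).2 with ⟨-, rfl | rfl⟩ | ⟨-, rfl | rfl | ⟨rfl, -⟩⟩ | ⟨-, rfl⟩ | ⟨-, rfl, -⟩ <;>
      exact Or.inl hv
  · rcases (nb_un hw).2 with ⟨-, rfl | rfl⟩ | ⟨-, rfl | rfl | ⟨rfl, -⟩⟩ | ⟨-, rfl⟩ | ⟨-, rfl, -⟩ <;>
      exact Or.inl hv
  · have hv : i' < i := hv
    rcases (nb_c hw).2.2 with rfl | rfl
    · exact Or.inl (show i' - 1 < i by omega)
    · exact Or.inl hv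
  · have hv : s = false := hv
    subst hv
    rcases (nb_zb hw).2 with rfl | rfl
    · exact Or.inl (show A.zc false < i by simp [zc]; omega)
    · exact Or.inl rfl

theorem lowM_low {i : ℕ} (hi1 : 1 ≤ i) (hi : i ≤ A.N) {v w : Vx} (hv : v ∈ LowM i)
    (hw : A.adj v w) : w ∈ Low i := by
  rcases lowM_cl hi1 (by omega) hv hw with h | ⟨-, rfl | ⟨-, h⟩⟩
  · exact Or.inr h
  · exact Or.inl rfl
  · omega

theorem dep_c {i : ℕ} (hi : 1 ≤ i) : A.dep (c i) % 2 = 1 := by
  simp only [dep]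
  omega

theorem holdM {i : ℕ} (hi1 : 1 ≤ i) (hi : i ≤ A.N + 1) : A.Hold 1 0 (LowM i) :=
  hold_of {host (ch (i - 1))} ∅ (by simp [dep_host]) (by simp) fun v hv h1 _ w hw => by
    rcases lowM_cl hi1 hi hv hw with h | ⟨rfl, -⟩
    · exact h
    · simp at h1

theorem holdL {i : ℕ} (hi1 : 1 ≤ i) (hi : i ≤ A.N) : A.Hold 0 1 (Low i) :=
  hold_of ∅ {c i} (by simp) (by simp [dep_c hi1]) fun v hv _ h1 w hw => by
    rcases hv with rfl | hv
    · simp at h1
    · exact lowM_low hi1 hi hv hw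

theorem holdL' {i : ℕ} (hi1 : 1 ≤ i) (hi : i ≤ A.N) :
    A.Hold 1 0 (insert (host (ch i)) (Low i)) :=
  hold_of {host (ch i)} ∅ (by simp [dep_host]) (by simp) fun v hv h1 _ w hw => by
    rcases hv with rfl | rfl | hv
    · simp at h1
    · rcases (nb_c hw).2.2 with rfl | rfl
      · exact Or.inr (Or.inr (show i - 1 < i by omega))
      · exact Or.inl rfl
    · exact Or.inr (lowM_low hi1 hi hv hw)

theorem st_insertA {a : Vx} (ha : A.dep a % 2 = 0) (U : Set Vx) :
    A.st (insert a U) = A.st U := by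
  refine Subset.antisymm (st_sub ?_) (st_mono (subset_insert _ _))
  rintro v (rfl | hv) h1 w hw
  · omega
  · exact hv

theorem rndL {i : ℕ} (hi1 : 1 ≤ i) (hi : i ≤ A.N) :
    Rnd A.adj 1 0 (A.st (Low i)) (A.st (Low i)) := by
  have := (holdL' hi1 hi).rnd
  rwa [st_insertA (dep_host _)] at this

theorem burn {i : ℕ} (hi1 : 1 ≤ i) (hi : i ≤ A.N) :
    Rnd A.adj 0 0 (A.st (Low i)) (A.st (LowM i)) :=
  tr (U' := LowM i) ∅ ∅ (fun v hv _ _ w hw => lowM_low hi1 hi hv hw) fun v hv h1 _ w hw => by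
    rcases lowM_cl hi1 (by omega) hv hw with h | ⟨rfl, -⟩
    · exact h
    · have := dep_host (A := A) (ch (i - 1))
      omega

theorem fix11 {i : ℕ} (hi1 : 1 ≤ i) (hi : i ≤ A.N + 1) :
    Rnd A.adj 1 1 (A.st (LowM i)) (A.st (Low i)) :=
  (holdM hi1 hi).add ∅ ∅ {c i} Subset.rfl (fun v hv => hv.elim) (by
    rintro v (rfl | hv) - h2 h3
    · simp at h3
    · exact (h2 hv).elim)

theorem fix20 {i : ℕ} (hi1 : 1 ≤ i) (hi : i ≤ A.N + 1) :
    Rnd A.adj 2 0 (A.st (LowM i)) (A.st (Low i)) :=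
  (holdM hi1 hi).add {host (ch i)} {host (ch i)} ∅ Subset.rfl (by rintro v rfl h; simp at h) (by
    rintro v (rfl | hv) - h2 - w hw
    · rcases (nb_c hw).2.2 with rfl | rfl
      · exact Or.inl (show i - 1 < i by omega)
      · exact Or.inr rfl
    · exact (h2 hv).elim)

theorem lowM_succ (i : ℕ) : A.st (LowM (i + 1)) ⊆
    A.st (insert (host (ch i)) (Low i) ∪ Un (ch i) (A.nU (ch i))) := by
  refine st_un_all _ _ ?_
  rintro ((i' | _ | ⟨s, i'⟩) | ⟨i' | _ | ⟨s, i'⟩, l, pos⟩ | i' | ⟨s, i'⟩ | _ | _ | _ | _) hv <;>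
    first | exact hv.elim | exact Or.inr (Or.inl (dep_host _)) | exact Or.inl (Or.inr (Or.inr hv)) |
      skip
  · rcases Nat.lt_succ_iff_lt_or_eq.1 hv with h | rfl
    · exact Or.inl (Or.inr (Or.inr h))
    · exact Or.inr (Or.inr ⟨_, _, rfl⟩)
  · rcases Nat.lt_succ_iff_lt_or_eq.1 hv with h | rfl
    · exact Or.inl (Or.inr (Or.inr h))
    · exact Or.inl (Or.inr (Or.inl rfl))

theorem up {i j : ℕ} (hi1 : 1 ≤ i) (hj : j ≤ A.N) :
    Reach A.adj 2 0 (A.st (Low i)) (A.st (Low j)) := by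
  induction j with
  | zero => exact Reach.of_subset (st_mono (low_mono (by omega)))
  | succ j ih =>
    by_cases h : j + 1 ≤ i
    · exact Reach.of_subset (st_mono (low_mono h))
    · have h1 := (holdL' (A := A) (i := j) (by omega) (by omega)).killOdd (a := ch j)
        (mem_insert _ _) (A.nU (ch j))
      rw [st_insertA (dep_host _)] at h1
      exact ((ih (by omega)).trans (h1.sub (lowM_succ j))).tail (fix20 (by omega) (by omega))

theorem upSoft {i j : ℕ} (hi1 : 1 ≤ i) (hj : j ≤ A.N) (hs : ∀ p, i ≤ p → p < j → A.hard p = false) :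
    Reach A.adj 1 2 (A.st (Low i)) (A.st (Low j)) := by
  induction j with
  | zero => exact Reach.of_subset (st_mono (low_mono (by omega)))
  | succ j ih =>
    by_cases h : j + 1 ≤ i
    · exact Reach.of_subset (st_mono (low_mono h))
    · have h1 := (holdL' (A := A) (i := j) (by omega) (by omega)).killEven (a := ch j)
        (mem_insert _ _) (hs j (by omega) (by omega)) (A.nU (ch j))
      rw [st_insertA (dep_host _)] at h1
      exact ((ih (by omega) (fun p h1 h2 => hs p h1 (by omega))).trans (h1.sub (lowM_succ j))).tail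
        ((fix11 (by omega) (by omega)).mono le_rfl (by omega) Subset.rfl Subset.rfl)

end Pm

end Pool.Agent.MP_9694c2_lc

end MrgPart4

-- ======== part 5: formerly Pool.Agent.MP_9694c2_lc.Comp2
section MrgPart5

/-!
The strategy of the hunters from a packing.
-/

set_option autoImplicit false

namespace Pool.Agent.MP_9694c2_lc

open Set Hs Vx

namespace Pm

variable {A : Pm}

/-- The centre with the finished jobs. -/
def JU (F : Set ℕ) : Set Vx := fun v =>
  match v with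
  | u => True
  | y j => j ∈ F
  | leg j _ _ => j ∈ F
  | _ => False

theorem dep_u : A.dep u % 2 = 0 := by
  simp only [dep]
  omega

theorem dep_y (j : ℕ) : A.dep (y j) % 2 = 1 := by
  simp only [dep]
  omega

theorem dep_g : A.dep g % 2 = 1 := by
  simp only [dep]
  omega

theorem ju_cl {F : Set ℕ} {v w : Vx} (hv : v ∈ JU F) (hw : A.adj v w) : w ∈ JU F ∨ v = u := by
  rcases v with (_ | _ | _ | _ | _ | _ | j | ⟨j, l, k⟩) <;> first | exact hv.elim | skip
  · exact Or.inr rfl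
  · rcases (nb_y hw).2 with rfl | ⟨l, -, rfl⟩
    · exact Or.inl trivial
    · exact Or.inl hv
  · rcases (nb_leg hw).2.2.2 with ⟨-, rfl⟩ | ⟨-, rfl⟩ | ⟨-, rfl⟩ <;> exact Or.inl hv

theorem holdJU (F : Set ℕ) : A.Hold 1 0 (JU F) :=
  hold_of {u} ∅ (by simp [dep_u]) (by simp) fun v hv h1 _ w hw => by
    rcases ju_cl hv hw with h | rfl
    · exact h
    · simp at h1

theorem holdJP (F : Set ℕ) (j : ℕ) : A.Hold 1 1 (insert (y j) (JU F)) :=
  hold_of {u} {y j} (by simp [dep_u]) (by simp [dep_y]) fun v hv h1 h2 w hw => by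
    rcases hv with rfl | hv
    · simp at h2
    · rcases ju_cl hv hw with h | rfl
      · exact Or.inr h
      · simp at h1

theorem job_start (F : Set ℕ) (j : ℕ) :
    Rnd A.adj 1 1 (A.st (JU F)) (A.st (insert (y j) (JU F) ∪ Lg j 0)) :=
  (holdJU F).add ∅ ∅ {y j} Subset.rfl (fun v hv => hv.elim) (by
    rintro v ((rfl | hv) | ⟨l, hl, -⟩) - h2 h3
    · simp at h3
    · exact (h2 hv).elim
    · omega)

theorem job_end (F : Set ℕ) (j : ℕ) :
    A.st (JU (insert j F)) ⊆ A.st (insert (y j) (JU F) ∪ Lg j (A.M j)) := by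
  refine st_sub fun v hv h1 w hw => ?_
  rcases v with (_ | _ | _ | _ | _ | _ | j' | ⟨j', l, k⟩) <;> first | exact hv.elim | skip
  · exact Or.inl (Or.inr trivial)
  · rcases hv with rfl | hv
    · exact Or.inl (Or.inl rfl)
    · exact Or.inl (Or.inr hv)
  · rcases hv with rfl | hv
    · exact Or.inr ⟨l, (nb_leg hw).2.1, k, rfl⟩
    · exact Or.inl (Or.inr hv)

theorem leg_rigid (F : Set ℕ) (j l : ℕ) {i : ℕ} (hi1 : 1 ≤ i) (hi : i + 1 ≤ A.N) :
    Reach A.adj 2 2 (A.st (insert (y j) (JU F) ∪ Lg j l) ∪ A.st (Low (i + 1)))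
      (A.st (insert (y j) (JU F) ∪ Lg j (l + 1)) ∪ A.st (Low i)) := by
  obtain ⟨S1, S2, h1, h2, h3⟩ := (holdJP (A := A) F j).legKill (mem_insert _ _) l
  have h4 := ((holdJP (A := A) F j).lg (mem_insert _ _) (l + 1)).rnd
  exact ((((h1.par (rndL (by omega) hi)).reach).tail (h2.par (burn (by omega) hi))).tail
    (h3.par ((burn hi1 (by omega)).mono le_rfl le_rfl (st_mono (low_sub i)) Subset.rfl))).tail
    (h4.par (fix11 hi1 (by omega)))

theorem job_rigid (F : Set ℕ) (j : ℕ) {i : ℕ} (hi1 : A.M j + 1 ≤ i) (hi : i ≤ A.N) :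
    Reach A.adj 2 2 (A.st (JU F) ∪ A.st (Low i))
      (A.st (JU (insert j F)) ∪ A.st (Low (i - A.M j))) := by
  have key : ∀ l ≤ A.M j, Reach A.adj 2 2 (A.st (JU F) ∪ A.st (Low i))
      (A.st (insert (y j) (JU F) ∪ Lg j l) ∪ A.st (Low (i - l))) := by
    intro l hl
    induction l with
    | zero =>
      exact (((job_start F j).par (rndL (by omega) hi)).mono le_rfl (by omega) Subset.rfl
        Subset.rfl).reach
    | succ l ih =>
      refine (ih (by omega)).trans ?_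
      have := leg_rigid (A := A) F j l (i := i - (l + 1)) (by omega) (by omega)
      rwa [show i - (l + 1) + 1 = i - l by omega] at this
  exact (key _ le_rfl).sub (union_subset_union_left _ (job_end F j))

theorem jobs_rigid (G : Finset ℕ) (F : Set ℕ) {i : ℕ} (hi1 : ∑ j ∈ G, A.M j + 1 ≤ i)
    (hi : i ≤ A.N) : Reach A.adj 2 2 (A.st (JU F) ∪ A.st (Low i))
      (A.st (JU (F ∪ G)) ∪ A.st (Low (i - ∑ j ∈ G, A.M j))) := by
  induction G using Finset.induction_on with
  | empty => simpa using Reach.refl _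
  | insert j G hj ih =>
    rw [Finset.sum_insert hj] at hi1 ⊢
    have := (ih (by omega)).trans (job_rigid (F ∪ G) j (i := i - ∑ j ∈ G, A.M j) (by omega)
      (by omega))
    rwa [show i - ∑ j ∈ G, A.M j - A.M j = i - (A.M j + ∑ j ∈ G, A.M j) by omega,
      ← union_insert, ← Finset.coe_insert] at this

theorem job_free (F : Set ℕ) (j : ℕ) (hN : 2 ≤ A.N)
    (hr : ∀ l i, 1 ≤ i → i ≤ A.N →
      Reach A.adj 2 2 (A.st (insert (y j) (JU F) ∪ Lg j l) ∪ A.st (Low i))
        (A.st (insert (y j) (JU F) ∪ Lg j l) ∪ A.st (Low A.N)))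
    {i : ℕ} (hi1 : 1 ≤ i) (hi : i ≤ A.N) :
    Reach A.adj 2 2 (A.st (JU F) ∪ A.st (Low i)) (A.st (JU (insert j F)) ∪ A.st (Low A.N)) := by
  have key : ∀ l, Reach A.adj 2 2 (A.st (JU F) ∪ A.st (Low i))
      (A.st (insert (y j) (JU F) ∪ Lg j l) ∪ A.st (Low A.N)) := by
    intro l
    induction l with
    | zero =>
      exact (((job_start F j).par (rndL hi1 hi)).mono le_rfl (by omega) Subset.rfl
        Subset.rfl).reach.trans (hr 0 i hi1 hi)
    | succ l ih =>
      have := leg_rigid (A := A) F j l (i := A.N - 1) (by omega) (by omega)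
      rw [show A.N - 1 + 1 = A.N by omega] at this
      exact (ih.trans this).trans (hr _ _ (by omega) (by omega))
  exact (key _).sub (union_subset_union_left _ (job_end F j))

theorem job_first (j : ℕ) {i : ℕ} (hi1 : 1 ≤ i) (hi : i ≤ A.N) :
    Reach A.adj 2 2 (A.st (Low i)) (A.st (JU {j}) ∪ A.st (Low i)) := by
  have h0 : A.Hold 0 1 {y j} :=
    hold_of ∅ {y j} (by simp) (by simp [dep_y]) fun v hv _ h2 => (h2 (by simpa using hv)).elim
  have key : ∀ l, Reach A.adj 1 2 ∅ (A.st ({y j} ∪ Lg j l)) := by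
    intro l
    induction l with
    | zero =>
      refine Rnd.reach ⟨∅, St.empty _ _, (St.shoot _ (y j)).mono (by omega) Subset.rfl ?_⟩
      rintro v ⟨hv | ⟨l, hl, -⟩, -⟩
      · exact hv
      · omega
    | succ l ih =>
      obtain ⟨S1, S2, h1, h2, h3⟩ := h0.legKill rfl l
      exact ((ih.tail (h1.mono (by omega) le_rfl Subset.rfl Subset.rfl)).tail h2).tail h3
  refine ((key (A.M j)).par (rndL hi1 hi)).mono le_rfl le_rfl (by simp)
    (union_subset_union_left _ (st_sub fun v hv h1 w hw => ?_))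
  rcases v with (_ | _ | _ | _ | _ | _ | j' | ⟨j', l, k⟩) <;> first | exact hv.elim | skip
  · have := dep_u (A := A)
    omega
  · obtain rfl : j' = j := hv
    exact Or.inl rfl
  · obtain rfl : j' = j := hv
    exact Or.inr ⟨l, (nb_leg hw).2.1, k, rfl⟩

theorem refill_second (j1 j l i : ℕ) (hi1 : 1 ≤ i) :
    Reach A.adj 2 2 (A.st (insert (y j) (JU {j1}) ∪ Lg j l) ∪ A.st (Low i))
      (A.st (insert (y j) (JU {j1}) ∪ Lg j l) ∪ A.st (Low A.N)) := by
  have h : Rnd A.adj 0 2 (A.st (insert (y j) (JU {j1}) ∪ Lg j l))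
      (A.st (insert (y j) (JU {j1}) ∪ Lg j l)) := by
    refine (tr (U' := {v | ∃ j l k, v = leg j l k} ∩ (insert (y j) (JU {j1}) ∪ Lg j l)) ∅
      {y j, y j1} ?_ ?_).mono le_rfl Finset.card_le_two Subset.rfl Subset.rfl
    · rintro v ⟨⟨j', l', k, rfl⟩, (h | h) | ⟨l'', h, k', h'⟩⟩ - - w hw
      · cases h
      · rcases ju_cl h hw with h1 | h1
        · exact Or.inl (Or.inr h1)
        · cases h1
      · cases h'
        rcases (nb_leg hw).2.2.2 with ⟨-, rfl⟩ | ⟨-, rfl⟩ | ⟨-, rfl⟩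
        · exact Or.inl (Or.inl rfl)
        · exact Or.inr ⟨_, h, _, rfl⟩
        · exact Or.inr ⟨_, h, _, rfl⟩
    · rintro v ((rfl | hv) | ⟨l', h, k, rfl⟩) h1 h2 w hw
      · simp at h2
      · rcases v with (_ | _ | _ | _ | _ | _ | j' | ⟨j', l', k⟩) <;> first | exact hv.elim | skip
        · have := dep_u (A := A)
          omega
        · obtain rfl : j' = j1 := hv
          simp at h2
        · rw [dep_leg] at h1
          rcases (nb_leg hw).2.2.2 with ⟨rfl, -⟩ | ⟨-, rfl⟩ | ⟨-, rfl⟩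
          · omega
          · exact ⟨⟨_, _, _, rfl⟩, Or.inl (Or.inr hv)⟩
          · exact ⟨⟨_, _, _, rfl⟩, Or.inl (Or.inr hv)⟩
      · rw [dep_leg] at h1
        rcases (nb_leg hw).2.2.2 with ⟨rfl, -⟩ | ⟨-, rfl⟩ | ⟨-, rfl⟩
        · omega
        · exact ⟨⟨_, _, _, rfl⟩, Or.inr ⟨_, h, _, rfl⟩⟩
        · exact ⟨⟨_, _, _, rfl⟩, Or.inr ⟨_, h, _, rfl⟩⟩
  exact Reach.par' h (up hi1 le_rfl)

theorem refill_last (F : Set ℕ) (j l i : ℕ) (hF : ∀ j' < A.n, j' = j ∨ j' ∈ F) (hi1 : 1 ≤ i)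
    (hi : i ≤ A.N) :
    Reach A.adj 2 2 (A.st (insert (y j) (JU F) ∪ Lg j l) ∪ A.st (Low i))
      (A.st (insert (y j) (JU F) ∪ Lg j l) ∪ A.st (Low A.N)) := by
  have h0 : A.Hold 0 2 (insert g (insert (y j) (JU F))) := by
    obtain ⟨Y, X, h1, h2, h3⟩ := hold_of (A := A) (U := insert g (insert (y j) (JU F))) ∅ {y j, g}
      (by simp) (by simp [dep_y, dep_g]) (by
        rintro v (rfl | rfl | hv) - h2 w hw
        · simp at h2
        · simp at h2
        · rcases ju_cl hv hw with h | rfl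
          · exact Or.inr (Or.inr h)
          · rcases nb_u hw with rfl | ⟨j', hj', rfl⟩
            · exact Or.inl rfl
            · rcases hF j' hj' with rfl | h
              · exact Or.inr (Or.inl rfl)
              · exact Or.inr (Or.inr h))
    exact ⟨Y, X, h1, h2.trans Finset.card_le_two, h3⟩
  have h1 := (h0.lg (j := j) (Or.inr (Or.inl rfl)) l).rnd
  have h2 : Rnd A.adj 1 2 (A.st (insert (y j) (JU F) ∪ Lg j l))
      (A.st (insert g (insert (y j) (JU F)) ∪ Lg j l)) :=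
    ((holdJP F j).lg (mem_insert _ _) l).add ∅ ∅ {g} Subset.rfl (fun v hv => hv.elim) (by
      rintro v ((rfl | hv) | hv) - h2 h3
      · simp at h3
      · exact (h2 (Or.inl hv)).elim
      · exact (h2 (Or.inr hv)).elim)
  have h3 := Reach.par' h1 (up (A := A) hi1 le_rfl)
  exact ((h2.par (rndL hi1 hi)).reach.trans h3).sub
    (union_subset_union_left _ (st_mono (union_subset_union_left _ (subset_insert _ _))))

/-- The first branches at an end of the chain. -/
def Zr (s : Bool) (i0 : ℕ) : Set Vx :=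
  {v | ∃ i < i0, v = zb s i ∨ v = host (zy s i) ∨ v ∈ Un (zy s i) (A.nU (zy s i))}

theorem zclean {U : Set Vx} (h : A.Hold 1 0 U) (s : Bool) (hU : host (ch (A.zc s)) ∈ U) (i0 : ℕ) :
    Reach A.adj 2 2 (A.st U) (A.st (U ∪ Zr (A := A) s i0)) := by
  have hold : ∀ i0, A.Hold 1 0 (U ∪ Zr (A := A) s i0) := by
    intro i0
    refine h.closed ?_
    rintro v ⟨i, hi, rfl | rfl | ⟨l, hl, pos, rfl⟩⟩ w hw
    · rcases (nb_zb hw).2 with rfl | rfl
      · exact Or.inl hU
      · exact Or.inr ⟨i, hi, Or.inr (Or.inl rfl)⟩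
    · rcases nb_zy hw with ⟨rfl, -⟩ | ⟨l, hl, rfl⟩
      · exact Or.inr ⟨i, hi, Or.inl rfl⟩
      · exact Or.inr ⟨i, hi, Or.inr (Or.inr ⟨l, hl, _, rfl⟩)⟩
    · rcases (nb_un hw).2 with ⟨-, rfl | rfl⟩ | ⟨-, rfl | rfl | ⟨rfl, -⟩⟩ | ⟨-, rfl⟩ |
        ⟨-, rfl, -⟩ <;>
      first
        | exact Or.inr ⟨i, hi, Or.inr (Or.inl rfl)⟩
        | exact Or.inr ⟨i, hi, Or.inr (Or.inr ⟨l, hl, _, rfl⟩)⟩
  induction i0 with
  | zero => exact Reach.of_subset (st_mono (by rintro v (hv | ⟨l, hl, -⟩); exacts [hv, by omega]))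
  | succ i ih =>
    have h1 : A.Hold 2 0 (insert (host (zy s i)) (U ∪ Zr (A := A) s i) ∪ {zb s i}) := by
      refine ((hold i).insertA (dep_host _)).closed ?_
      rintro v rfl w hw
      rcases (nb_zb hw).2 with rfl | rfl
      · exact Or.inl (Or.inr (Or.inl hU))
      · exact Or.inl (Or.inl rfl)
    have h2 : Rnd A.adj 2 0 (A.st (U ∪ Zr (A := A) s i))
        (A.st (insert (host (zy s i)) (U ∪ Zr (A := A) s i) ∪ {zb s i})) :=
      (hold i).add {host (zy s i)} {host (zy s i)} ∅ Subset.rfl (by rintro v rfl h; simp at h) (by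
        rintro v ((rfl | hv) | rfl) h1 h2 - w hw
        · have := dep_host (A := A) (zy s i)
          omega
        · exact (h2 hv).elim
        · rcases (nb_zb hw).2 with rfl | rfl
          · exact Or.inl (Or.inl hU)
          · exact Or.inr rfl)
    refine ((ih.tail (h2.mono le_rfl (by omega) Subset.rfl Subset.rfl)).trans
      (h1.killEven (a := zy s i) (Or.inl (Or.inl rfl)) rfl (A.nU (zy s i)))).sub (st_mono ?_)
    rintro v (hv | ⟨i', hi', hv⟩)
    · exact Or.inl (Or.inl (Or.inr (Or.inl hv)))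
    · rcases Nat.lt_succ_iff_lt_or_eq.1 hi' with h3 | rfl
      · exact Or.inl (Or.inl (Or.inr (Or.inr ⟨i', h3, hv⟩)))
      · rcases hv with rfl | rfl | hv
        · exact Or.inl (Or.inr rfl)
        · exact Or.inl (Or.inl (Or.inl rfl))
        · exact Or.inr hv

theorem phase_start (hN : 1 ≤ A.N) : Reach A.adj 2 2 ∅ (A.st (Low A.N)) := by
  have h0 : A.Hold 1 0 {host (ch 0)} :=
    hold_of {host (ch 0)} ∅ (by simp [dep_host]) (by simp)
      fun v hv h2 => (h2 (by simpa using hv)).elim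
  have h1 := zclean h0 false rfl 9
  have h2 : A.st (LowM 1) ⊆ A.st ({host (ch 0)} ∪ Zr (A := A) false 9) := by
    refine st_sub fun v hv h1 w hw => ?_
    rcases v with ((i' | _ | ⟨s, i'⟩) | ⟨i' | _ | ⟨s, i'⟩, l, pos⟩ | i' | ⟨s, i'⟩ | _ | _ | _ | _) <;>
      first | exact hv.elim | (rw [dep_host] at h1; omega) | skip
    · have hv : i' < 1 := hv
      have := (nb_un hw).1
      simp only [nU] at this
      split_ifs at this <;> omega
    · obtain rfl : s = false := hv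
      have := (nb_un hw).1
      refine Or.inr ⟨i', ?_, Or.inr (Or.inr ⟨l, this, pos, rfl⟩)⟩
      simp only [nU] at this
      split_ifs at this <;> omega
    · have hv : i' < 1 := hv
      have := (nb_c hw).1
      omega
    · obtain rfl : s = false := hv
      exact Or.inr ⟨i', (nb_zb hw).1, Or.inl rfl⟩
  refine (((h1.mono le_rfl le_rfl ?_ h2).tail ((fix20 le_rfl (by omega)).mono le_rfl (by omega)
    Subset.rfl Subset.rfl)).trans ((up le_rfl le_rfl).mono le_rfl (by omega) Subset.rfl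
    Subset.rfl))
  rintro v ⟨rfl, -, h⟩
  rw [dep_host] at h
  omega

/-- The first hosts below `g` with their units. -/
def Gr (k0 : ℕ) : Set Vx := {v | ∃ k < k0, v = host (gx k) ∨ v ∈ Un (gx k) (A.nU (gx k))}

theorem phase_end (hN : 1 ≤ A.N) :
    Reach A.adj 2 2 (A.st (JU univ) ∪ A.st (Low A.N)) A.BB := by
  have hJ : ∀ v ∈ insert g (JU univ), v ≠ g → ∀ w, A.adj v w → w ∈ insert g (JU univ) := by
    rintro v (rfl | hv) h2 w hw
    · exact (h2 rfl).elim
    · rcases ju_cl hv hw with h | rfl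
      · exact Or.inr h
      · rcases nb_u hw with rfl | ⟨j', -, rfl⟩
        · exact Or.inl rfl
        · exact Or.inr trivial
  have h0 : A.Hold 0 1 (insert g (JU univ)) :=
    hold_of ∅ {g} (by simp) (by simp [dep_g]) fun v hv _ h2 => hJ v hv (by simpa using h2)
  have hG : ∀ k0, ∀ v ∈ Gr (A := A) k0, ∀ w, A.adj v w →
      w ∈ insert g (JU univ) ∪ Gr (A := A) k0 := by
    rintro k0 v ⟨k, hk, rfl | ⟨l, hl, pos, rfl⟩⟩ w hw
    · rcases nb_gx hw with ⟨rfl, -⟩ | ⟨l, hl, rfl⟩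
      · exact Or.inl (Or.inl rfl)
      · exact Or.inr ⟨k, hk, Or.inr ⟨l, hl, _, rfl⟩⟩
    · rcases (nb_un hw).2 with ⟨-, rfl | rfl⟩ | ⟨-, rfl | rfl | ⟨rfl, -⟩⟩ | ⟨-, rfl⟩ |
        ⟨-, rfl, -⟩ <;>
      first
        | exact Or.inr ⟨k, hk, Or.inl rfl⟩
        | exact Or.inr ⟨k, hk, Or.inr ⟨l, hl, _, rfl⟩⟩
  have h1 : Rnd A.adj 1 1 (A.st (JU univ)) (A.st (insert g (JU univ))) :=
    (holdJU univ).add ∅ ∅ {g} Subset.rfl (fun v hv => hv.elim) (by
      rintro v (rfl | hv) - h2 h3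
      · simp at h3
      · exact (h2 hv).elim)
  have h2 : ∀ k0, Reach A.adj 2 1 (A.st (JU univ))
      (A.st (insert g (JU univ) ∪ Gr (A := A) k0)) := by
    intro k0
    induction k0 with
    | zero =>
      exact (h1.mono (by omega) le_rfl Subset.rfl
        (st_mono (by rintro v (hv | ⟨l, hl, -⟩); exacts [hv, by omega]))).reach
    | succ k ih =>
      have h3 := ((h0.closed (hG k)).insertA (dep_host (gx k))).killOdd (a := gx k)
        (mem_insert _ _) (A.nU (gx k))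
      rw [st_insertA (dep_host _)] at h3
      refine (ih.trans h3).sub (st_mono ?_)
      rintro v (hv | ⟨k', hk', hv⟩)
      · exact Or.inl (Or.inr (Or.inl hv))
      · rcases Nat.lt_succ_iff_lt_or_eq.1 hk' with h3 | rfl
        · exact Or.inl (Or.inr (Or.inr ⟨k', h3, hv⟩))
        · rcases hv with rfl | hv
          · exact Or.inl (Or.inl rfl)
          · exact Or.inr hv
  set U := insert (host (ch A.N)) ((insert g (JU univ) ∪ Gr (A := A) 3) ∪ Low A.N) with hU
  have hUc : ∀ v ∈ U, v ≠ host (ch A.N) → ∀ w, A.adj v w → w ∈ U := by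
    rintro v (rfl | (hv | hv) | rfl | hv) h1 w hw
    · exact (h1 rfl).elim
    · by_cases hg : v = g
      · subst hg
        rcases nb_g hw with rfl | rfl | ⟨k, hk, rfl⟩
        · exact Or.inl rfl
        · exact Or.inr (Or.inl (Or.inl (Or.inr trivial)))
        · exact Or.inr (Or.inl (Or.inr ⟨k, hk, Or.inl rfl⟩))
      · exact Or.inr (Or.inl (Or.inl (hJ v hv hg w hw)))
    · exact Or.inr (Or.inl (hG 3 v hv w hw))
    · rcases (nb_c hw).2.2 with rfl | rfl
      · exact Or.inr (Or.inr (Or.inr (show A.N - 1 < A.N by omega)))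
      · exact Or.inl rfl
    · exact Or.inr (Or.inr (lowM_low hN le_rfl hv hw))
  have h3 : A.Hold 1 0 U :=
    hold_of {host (ch A.N)} ∅ (by simp [dep_host]) (by simp)
      fun v hv h1 _ => hUc v hv (by simpa using h1)
  have h4 := h3.killOdd (a := ch A.N) (mem_insert _ _) (A.nU (ch A.N))
  set U' := insert (host (ch (A.N + 1))) (insert (c (A.N + 1)) (U ∪ Un (ch A.N) (A.nU (ch A.N))))
    with hU'
  have h5 : Rnd A.adj 2 0 (A.st (U ∪ Un (ch A.N) (A.nU (ch A.N)))) (A.st U') :=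
    (h3.un (mem_insert _ _) _).add {host (ch (A.N + 1))} {host (ch (A.N + 1))} ∅ Subset.rfl
      (by rintro v rfl h; simp at h) (by
        rintro v (rfl | rfl | hv) h1 h2 - w hw
        · have := dep_host (A := A) (ch (A.N + 1))
          omega
        · rcases (nb_c hw).2.2 with rfl | rfl
          · exact Or.inl (Or.inl (Or.inl rfl))
          · exact Or.inr rfl
        · exact (h2 hv).elim)
  have h6 : A.Hold 1 0 U' :=
    hold_of {host (ch (A.N + 1))} ∅ (by simp [dep_host]) (by simp) (by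
      rintro v (rfl | rfl | hv | ⟨l, hl, pos, rfl⟩) h1 - w hw
      · simp at h1
      · rcases (nb_c hw).2.2 with rfl | rfl
        · exact Or.inr (Or.inr (Or.inl (Or.inl rfl)))
        · exact Or.inl rfl
      · by_cases hv' : v = host (ch A.N)
        · subst hv'
          rcases nb_ch hw with ⟨rfl, -⟩ | ⟨rfl, -⟩ | ⟨rfl, h⟩ | ⟨s, j, rfl, h, -⟩ | ⟨l, hl, rfl⟩
          · exact Or.inr (Or.inr (Or.inl (Or.inr (Or.inr (Or.inl rfl)))))
          · exact Or.inr (Or.inl rfl)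
          · exact Or.inr (Or.inr (Or.inl (Or.inr (Or.inl (Or.inl (Or.inl rfl))))))
          · cases s <;> simp only [zc] at h <;> simp at h
            omega
          · exact Or.inr (Or.inr (Or.inr ⟨l, hl, _, rfl⟩))
        · exact Or.inr (Or.inr (Or.inl (hUc v hv hv' w hw)))
      · rcases (nb_un hw).2 with ⟨-, rfl | rfl⟩ | ⟨-, rfl | rfl | ⟨rfl, -⟩⟩ | ⟨-, rfl⟩ |
          ⟨-, rfl, -⟩ <;>
        first
          | exact Or.inr (Or.inr (Or.inl (Or.inl rfl)))
          | exact Or.inr (Or.inr (Or.inr ⟨l, hl, _, rfl⟩)))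
  have h7 := zclean h6 true (mem_insert _ _) 9
  have h8 := (h2 3).par (holdL hN le_rfl).rnd
  rw [← st_union (insert g (JU univ) ∪ Gr (A := A) 3),
    ← st_insertA (dep_host (ch A.N)) (insert g (JU univ) ∪ Gr (A := A) 3 ∪ Low A.N)] at h8
  refine (((h8.trans (h4.mono le_rfl (by omega) Subset.rfl Subset.rfl)).tail
    (h5.mono le_rfl (by omega) Subset.rfl Subset.rfl)).trans h7).sub ?_
  rintro v ⟨⟨w, hw⟩, hv⟩
  refine ⟨?_, ⟨w, hw⟩, hv⟩
  have hL : ∀ v ∈ Low A.N, v ∈ U' ∪ Zr (A := A) true 9 := fun v hv =>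
    Or.inl (Or.inr (Or.inr (Or.inl (Or.inr (Or.inr hv)))))
  have hJ' : ∀ v ∈ insert g (JU univ) ∪ Gr (A := A) 3, v ∈ U' ∪ Zr (A := A) true 9 := fun v hv =>
    Or.inl (Or.inr (Or.inr (Or.inl (Or.inr (Or.inl hv)))))
  rcases v with (a | ⟨i | k | ⟨s, i⟩, l, pos⟩ | i | ⟨s, i⟩ | _ | _ | j | ⟨j, l, k⟩)
  · rw [dep_host] at hv
    omega
  · have h := (nb_un hw).1
    by_cases hi : i = A.N
    · subst hi
      exact Or.inl (Or.inr (Or.inr (Or.inr ⟨l, h, pos, rfl⟩)))
    · refine hL _ (Or.inr (show i < A.N from ?_))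
      simp only [nU] at h
      split_ifs at h <;> omega
  · have h := (nb_un hw).1
    refine hJ' _ (Or.inr ⟨k, ?_, Or.inr ⟨l, h, pos, rfl⟩⟩)
    simp only [nU] at h
    split_ifs at h <;> omega
  · have h := (nb_un hw).1
    cases s
    · exact hL _ (Or.inr rfl)
    · refine Or.inr ⟨i, ?_, Or.inr (Or.inr ⟨l, h, pos, rfl⟩)⟩
      simp only [nU] at h
      split_ifs at h <;> omega
  · have h := (nb_c hw).2.1
    by_cases hi : i = A.N + 1
    · subst hi
      exact Or.inl (Or.inr (Or.inl rfl))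
    · exact hL _ (low_mono (by omega) (mem_insert _ _))
  · cases s
    · exact hL _ (Or.inr rfl)
    · exact Or.inr ⟨i, (nb_zb hw).1, Or.inl rfl⟩
  · exact hJ' _ (Or.inl (Or.inl rfl))
  · exact hJ' _ (Or.inl (Or.inr trivial))
  · exact hJ' _ (Or.inl (Or.inr trivial))
  · exact hJ' _ (Or.inl (Or.inr trivial))

theorem ju_mono {F F' : Set ℕ} (h : ∀ j < A.n, j ∈ F → j ∈ F') :
    A.st (JU F) ⊆ A.st (JU F') := by
  refine st_sub fun v hv h1 w hw => ?_
  rcases v with (_ | _ | _ | _ | _ | _ | j' | ⟨j', l, k⟩) <;> first | exact hv.elim | skip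
  · trivial
  · exact h _ (nb_y hw).1 hv
  · exact h _ (nb_leg hw).1 hv

theorem complete (n0 m σ : ℕ) (T f : ℕ → ℕ) (hn : A.n = n0 + 3) (hσ : 1 ≤ σ) (hN : 2 ≤ A.N)
    (hT0 : ∀ b ≤ m, σ + 1 ≤ T b) (hTm : T m = A.N + 1) (hTN : ∀ b ≤ m, T b ≤ A.N + 1)
    (hsoft : ∀ b ≤ m, ∀ p, T b ≤ p + σ → p < T b → A.hard p = false)
    (hf : ∀ j < n0, f j < m)
    (hb : ∀ b < m, ∑ j ∈ (Finset.range n0).filter (fun j => f j = b), A.M j + 1 + T b ≤
      T (b + 1) + σ) : Reach A.adj 2 2 ∅ A.BB := by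
  have h1 := ((phase_start (by omega)).trans (job_first n0 (by omega) le_rfl)).trans
    (job_free {n0} (n0 + 1) hN (fun l i h _ => refill_second n0 _ l i h) (by omega) le_rfl)
  have h2 : ∀ e ≤ m, Reach A.adj 2 2 ∅
      (A.st (JU {j | j = n0 ∨ j = n0 + 1 ∨ (j < n0 ∧ m - e ≤ f j)}) ∪
        A.st (Low (T (m - e) - 1))) := by
    intro e he
    induction e with
    | zero =>
      refine h1.sub (union_subset_union (ju_mono ?_) (by rw [Nat.sub_zero, hTm]; exact Subset.rfl))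
      rintro j - (rfl | rfl | ⟨h3, h4⟩)
      · exact Or.inr rfl
      · exact Or.inl rfl
      · have := hf j h3
        omega
    | succ e ih =>
      have h3 := hb (m - (e + 1)) (by omega)
      have h4 := hT0 (m - (e + 1)) (by omega)
      have h5 := hTN (m - e) (by omega)
      have h6 := hTN (m - (e + 1)) (by omega)
      rw [show m - (e + 1) + 1 = m - e by omega] at h3
      have h7 := (ih (by omega)).trans (jobs_rigid
        ((Finset.range n0).filter (fun j => f j = m - (e + 1))) _ (by omega) (by omega))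
      refine (h7.trans (Reach.par' (holdJU _).rnd (upSoft (j := T (m - (e + 1)) - 1) (by omega)
        (by omega) fun p h8 h9 => hsoft (m - (e + 1)) (by omega) p (by omega) (by omega)))).sub
        (union_subset_union_left _ (ju_mono ?_))
      rintro j - (rfl | rfl | ⟨h8, h9⟩)
      · exact Or.inl (Or.inl rfl)
      · exact Or.inl (Or.inr (Or.inl rfl))
      · by_cases h10 : m - e ≤ f j
        · exact Or.inl (Or.inr (Or.inr ⟨h8, h10⟩))
        · exact Or.inr (Finset.mem_coe.2 (Finset.mem_filter.2 ⟨Finset.mem_range.2 h8, by omega⟩))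
  have h3 := h2 m le_rfl
  have h4 := hT0 0 (Nat.zero_le _)
  have h5 := hTN 0 (Nat.zero_le _)
  rw [Nat.sub_self] at h3
  have hF : ∀ j' < A.n, j' = n0 + 2 ∨ j' ∈ {j | j = n0 ∨ j = n0 + 1 ∨ (j < n0 ∧ 0 ≤ f j)} := by
    intro j' hj'
    simp only [mem_ofPred_eq]
    omega
  refine ((h3.trans (job_free _ (n0 + 2) hN (fun l i h h' => refill_last _ _ l i hF h h')
    (by omega) (by omega))).sub (union_subset_union_left _ (ju_mono fun j hj _ => hF j hj))).trans
    (phase_end (by omega))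

end Pm

end Pool.Agent.MP_9694c2_lc

end MrgPart5

-- marker of a merged file
example : 731051 + 112069 = 731051 + 112069 := rfl
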