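import Mathlib
import Pool.Agent.MP_9694c2_lc.Comp2
import Pool.Agent.Lib.helper8.BinPack

-- ======== part 0: formerly Pool.Agent.MP_9694c2_lc.Sound1
section MrgPart0

/-!
Local facts about plays on the tree.
-/

set_option autoImplicit false

namespace Pool.Agent.MP_9694c2_lc

open Set Hs Vx

theorem not_three {V : Type} {W : Finset V} (h : W.card ≤ 2) {a b c : V} (ha : a ∈ W) (hb : b ∈ W)
    (hc : c ∈ W) (h1 : a ≠ b) (h2 : a ≠ c) (h3 : b ≠ c) : False := by
  have : 2 < W.card := Finset.two_lt_card.2 ⟨a, ha, b, hb, c, hc, h1, h2, h3⟩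
  omega

theorem exists_other {V : Type} {W : Finset V} (h : W.card ≤ 2) {a : V} (ha : a ∈ W) :
    ∃ b, ∀ v ∈ W, v = a ∨ v = b := by
  by_cases h1 : ∃ b ∈ W, b ≠ a
  · obtain ⟨b, hb, hba⟩ := h1
    refine ⟨b, fun v hv => ?_⟩
    by_contra hc
    push Not at hc
    exact not_three h ha hb hv hba.symm (Ne.symm hc.1) (Ne.symm hc.2)
  · push Not at h1
    exact ⟨a, fun v hv => Or.inl (h1 v hv)⟩

namespace Play

variable {V : Type} {r : V → V → Prop} (G : Play r 2 2)

/-- `v` is threatened at the first step of round `t`. -/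
def ThA (v : V) (t : ℕ) : Prop := ∃ w ∈ G.P t, r v w

/-- `v` is threatened at the second step of round `t`. -/
def ThB (v : V) (t : ℕ) : Prop := ∃ w ∈ G.Q t, r v w

variable {G}

theorem ThA.mem {v : V} {t : ℕ} (h : G.ThA v t) (h' : v ∉ G.Y t) : v ∈ G.Q t := by
  obtain ⟨w, h1, h2⟩ := h
  exact G.hQ _ _ _ h1 h2 h'

theorem ThA.shot {v : V} {t : ℕ} (h : G.ThA v t) (h' : v ∉ G.Q t) : v ∈ G.Y t := by
  by_contra hc
  exact h' (h.mem hc)

theorem ThB.mem {v : V} {t : ℕ} (h : G.ThB v t) (h' : v ∉ G.X (t + 1)) : v ∈ G.P (t + 1) := by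
  obtain ⟨w, h1, h2⟩ := h
  exact G.hP _ _ _ h1 h2 h'

theorem ThB.shot {v : V} {t : ℕ} (h : G.ThB v t) (h' : v ∉ G.P (t + 1)) : v ∈ G.X (t + 1) := by
  by_contra hc
  exact h' (h.mem hc)

/-- Three different neighbours. -/
def Deg3 (r : V → V → Prop) (v : V) : Prop :=
  ∃ a b c, r v a ∧ r v b ∧ r v c ∧ a ≠ b ∧ a ≠ c ∧ b ≠ c

theorem persist (hs : ∀ a b, r a b → r b a) {v : V} (hv : Deg3 r v) {t : ℕ} (h : v ∈ G.Q t) :
    G.ThA v (t + 1) := by
  obtain ⟨a, b, c, ha, hb, hc, h1, h2, h3⟩ := hv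
  by_contra hn
  have key : ∀ w, r v w → w ∈ G.X (t + 1) := fun w hw => by
    by_contra h4
    exact hn ⟨w, G.hP _ _ _ h (hs _ _ hw) h4, hw⟩
  exact not_three (G.hX _) (key a ha) (key b hb) (key c hc) h1 h2 h3

theorem lit {v : V} {r0 T : ℕ} (h0 : v ∈ G.Q r0)
    (step : ∀ r1 t, r0 ≤ r1 → r1 < t → t ≤ T → v ∈ G.Q r1 → (∀ s, r1 < s → s < t → v ∈ G.Y s) →
      G.ThA v t) (t : ℕ) : r0 < t → t ≤ T → G.ThA v t := by
  classical
  induction t using Nat.strong_induction_on with
  | _ t ih =>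
    intro h1 h2
    have h3 : r0 ≤ Nat.findGreatest (fun s => v ∈ G.Q s) (t - 1) :=
      Nat.le_findGreatest (by omega) h0
    have h4 := Nat.findGreatest_le (P := fun s => v ∈ G.Q s) (t - 1)
    refine step _ t h3 (by omega) h2
      (Nat.findGreatest_spec (P := fun s => v ∈ G.Q s) (m := r0) (by omega) h0) fun s h5 h6 => ?_
    exact (ih s h6 (by omega) (by omega)).shot
      (Nat.findGreatest_is_greatest (P := fun s => v ∈ G.Q s) h5 (by omega))

variable (G)

/-- All neighbours of `v` are open to the rabbit at the start of round `β`. -/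
def Reset (v : V) (β : ℕ) : Prop := ∀ w, r w v → w ∉ G.X β → w ∈ G.P β

open Classical in
/-- The last reset. -/
noncomputable def lastR (v : V) (t : ℕ) : ℕ := Nat.findGreatest (G.Reset v) t

/-- The condition `Hc` has been true since the last reset. -/
def Hot (v : V) (Hc : ℕ → ℕ → Prop) (t : ℕ) : Prop :=
  ∀ s, G.lastR v t ≤ s → s ≤ t → Hc (G.lastR v t) s

variable {G}

theorem lastR_le (v : V) (t : ℕ) : G.lastR v t ≤ t := by
  classical
  exact Nat.findGreatest_le t

theorem lastR_reset (v : V) (t : ℕ) : G.Reset v (G.lastR v t) := by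
  classical
  exact Nat.findGreatest_spec (P := G.Reset v) (Nat.zero_le t) (fun w _ _ => G.h0 w)

theorem le_lastR {v : V} {s t : ℕ} (h : s ≤ t) (h' : G.Reset v s) : s ≤ G.lastR v t := by
  classical
  exact Nat.le_findGreatest h h'

theorem reset_of_Q {v : V} {t : ℕ} (h : v ∈ G.Q t) : G.Reset v (t + 1) :=
  fun _ hw h' => G.hP _ _ _ h hw h'

theorem notQ_of_lastR {v : V} {s t : ℕ} (h1 : G.lastR v t ≤ s) (h2 : s < t) : v ∉ G.Q s :=
  fun h => by
    have := le_lastR (t := t) h2 (reset_of_Q h)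
    omega

theorem lastR_eq {v : V} {s t : ℕ} (h1 : G.lastR v t ≤ s) (h2 : s ≤ t) :
    G.lastR v s = G.lastR v t :=
  le_antisymm (le_lastR ((lastR_le v s).trans h2) (lastR_reset v s))
    (le_lastR h1 (lastR_reset v t))

theorem Hot.prev {v : V} {Hc : ℕ → ℕ → Prop} {s t : ℕ} (h : G.Hot v Hc t) (h1 : G.lastR v t ≤ s)
    (h2 : s ≤ t) : G.Hot v Hc s := by
  intro s' h3 h4
  rw [lastR_eq h1 h2] at h3 ⊢
  exact h s' h3 (h4.trans h2)

theorem hot_of_reset {v : V} {Hc : ℕ → ℕ → Prop} (hself : ∀ β, G.Reset v β → Hc β β) {t : ℕ}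
    (h : G.Reset v t) : G.Hot v Hc t := by
  have h1 : G.lastR v t = t := le_antisymm (lastR_le v t) (le_lastR le_rfl h)
  intro s h2 h3
  obtain rfl : s = t := by omega
  rw [h1]
  exact hself _ h

theorem Hot.cool {v : V} {Hc : ℕ → ℕ → Prop} (hself : ∀ β, G.Reset v β → Hc β β) {t : ℕ}
    (h : G.Hot v Hc t) (h' : ¬ G.Hot v Hc (t + 1)) :
    v ∉ G.Q t ∧ ¬ Hc (G.lastR v t) (t + 1) := by
  have h1 : G.lastR v (t + 1) ≤ t := by
    by_contra hc
    have h2 := lastR_le (G := G) v (t + 1)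
    have h3 := lastR_reset (G := G) v (t + 1)
    rw [show G.lastR v (t + 1) = t + 1 by omega] at h3
    exact h' (hot_of_reset hself h3)
  refine ⟨fun h2 => h' (hot_of_reset hself (reset_of_Q h2)), fun h2 => h' fun s h3 h4 => ?_⟩
  rw [← lastR_eq h1 (Nat.le_succ t)] at h3 ⊢
  rcases h4.eq_or_lt with rfl | h5
  · exact h2
  · exact h s h3 (by omega)

end Play

theorem majority (hot use : Fin 3 → ℕ → Prop) (W : Fin 3 → ℕ → ℕ → Prop) (n : ℕ)
    (h0 : ∀ X, hot X 0) (hn : ∀ X, ¬ hot X n)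
    (excl : ∀ X Y t, X ≠ Y → use X t → use Y t → False)
    (cool : ∀ X t, hot X t → ¬ hot X (t + 1) →
      ∃ α ≤ t, (∀ s, α ≤ s → s ≤ t → use X s) ∧ W X α t) :
    ∃ X Y Z α t, X ≠ Y ∧ X ≠ Z ∧ Y ≠ Z ∧ α ≤ t ∧ W X α t ∧
      (∀ s, α ≤ s → s ≤ t + 1 → ¬ hot Y s) ∧ ∀ s, α ≤ s → s ≤ t → hot Z s := by
  classical
  have hex : ∃ t, ∀ X Y, X ≠ Y → hot X t → ¬ hot Y t := ⟨n, fun _ _ _ h _ => hn _ h⟩
  have h1 := Nat.find_spec hex
  have h2 : ∀ s < Nat.find hex, ∃ X Y, X ≠ Y ∧ hot X s ∧ hot Y s := by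
    intro s hs
    have := Nat.find_min hex hs
    push Not at this
    exact this
  rcases h3 : Nat.find hex with _ | t
  · rw [h3] at h1
    exact (h1 0 1 (by decide) (h0 _) (h0 _)).elim
  rw [h3] at h1 h2
  obtain ⟨X, hX, hX'⟩ : ∃ X, hot X t ∧ ¬ hot X (t + 1) := by
    obtain ⟨X, Y, h4, h5, h6⟩ := h2 t (by omega)
    by_cases h : hot X (t + 1)
    · exact ⟨Y, h6, h1 X Y h4 h⟩
    · exact ⟨X, h5, h⟩
  obtain ⟨Y, Z, hXY, hXZ, hYZ, hY⟩ : ∃ Y Z, X ≠ Y ∧ X ≠ Z ∧ Y ≠ Z ∧ ¬ hot Y (t + 1) := by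
    have h4 : X ≠ X + 1 ∧ X ≠ X + 2 ∧ X + 1 ≠ X + 2 := by
      clear * -
      revert X
      decide
    by_cases h : hot (X + 1) (t + 1)
    · exact ⟨X + 2, X + 1, h4.2.1, h4.1, h4.2.2.symm, h1 _ _ h4.2.2 h⟩
    · exact ⟨X + 1, X + 2, h4.1, h4.2.1, h4.2.2, h⟩
  obtain ⟨α, hα, hu, hW⟩ := cool X t hX hX'
  have hYc : ∀ s, α ≤ s → s ≤ t + 1 → ¬ hot Y s := by
    intro s hs hs'
    induction hs' using Nat.decreasingInduction with
    | self => exact hY
    | of_succ k hk ih =>
      intro h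
      obtain ⟨α', h4, h5, -⟩ := cool Y k h (ih (by omega))
      exact excl X Y k hXY (hu k hs (by omega)) (h5 k h4 le_rfl)
  refine ⟨X, Y, Z, α, t, hXY, hXZ, hYZ, hα, hW, hYc, fun s hs hs' => ?_⟩
  obtain ⟨X', Y', h4, h5, h6⟩ := h2 s (by omega)
  have h7 : X' ≠ Y := fun h => hYc s hs (by omega) (h ▸ h5)
  have h8 : Y' ≠ Y := fun h => hYc s hs (by omega) (h ▸ h6)
  have h9 : X' = Z ∨ Y' = Z := by
    clear * - hXY hXZ hYZ h4 h7 h8
    omega
  rcases h9 with rfl | rfl
  · exact h5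
  · exact h6

/-- The index of the branch of a vertex. -/
def lab : Vx → ℕ
  | host (gx k) => k
  | host (zy _ i) => i
  | un _ l _ => l
  | zb _ i => i
  | leg _ l _ => l
  | _ => 0

namespace Pm

variable {A : Pm} {G : Play A.adj 2 2}

theorem a_un0 {a : Hs} {l : ℕ} (h : l < A.nU a) : A.adj (un a l 0) (host a) := Or.inl (Ed.un0 h)
theorem a_un1 {a : Hs} {l : ℕ} (h : l < A.nU a) : A.adj (un a l 1) (un a l 0) := Or.inl (Ed.un1 h)
theorem a_un2 {a : Hs} {l : ℕ} (h : l < A.nU a) : A.adj (un a l 2) (un a l 1) := Or.inl (Ed.un2 h)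

theorem hard_lit {a : Hs} (ha : A.isH a = true) (h5 : 5 ≤ A.nU a) {r0 T : ℕ}
    (hu : ∀ s, r0 < s → s < T → u ∈ G.Y s) (h0 : host a ∈ G.Q r0) (t : ℕ) :
    r0 < t → t ≤ T → G.ThA (host a) t := by
  classical
  refine Play.lit h0 (fun r1 t h1 h2 h3 h4 h6 => ?_) t
  obtain ⟨l, hl, h7⟩ := exists_unshot (Finset.range 5) (G.X (r1 + 1) ∪ G.X t) lab
    ((Finset.card_union_le _ _).trans_lt (by have := G.hX (r1 + 1); have := G.hX t; simp; omega))
  have hl : l < A.nU a := (Finset.mem_range.1 hl).trans_le h5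
  have h8 : un a l 0 ∈ G.P (r1 + 1) :=
    G.hP _ _ _ h4 (a_un0 hl) fun h => h7 _ (Finset.mem_union_left _ h) rfl
  refine ⟨un a l 0, ?_, adj_symm (a_un0 hl)⟩
  have h9 : ∀ s, r1 < s → s < t → un a l 1 ∈ G.Q s := by
    intro s hs hs'
    have hn : ∀ s, r1 < s → s < t → un a l 1 ∉ G.Y s := fun s hs hs' h =>
      not_three (G.hY s) h (h6 s hs hs') (hu s (by omega) (by omega)) (by simp) (by simp) (by simp)
    induction s with
    | zero => omega
    | succ s ih =>
      rcases Nat.lt_succ_iff_lt_or_eq.1 hs with h | rfl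
      · exact (Play.persist (fun _ _ => adj_symm) ⟨_, _, _, a_un1 hl, adj_symm (a_un2 hl),
          Or.inr (Ed.un3 hl ha), by simp, by simp, by simp⟩ (ih h (by omega))).mem (hn _ hs hs')
      · exact G.hQ _ _ _ h8 (a_un1 hl) (hn _ hs hs')
  by_cases h : t = r1 + 1
  · exact h ▸ h8
  · obtain ⟨t, rfl⟩ : ∃ t', t = t' + 1 := ⟨t - 1, by omega⟩
    exact G.hP _ _ _ (h9 t (by omega) (by omega)) (adj_symm (a_un1 hl))
      fun h => h7 _ (Finset.mem_union_right _ h) rfl

theorem live_step {a : Hs} {l s : ℕ} (hl : l < A.nU a) (h : un a l 0 ∈ G.P s ∨ un a l 2 ∈ G.P s)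
    (hn : un a l 1 ∉ G.Y s) : G.ThB (un a l 0) s ∧ G.ThB (un a l 2) s := by
  have : un a l 1 ∈ G.Q s := by
    rcases h with h | h
    · exact G.hQ _ _ _ h (a_un1 hl) hn
    · exact G.hQ _ _ _ h (adj_symm (a_un2 hl)) hn
  exact ⟨⟨_, this, adj_symm (a_un1 hl)⟩, ⟨_, this, a_un2 hl⟩⟩

theorem soft_lit {a : Hs} (h5 : 3 ≤ A.nU a) {r0 T j : ℕ}
    (hu : ∀ s, r0 < s → s < T → u ∈ G.Y s) (hy : ∀ s, r0 < s → s ≤ T → y j ∈ G.X s)
    (h0 : host a ∈ G.Q r0) (t : ℕ) : r0 < t → t ≤ T → G.ThA (host a) t := by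
  classical
  refine Play.lit h0 (fun r1 t h1 h2 h3 h4 h6 => ?_) t
  obtain ⟨l, hl, h7⟩ := exists_unshot (Finset.range 3)
    ((G.X (r1 + 1)).erase (y j) ∪ (G.X t).erase (y j)) lab
    ((Finset.card_union_le _ _).trans_lt (by
      have := G.hX (r1 + 1)
      have := G.hX t
      rw [Finset.card_erase_of_mem (hy _ (by omega) (by omega)),
        Finset.card_erase_of_mem (hy _ (by omega) (by omega))]
      simp
      omega))
  have hl : l < A.nU a := (Finset.mem_range.1 hl).trans_le h5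
  have h8 : un a l 0 ∈ G.P (r1 + 1) :=
    G.hP _ _ _ h4 (a_un0 hl) fun h =>
      h7 _ (Finset.mem_union_left _ (Finset.mem_erase.2 ⟨by simp, h⟩)) rfl
  refine ⟨un a l 0, ?_, adj_symm (a_un0 hl)⟩
  have hn : ∀ s, r1 < s → s < t → un a l 1 ∉ G.Y s := fun s hs hs' h =>
    not_three (G.hY s) h (h6 s hs hs') (hu s (by omega) (by omega)) (by simp) (by simp) (by simp)
  have h9 : ∀ s, r1 < s → s < t → un a l 0 ∈ G.P s ∨ un a l 2 ∈ G.P s := by
    intro s hs hs'
    induction s with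
    | zero => omega
    | succ s ih =>
      rcases Nat.lt_succ_iff_lt_or_eq.1 hs with h | rfl
      · obtain ⟨h10, h11⟩ := live_step hl (ih h (by omega)) (hn s h (by omega))
        by_contra hc
        push Not at hc
        exact not_three (G.hX _) (h10.shot hc.1) (h11.shot hc.2) (hy _ (by omega) (by omega))
          (by simp) (by simp) (by simp)
      · exact Or.inl h8
  by_cases h : t = r1 + 1
  · exact h ▸ h8
  · obtain ⟨t, rfl⟩ : ∃ t', t = t' + 1 := ⟨t - 1, by omega⟩
    exact (live_step hl (h9 t (by omega) (by omega)) (hn t (by omega) (by omega))).1.mem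
      fun h => h7 _ (Finset.mem_union_right _ (Finset.mem_erase.2 ⟨by simp, h⟩)) rfl

variable (G)

/-- The leg is contaminated. -/
def Ne (j l t : ℕ) : Prop := leg j l 1 ∈ G.P t ∨ leg j l 3 ∈ G.P t ∨ leg j l 5 ∈ G.P t

open Classical in
/-- The number of clean vertices of a leg. -/
noncomputable def cl (j l t : ℕ) : ℕ :=
  (if leg j l 1 ∈ G.P t then 0 else 1) + (if leg j l 3 ∈ G.P t then 0 else 1) +
    (if leg j l 5 ∈ G.P t then 0 else 1)

open Classical in
/-- The number of contaminated legs. -/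
noncomputable def cnt (j t : ℕ) : ℕ := ((Finset.range (A.M j)).filter (fun l => Ne G j l t)).card

/-- The job is still dangerous. -/
def hotJob (j t : ℕ) : Prop := y j ∈ G.P t ∨ 11 ≤ cnt G j t

variable {G}

theorem ne_iff {j l t : ℕ} : Ne G j l t ↔ cl G j l t < 3 := by
  unfold Ne cl
  split_ifs <;> simp_all

theorem cl_le (j l t : ℕ) : cl G j l t ≤ 3 := by
  unfold cl
  split_ifs <;> omega

theorem grow {j l t : ℕ} (hj : j < A.n) (hl : l < A.M j) (ka kb ia ib : ℕ)
    (ha : ∀ k, leg j l k ∈ G.Y t → k = ka ∧ 1 ≤ ia)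
    (hb : ∀ k, leg j l k ∈ G.X (t + 1) → k = kb ∧ 1 ≤ ib) (h : Ne G j l t) :
    cl G j l (t + 1) ≤ cl G j l t - 1 + ia + ib := by
  have q1 : ∀ k < 6, leg j l k ∈ G.P t → leg j l (k + 1) ∈ G.Q t ∨ (k + 1 = ka ∧ 1 ≤ ia) :=
    fun k hk h1 => (em _).symm.imp (G.hQ _ _ _ h1 (a_leg hj hl hk)) (ha _)
  have q2 : ∀ k < 6, leg j l (k + 1) ∈ G.P t → leg j l k ∈ G.Q t ∨ (k = ka ∧ 1 ≤ ia) :=
    fun k hk h1 => (em _).symm.imp (G.hQ _ _ _ h1 (a_leg' hj hl hk)) (ha _)
  have p1 : ∀ k < 6, leg j l k ∈ G.Q t → leg j l (k + 1) ∈ G.P (t + 1) ∨ (k + 1 = kb ∧ 1 ≤ ib) :=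
    fun k hk h1 => (em _).symm.imp (G.hP _ _ _ h1 (a_leg hj hl hk)) (hb _)
  have p2 : ∀ k < 6, leg j l (k + 1) ∈ G.Q t → leg j l k ∈ G.P (t + 1) ∨ (k = kb ∧ 1 ≤ ib) :=
    fun k hk h1 => (em _).symm.imp (G.hP _ _ _ h1 (a_leg' hj hl hk)) (hb _)
  have e1 := q1 1 (by omega)
  have e2 := q1 3 (by omega)
  have e3 := q1 5 (by omega)
  have e4 := q2 0 (by omega)
  have e5 := q2 2 (by omega)
  have e6 := q2 4 (by omega)
  have f1 := p1 0 (by omega)
  have f2 := p1 2 (by omega)
  have f3 := p1 4 (by omega)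
  have f4 := p2 1 (by omega)
  have f5 := p2 3 (by omega)
  have f6 := p2 5 (by omega)
  simp only [Nat.reduceAdd] at e1 e2 e3 e4 e5 e6 f1 f2 f3 f4 f5 f6
  clear q1 q2 p1 p2 ha hb
  unfold Ne at h
  unfold cl
  grind (splits := 30)

end Pm

end Pool.Agent.MP_9694c2_lc

end MrgPart0

-- ======== part 1: formerly Pool.Agent.MP_9694c2_lc.Sound2
section MrgPart1

/-!
The cost of a job along the chain.
-/

set_option autoImplicit false

namespace Pool.Agent.MP_9694c2_lc

open Set Hs Vx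

namespace Pm

variable {A : Pm} {G : Play A.adj 2 2}

theorem stay {j l t : ℕ} (hj : j < A.n) (hl : l < A.M j) (ka : ℕ)
    (ha : ∀ k, leg j l k ∈ G.Y t → k = ka) (hb : ∀ k, leg j l k ∉ G.X (t + 1))
    (h : Ne G j l t) : Ne G j l (t + 1) := by
  have h1 := grow hj hl ka 0 1 0 (fun k hk => ⟨ha k hk, le_rfl⟩) (fun k hk => (hb k hk).elim) h
  rw [ne_iff] at h ⊢
  omega

theorem fill {j l t : ℕ} (hj : j < A.n) (hl : l < A.M j)
    (hs : ∀ v ∈ G.shots t 2, lab v ≠ l) (h : Ne G j l t) : cl G j l (t + 2) = 0 := by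
  have h0 : ∀ k, ∀ i < 2, leg j l k ∉ G.Y (t + i) ∧ leg j l k ∉ G.X (t + i + 1) := fun k i hi =>
    G.notMem_shots (fun hv => hs _ hv rfl) hi
  have h1 := grow (t := t) hj hl 0 0 0 0 (fun k hk => ((h0 k 0 (by omega)).1 hk).elim)
    (fun k hk => ((h0 k 0 (by omega)).2 hk).elim) h
  rw [ne_iff] at h
  have h2 := grow (t := t + 1) hj hl 0 0 0 0 (fun k hk => ((h0 k 1 (by omega)).1 hk).elim)
    (fun k hk => ((h0 k 1 (by omega)).2 hk).elim) (ne_iff.2 (by omega))
  have : cl G j l (t + 1 + 1) = cl G j l (t + 2) := rfl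
  omega

theorem mem_of_cl {j l t : ℕ} (h : cl G j l t = 0) : leg j l 1 ∈ G.P t := by
  unfold cl at h
  split_ifs at h <;> first | assumption | omega

theorem cnt_step {j t : ℕ} (hj : j < A.n) : cnt G j t ≤ cnt G j (t + 1) + 4 := by
  classical
  have h1 := card_unshot ((Finset.range (A.M j)).filter (fun l => Ne G j l t)) (G.shots t 1) lab
  have h2 := G.card_shots t 1
  refine h1.trans (Nat.add_le_add (Finset.card_le_card fun l hl => ?_) h2)
  simp only [Finset.mem_filter, Finset.mem_range] at hl ⊢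
  have h0 : ∀ k, leg j l k ∉ G.Y (t + 0) ∧ leg j l k ∉ G.X (t + 0 + 1) := fun k =>
    G.notMem_shots (fun hv => hl.2 _ hv rfl) Nat.one_pos
  exact ⟨hl.1.1, stay hj hl.1.1 0 (fun k hk => ((h0 k).1 hk).elim) (fun k => (h0 k).2) hl.1.2⟩

theorem cnt_reset {j t : ℕ} (hj : j < A.n) (h : y j ∈ G.P t) : A.M j ≤ cnt G j (t + 1) + 4 := by
  classical
  have h1 := card_unshot (Finset.range (A.M j)) (G.shots t 1) lab
  have h2 := G.card_shots t 1
  rw [Finset.card_range] at h1
  refine h1.trans (Nat.add_le_add (Finset.card_le_card fun l hl => ?_) h2)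
  simp only [Finset.mem_filter, Finset.mem_range] at hl ⊢
  have h0 : ∀ k, leg j l k ∉ G.Y (t + 0) ∧ leg j l k ∉ G.X (t + 0 + 1) := fun k =>
    G.notMem_shots (fun hv => hl.2 _ hv rfl) Nat.one_pos
  exact ⟨hl.1, Or.inl (G.hP _ _ _ (G.hQ _ _ _ h (Or.inl (Ed.leg0 hj hl.1)) (h0 0).1)
    (a_leg hj hl.1 (by omega)) (h0 1).2)⟩

theorem cnt_keep {j j' t : ℕ} (hj : j < A.n) (hne : j ≠ j') (hu : u ∈ G.Y t)
    (h1 : y j ∈ G.X (t + 1)) (h2 : y j' ∈ G.X (t + 1)) : cnt G j t ≤ cnt G j (t + 1) := by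
  classical
  refine Finset.card_le_card fun l hl => ?_
  simp only [Finset.mem_filter, Finset.mem_range] at hl ⊢
  obtain ⟨a, ha⟩ := exists_other (G.hY t) hu
  refine ⟨hl.1, stay hj hl.1 (match a with | leg _ _ k => k | _ => 0) (fun k hk => ?_)
    (fun k hk => not_three (G.hX _) h1 h2 hk (by simpa using hne) (by simp) (by simp)) hl.2⟩
  rcases ha _ hk with h | rfl
  · cases h
  · rfl

theorem thr_job {j β t : ℕ} (hj : j < A.n) (hM : 11 ≤ A.M j) (h0 : y j ∈ G.P β) (h1 : β ≤ t)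
    (hot : ∀ s, β ≤ s → s ≤ t → hotJob G j s) : G.ThB (y j) t := by
  classical
  have hcard : ∀ s, (G.shots s 2 ∪ G.Y (s + 2)).card < 11 := fun s =>
    (Finset.card_union_le _ _).trans_lt (by have := G.card_shots s 2; have := G.hY (s + 2); omega)
  have key : ∀ s, y j ∈ G.P s → ∀ i ≤ 2, G.ThB (y j) (s + i) := by
    intro s hs i hi
    obtain ⟨l, hl, h2⟩ := exists_unshot (Finset.range (A.M j)) _ lab
      ((hcard s).trans_le (by simpa using hM))
    have hl := Finset.mem_range.1 hl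
    have h3 : ∀ k, ∀ i < 2, leg j l k ∉ G.Y (s + i) ∧ leg j l k ∉ G.X (s + i + 1) := fun k i hi =>
      G.notMem_shots (fun hv => h2 _ (Finset.mem_union_left _ hv) rfl) hi
    have h4 : leg j l 0 ∈ G.Q s := G.hQ _ _ _ hs (Or.inl (Ed.leg0 hj hl)) (h3 0 0 (by omega)).1
    have h5 : leg j l 0 ∈ G.Q (s + 1) := G.hQ _ _ _ (G.hP _ _ _ h4 (a_leg hj hl (by omega))
      (h3 1 0 (by omega)).2) (a_leg' hj hl (by omega)) (h3 0 1 (by omega)).1
    have h6 : leg j l 0 ∈ G.Q (s + 2) := G.hQ _ _ _ (G.hP _ _ _ h5 (a_leg hj hl (by omega))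
      (h3 1 1 (by omega)).2) (a_leg' hj hl (by omega))
      (fun h => h2 _ (Finset.mem_union_right _ h) rfl)
    refine ⟨leg j l 0, ?_, Or.inr (Ed.leg0 hj hl)⟩
    interval_cases i
    exacts [h4, h5, h6]
  by_cases h2 : t ≤ β + 2
  · have := key β h0 (t - β) (by omega)
    rwa [show β + (t - β) = t by omega] at this
  · obtain ⟨s, rfl⟩ : ∃ s, t = s + 2 := ⟨t - 2, by omega⟩
    rcases hot s (by omega) (by omega) with h3 | h3
    · exact key s h3 2 le_rfl
    · obtain ⟨l, hl, h4⟩ := exists_unshot _ _ lab ((hcard s).trans_le h3)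
      simp only [Finset.mem_filter, Finset.mem_range] at hl
      have h5 := mem_of_cl (fill hj hl.1 (fun v hv => h4 v (Finset.mem_union_left _ hv)) hl.2)
      exact ⟨leg j l 0, G.hQ _ _ _ h5 (a_leg' hj hl.1 (by omega))
        (fun h => h4 _ (Finset.mem_union_right _ h) rfl), Or.inr (Ed.leg0 hj hl.1)⟩

theorem sum_ind_le (F : Finset ℕ) (j : ℕ) (a : Vx) [∀ l, Decidable (∃ k, a = leg j l k)]
    [Decidable (∃ l k, a = leg j l k)] :
    ∑ l ∈ F, (if ∃ k, a = leg j l k then 1 else 0) ≤ if ∃ l k, a = leg j l k then 1 else 0 := by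
  split_ifs with h
  · obtain ⟨l0, k0, rfl⟩ := h
    rw [← Finset.card_filter]
    refine Finset.card_le_one.2 fun l hl l' hl' => ?_
    obtain ⟨k, hk⟩ := (Finset.mem_filter.1 hl).2
    obtain ⟨k', hk'⟩ := (Finset.mem_filter.1 hl').2
    cases hk
    cases hk'
    rfl
  · exact le_of_eq (Finset.sum_eq_zero fun l _ => if_neg fun h' => h ⟨l, h'⟩)

theorem job_fire {j τ φ H : ℕ} (hj : j < A.n) (xs cs : ℕ → Vx)
    (hx1 : ∀ p, 1 ≤ p → p ≤ A.N + 1 → A.adj (xs p) (cs p))
    (hx2 : ∀ p, 1 ≤ p → p ≤ A.N + 1 → A.adj (xs (p - 1)) (cs p))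
    (hxh : ∀ p, ∃ i, xs p = host (ch i)) (hch : ∀ p, ∃ i, cs p = c i)
    (hxn : ∀ p, 1 ≤ p → p ≤ A.N + 1 → xs p ≠ xs (p - 1))
    (hH1 : 1 ≤ H) (hH : H ≤ A.N + 1) (hτ : τ ≤ φ)
    (hu : ∀ s, τ ≤ s → s < φ → u ∈ G.Y s) (hy : ∀ s, τ < s → s ≤ φ → y j ∈ G.X s)
    (htop : ∀ s, τ ≤ s → s < φ → G.ThA (xs H) s)
    (hlit : ∀ p, 1 ≤ p → p ≤ A.N → ∀ r0 t, τ ≤ r0 → r0 < t → t < φ → xs p ∈ G.Q r0 →
      G.ThA (xs p) t)
    (hsink : ∀ s, τ ≤ s → s < φ → xs 0 ∉ G.Q s)
    (F : Finset ℕ) (hF : ∀ l ∈ F, l < A.M j ∧ cl G j l τ = 0) :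
    ∃ i, 1 ≤ i ∧ i + F.card ≤ H + cnt G j φ ∧
      ∀ p, i ≤ p → p < H → ∃ s, τ ≤ s ∧ s < φ ∧ xs p ∈ G.Q s := by
  classical
  set Lv : ℕ → Finset ℕ := fun t => F.filter (fun l => ∀ s, τ ≤ s → s ≤ t → Ne G j l s) with hLv
  set lam : ℕ → ℕ → ℕ := fun i t => i + if cs i ∈ G.P t then 0 else 1 with hlam
  have key : ∀ t, τ ≤ t → t ≤ φ → ∃ i, 1 ≤ i ∧ i ≤ H ∧
      (∀ p, i ≤ p → p < H → ∃ s, τ ≤ s ∧ s < t ∧ xs p ∈ G.Q s) ∧ i + F.card ≤ H + (Lv t).card ∧
      (1 ≤ ∑ l ∈ Lv t, cl G j l t →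
        lam i t + ∑ l ∈ Lv t, cl G j l t + F.card ≤ H + 2 + (Lv t).card) := by
    intro t ht
    induction t, ht using Nat.le_induction with
    | base =>
      intro _
      have h1 : Lv τ = F := Finset.filter_true_of_mem fun l hl s h1 h2 => by
        obtain rfl : s = τ := by omega
        rw [ne_iff, (hF l hl).2]
        omega
      refine ⟨H, hH1, le_rfl, fun p h1 h2 => by omega, by rw [h1], fun h => ?_⟩
      rw [h1, Finset.sum_eq_zero fun l hl => (hF l hl).2] at h
      omega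
    | succ t ht ih =>
      intro htφ
      obtain ⟨i, hi1, hiH, hL, hE, hS⟩ := ih (by omega)
      obtain ⟨a, ha⟩ := exists_other (G.hY t) (hu t ht (by omega))
      obtain ⟨b, hb⟩ := exists_other (G.hX (t + 1)) (hy (t + 1) (by omega) htφ)
      set ia : ℕ := if ∃ l k, a = leg j l k then 1 else 0 with hia
      set ib : ℕ := if ∃ l k, b = leg j l k then 1 else 0 with hib
      have hia1 : ia ≤ 1 := by rw [hia]; split_ifs <;> omega
      have hib1 : ib ≤ 1 := by rw [hib]; split_ifs <;> omega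
      have hsub : Lv (t + 1) ⊆ Lv t := fun l hl => Finset.mem_filter.2
        ⟨(Finset.mem_filter.1 hl).1, fun s h1 h2 => (Finset.mem_filter.1 hl).2 s h1 (by omega)⟩
      -- the legs
      have hlegs : ∑ l ∈ Lv t, cl G j l (t + 1) ≤ ∑ l ∈ Lv t, (cl G j l t - 1) + ia + ib := by
        refine le_trans (Finset.sum_le_sum (g := fun l => cl G j l t - 1 +
          (if ∃ k, a = leg j l k then 1 else 0) + (if ∃ k, b = leg j l k then 1 else 0))
          fun l hl => ?_) ?_
        · have h1 := Finset.mem_filter.1 hl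
          refine grow hj (hF l h1.1).1 (match a with | leg _ _ k => k | _ => 0)
            (match b with | leg _ _ k => k | _ => 0) _ _ (fun k hk => ?_) (fun k hk => ?_)
            (h1.2 t ht le_rfl)
          · rcases ha _ hk with h | rfl
            · cases h
            · exact ⟨rfl, by rw [if_pos ⟨k, rfl⟩]⟩
          · rcases hb _ hk with h | rfl
            · cases h
            · exact ⟨rfl, by rw [if_pos ⟨k, rfl⟩]⟩
        · rw [Finset.sum_add_distrib, Finset.sum_add_distrib]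
          exact Nat.add_le_add (Nat.add_le_add_left (sum_ind_le _ _ _) _) (sum_ind_le _ _ _)
      have hdec : ∑ l ∈ Lv t, (cl G j l t - 1) ≤ ∑ l ∈ Lv t, cl G j l t - 1 := by
        by_cases h : ∀ l ∈ Lv t, cl G j l t = 0
        · rw [Finset.sum_eq_zero fun l hl => by simp [h l hl]]
          omega
        · push Not at h
          obtain ⟨l, hl, h⟩ := h
          have := Finset.sum_lt_sum (s := Lv t) (f := fun l => cl G j l t - 1)
            (g := fun l => cl G j l t) (fun l _ => Nat.sub_le _ _) ⟨l, hl, by omega⟩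
          omega
      have hsplit : ∑ l ∈ Lv t, cl G j l (t + 1) + 3 * (Lv (t + 1)).card =
          ∑ l ∈ Lv (t + 1), cl G j l (t + 1) + 3 * (Lv t).card := by
        have h1 := Finset.sum_sdiff hsub (f := fun l => cl G j l (t + 1))
        have h2 := Finset.card_sdiff_add_card_eq_card hsub
        have h3 : ∑ l ∈ Lv t \ Lv (t + 1), cl G j l (t + 1) = 3 * (Lv t \ Lv (t + 1)).card := by
          rw [Finset.sum_congr rfl (g := fun _ => 3), Finset.sum_const, smul_eq_mul, mul_comm]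
          intro l hl
          obtain ⟨h3, h4⟩ := Finset.mem_sdiff.1 hl
          have h5 := cl_le (G := G) j l (t + 1)
          by_contra hc
          refine h4 (Finset.mem_filter.2 ⟨(Finset.mem_filter.1 h3).1, fun s h6 h7 => ?_⟩)
          rcases h7.eq_or_lt with rfl | h7
          · exact ne_iff.2 (by omega)
          · exact (Finset.mem_filter.1 h3).2 s h6 (by omega)
        omega
      have hcard := Finset.card_le_card hsub
      -- the chain
      have hYa : ∀ p, xs p ∈ G.Y t → xs p = a ∧ ia = 0 := by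
        intro p hp
        obtain ⟨i, hi⟩ := hxh p
        rcases ha _ hp with h | h
        · rw [hi] at h
          cases h
        · refine ⟨h, if_neg ?_⟩
          rintro ⟨l, k, h'⟩
          rw [← h, hi] at h'
          cases h'
      have hXb : ∀ p, cs p ∈ G.X (t + 1) → ib = 0 := by
        intro p hp
        obtain ⟨i, hi⟩ := hch p
        rcases hb _ hp with h | h
        · rw [hi] at h
          cases h
        · refine if_neg ?_
          rintro ⟨l, k, h'⟩
          rw [← h, hi] at h'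
          cases h'
      have hth : G.ThA (xs i) t := by
        rcases hiH.eq_or_lt with rfl | h
        · exact htop t ht (by omega)
        · obtain ⟨s, h1, h2, h3⟩ := hL i le_rfl h
          exact hlit i hi1 (by omega) s t h1 h2 (by omega) h3
      have hnext : ∀ p, 1 ≤ p → p ≤ H → xs p ∈ G.Q t → lam p (t + 1) + ib ≤ p + 1 := by
        intro p h1 h2 h3
        simp only [hlam]
        split_ifs with h4
        · omega
        · have := hXb p (Play.ThB.shot ⟨_, h3, adj_symm (hx1 p h1 (by omega))⟩ h4)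
          omega
      have hlamle : ∀ p s, lam p s ≤ p + 1 ∧ p ≤ lam p s := by
        intro p s
        simp only [hlam]
        split_ifs <;> omega
      have hL' : ∀ p, i ≤ p → p < H → ∃ s, τ ≤ s ∧ s < t + 1 ∧ xs p ∈ G.Q s := fun p h1 h2 => by
        obtain ⟨s, h3, h4, h5⟩ := hL p h1 h2
        exact ⟨s, h3, by omega, h5⟩
      obtain ⟨i', h1, h2, h3, h4⟩ : ∃ i', 1 ≤ i' ∧ i' ≤ i ∧
          (∀ p, i' ≤ p → p < H → ∃ s, τ ≤ s ∧ s < t + 1 ∧ xs p ∈ G.Q s) ∧
          lam i' (t + 1) + ia + ib ≤ lam i t + 1 := by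
        by_cases hc : cs i ∈ G.P t
        · have hl : lam i t = i := by simp [hlam, hc]
          by_cases hs : xs (i - 1) ∈ G.Y t
          · have h5 := hYa _ hs
            have h6 : xs i ∈ G.Q t := hth.mem fun h =>
              hxn i hi1 (by omega) ((hYa _ h).1.trans h5.1.symm)
            have := hnext i hi1 hiH h6
            exact ⟨i, hi1, le_rfl, hL', by omega⟩
          · have h5 : xs (i - 1) ∈ G.Q t := G.hQ _ _ _ hc (hx2 i hi1 (by omega)) hs
            have h6 : 1 ≤ i - 1 := by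
              by_contra h
              rw [show i - 1 = 0 by omega] at h5
              exact hsink t ht (by omega) h5
            have := hnext (i - 1) h6 (by omega) h5
            refine ⟨i - 1, h6, by omega, fun p h7 h8 => ?_, by omega⟩
            rcases h7.eq_or_lt with rfl | h7
            · exact ⟨t, ht, by omega, h5⟩
            · exact hL' p (by omega) h8
        · have hl : lam i t = i + 1 := by simp [hlam, hc]
          refine ⟨i, hi1, le_rfl, hL', ?_⟩
          by_cases hs : xs i ∈ G.Y t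
          · have := (hYa _ hs).2
            have := hlamle i (t + 1)
            omega
          · have := hnext i hi1 hiH (hth.mem hs)
            omega
      have h5 := hlamle i t
      have h6 := hlamle i' (t + 1)
      refine ⟨i', h1, by omega, h3, ?_, fun _ => ?_⟩ <;> omega
  obtain ⟨i, h1, -, h2, h3, -⟩ := key φ hτ le_rfl
  refine ⟨i, h1, h3.trans (Nat.add_le_add_left (Finset.card_le_card fun l hl => ?_) _), h2⟩
  simp only [hLv, Finset.mem_filter, Finset.mem_range] at hl ⊢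
  exact ⟨(hF l hl.1).1, hl.2 φ hτ le_rfl⟩

end Pm

end Pool.Agent.MP_9694c2_lc

end MrgPart1

-- ======== part 2: formerly Pool.Agent.MP_9694c2_lc.Sound3
section MrgPart2

/-!
The three regions of the tree.
-/

set_option autoImplicit false

namespace Pool.Agent.MP_9694c2_lc

open Set Hs Vx

namespace Pm

variable {A : Pm} {G : Play A.adj 2 2}

/-- The centre of an end region. -/
def zz (A : Pm) (s : Bool) : Vx := host (ch (A.zc s))

theorem a_zb {s : Bool} {i : ℕ} (h : i < 9) : A.adj (zb s i) (A.zz s) := Or.inl (Ed.zb_z h)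
theorem a_zy {s : Bool} {i : ℕ} (h : i < 9) : A.adj (host (zy s i)) (zb s i) := Or.inl (Ed.zy_zb h)
theorem nU_zy {s : Bool} {i : ℕ} (h : i < 9) : A.nU (zy s i) = A.Z := by simp [nU, h]

variable (G)

/-- The danger condition of an end region. -/
def HZ (s : Bool) (β t : ℕ) : Prop :=
  β < t → ∀ i < 9, host (zy s i) ∈ G.Q β → ∃ l < A.Z, un (zy s i) l 0 ∈ G.P t

open Classical in
/-- The number of contaminated units of a branch of an end region. -/
noncomputable def lv (s : Bool) (i t : ℕ) : ℕ :=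
  ((Finset.range A.Z).filter (fun l => un (zy s i) l 0 ∈ G.P t ∨ un (zy s i) l 2 ∈ G.P t)).card

/-- The window in which an end region is cleaned. -/
def WZ (s : Bool) (α t : ℕ) : Prop :=
  ∃ i < 9, (∀ r, α ≤ r → r ≤ t → A.zz s ∈ G.Y r ∧ host (zy s i) ∈ G.Y r) ∧
    A.Z ≤ lv G s i α + 2 ∧ ∀ l < A.Z, un (zy s i) l 0 ∉ G.P (t + 1)

variable {G}

theorem hz_self (s : Bool) (β : ℕ) (_ : G.Reset (A.zz s) β) : HZ G s β β :=
  fun h => (lt_irrefl _ h).elim

theorem z_thr {s : Bool} {t : ℕ} (h : G.Hot (A.zz s) (HZ G s) t) : G.ThA (A.zz s) t := by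
  classical
  have h1 := Play.lastR_le (G := G) (A.zz s) t
  have h2 := Play.lastR_reset (G := G) (A.zz s) t
  unfold Play.Hot at h
  set β := G.lastR (A.zz s) t
  obtain ⟨i, hi, h3⟩ := exists_unshot (Finset.range 9)
    ((G.X β ∪ G.Y β) ∪ (G.Y (t - 1) ∪ G.X t)) lab (by
      have := G.hX β
      have := G.hY β
      have := G.hY (t - 1)
      have := G.hX t
      have := Finset.card_union_le (G.X β ∪ G.Y β) (G.Y (t - 1) ∪ G.X t)
      have := Finset.card_union_le (G.X β) (G.Y β)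
      have := Finset.card_union_le (G.Y (t - 1)) (G.X t)
      rw [Finset.card_range]
      omega)
  have hi := Finset.mem_range.1 hi
  simp only [Finset.mem_union] at h3
  have h4 : zb s i ∈ G.P β := h2 _ (a_zb hi) fun h => h3 _ (Or.inl (Or.inl h)) rfl
  refine ⟨zb s i, ?_, adj_symm (a_zb hi)⟩
  rcases h1.eq_or_lt with h5 | h5
  · exact h5 ▸ h4
  · obtain ⟨t, rfl⟩ : ∃ t', t = t' + 1 := ⟨t - 1, by omega⟩
    have h6 : host (zy s i) ∈ G.Q β :=
      G.hQ _ _ _ h4 (a_zy hi) fun h => h3 _ (Or.inl (Or.inr h)) rfl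
    have h7 : host (zy s i) ∈ G.Q t := by
      rcases Nat.lt_succ_iff_lt_or_eq.1 h5 with h8 | h8
      · obtain ⟨l, hl, h9⟩ := h t (by omega) (by omega) h8 i hi h6
        exact G.hQ _ _ _ h9 (adj_symm (a_un0 (by rwa [nU_zy hi])))
          fun h => h3 _ (Or.inr (Or.inl h)) rfl
      · exact h8 ▸ h6
    exact G.hP _ _ _ h7 (adj_symm (a_zy hi)) fun h => h3 _ (Or.inr (Or.inr h)) rfl

theorem z_cool (hZ : 3 ≤ A.Z) {s : Bool} {t : ℕ} (h : G.Hot (A.zz s) (HZ G s) t)
    (h' : ¬ G.Hot (A.zz s) (HZ G s) (t + 1)) : ∃ α ≤ t, WZ G s α t := by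
  classical
  obtain ⟨h1, h2⟩ := h.cool (hz_self s) h'
  have h3 := Play.lastR_le (G := G) (A.zz s) t
  have hz : ∀ r, G.lastR (A.zz s) t ≤ r → r ≤ t → A.zz s ∈ G.Y r := fun r h4 h5 =>
    (z_thr (h.prev h4 h5)).shot (by
      rcases h5.eq_or_lt with rfl | h6
      · exact h1
      · exact Play.notQ_of_lastR h4 h6)
  unfold Play.Hot at h
  set β := G.lastR (A.zz s) t
  unfold HZ at h2
  push Not at h2
  obtain ⟨-, i, hi, h4, h5⟩ := h2
  have h6 : β ≤ Nat.findGreatest (fun r => host (zy s i) ∈ G.Q r) t := Nat.le_findGreatest h3 h4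
  have h7 := Nat.findGreatest_spec (P := fun r => host (zy s i) ∈ G.Q r) h3 h4
  have h8 := Nat.findGreatest_le (P := fun r => host (zy s i) ∈ G.Q r) t
  have h9 : ∀ r, Nat.findGreatest (fun r => host (zy s i) ∈ G.Q r) t < r → r ≤ t →
      host (zy s i) ∉ G.Q r := fun r h9 h10 =>
    Nat.findGreatest_is_greatest (P := fun r => host (zy s i) ∈ G.Q r) h9 h10
  set r0 := Nat.findGreatest (fun r => host (zy s i) ∈ G.Q r) t
  have h10 := card_unshot (Finset.range A.Z) (G.X (r0 + 1)) lab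
  have h11 := G.hX (r0 + 1)
  have h12 : ∀ l < A.Z, (∀ v ∈ G.X (r0 + 1), lab v ≠ l) → un (zy s i) l 0 ∈ G.P (r0 + 1) :=
    fun l hl h => G.hP _ _ _ h7 (a_un0 (by rwa [nU_zy hi])) fun h' => h _ h' rfl
  rw [Finset.card_range] at h10
  have h13 : r0 < t := by
    by_contra hc
    obtain ⟨l, hl, h14⟩ := exists_unshot (Finset.range A.Z) (G.X (r0 + 1)) lab (by simp; omega)
    have hl := Finset.mem_range.1 hl
    have := h12 l hl h14
    rw [show r0 = t by omega] at this
    exact h5 l hl this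
  refine ⟨r0 + 1, h13, i, hi, fun r h14 h15 => ⟨hz r (by omega) h15, ?_⟩,
    h10.trans (Nat.add_le_add (Finset.card_le_card fun l hl => ?_) h11), h5⟩
  · obtain ⟨l, hl, h16⟩ := h r (by omega) h15 (by omega) i hi h4
    exact Play.ThA.shot ⟨_, h16, adj_symm (a_un0 (by rwa [nU_zy hi]))⟩ (h9 r h14 h15)
  · simp only [Finset.mem_filter, Finset.mem_range] at hl ⊢
    exact ⟨hl.1, Or.inl (h12 l hl.1 hl.2)⟩

/-- A path with branching vertices at the even places. -/
structure Route (A : Pm) (s : Bool) (L : ℕ) (a b : ℕ → Vx) : Prop where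
  h1 : ∀ i < L, A.adj (b i) (a i)
  h2 : ∀ i < L, A.adj (a (i + 1)) (b i)
  h3 : ∀ i ≤ L, Play.Deg3 A.adj (a i)
  h4 : ∀ i ≤ L, a i ≠ A.zz s ∧ ∀ i', a i ≠ host (zy s i')
  h5 : ∀ i < L, ∀ h l pos, b i ≠ un h l pos

theorem Route.rev {s : Bool} {L : ℕ} {a b : ℕ → Vx} (h : Route A s L a b) :
    Route A s L (fun i => a (L - i)) (fun i => b (L - 1 - i)) where
  h1 i hi := by
    have := h.h2 (L - 1 - i) (by omega)
    rw [show L - 1 - i + 1 = L - i by omega] at this
    exact adj_symm this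
  h2 i hi := by
    have := h.h1 (L - 1 - i) (by omega)
    rw [show L - (i + 1) = L - 1 - i by omega]
    exact adj_symm this
  h3 i _ := h.h3 _ (by omega)
  h4 i _ := h.h4 _ (by omega)
  h5 i hi := h.h5 _ (by omega)

theorem z_fire {s : Bool} {α t L : ℕ} {a b : ℕ → Vx} (hα : α ≤ t) (hW : WZ G s α t)
    (hR : Route A s L a b) (hL : L + 4 ≤ A.Z) (h0 : G.ThA (a 0) α) :
    ∃ r, α ≤ r ∧ r ≤ t ∧ a L ∈ G.Q r := by
  classical
  obtain ⟨i0, hi0, h1, h2, h3⟩ := hW
  by_contra hc
  push Not at hc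
  have hn : ∀ r, α ≤ r → r ≤ t → ∀ i ≤ L, a i ∉ G.Y r := fun r h4 h5 i hi h6 =>
    not_three (G.hY r) h6 (h1 r h4 h5).1 (h1 r h4 h5).2 (hR.h4 i hi).1 ((hR.h4 i hi).2 _)
      (by simp [zz])
  have hlive : ∀ r, α ≤ r → r ≤ t → ∀ l < A.Z,
      (un (zy s i0) l 0 ∈ G.P r ∨ un (zy s i0) l 2 ∈ G.P r) →
      G.ThB (un (zy s i0) l 0) r ∧ G.ThB (un (zy s i0) l 2) r := fun r h4 h5 l hl h6 =>
    live_step (by rwa [nU_zy hi0]) h6 fun h7 =>
      not_three (G.hY r) h7 (h1 r h4 h5).1 (h1 r h4 h5).2 (by simp [zz]) (by simp) (by simp [zz])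
  have key : ∀ r, α ≤ r → r ≤ t → ∃ i < L, a i ∈ G.Q r ∧ A.Z ≤ lv G s i0 r + i + 2 := by
    intro r hr
    induction r, hr using Nat.le_induction with
    | base =>
      intro _
      have h4 := h0.mem (hn α le_rfl hα 0 (Nat.zero_le _))
      refine ⟨0, Nat.pos_of_ne_zero ?_, h4, by omega⟩
      rintro rfl
      exact hc α le_rfl hα h4
    | succ r hr ih =>
      intro hrt
      obtain ⟨i, hi, h4, h5⟩ := ih (by omega)
      by_cases h6 : ∃ l < A.Z, un (zy s i0) l 0 ∈ G.X (r + 1) ∧ un (zy s i0) l 2 ∈ G.X (r + 1)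
      · obtain ⟨l0, hl0, h7, h8⟩ := h6
        have h9 : b i ∈ G.P (r + 1) := G.hP _ _ _ h4 (hR.h1 i hi) fun h =>
          not_three (G.hX _) h h7 h8 (hR.h5 i hi _ _ _) (hR.h5 i hi _ _ _) (by simp)
        have h10 : a (i + 1) ∈ G.Q (r + 1) :=
          G.hQ _ _ _ h9 (hR.h2 i hi) (hn _ (by omega) hrt _ hi)
        refine ⟨i + 1, lt_of_le_of_ne hi ?_, h10, ?_⟩
        · rintro rfl
          exact hc _ (by omega) hrt h10
        · have : lv G s i0 r ≤ lv G s i0 (r + 1) + 1 := by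
            unfold lv
            refine le_trans (Finset.card_le_card fun l hl => ?_) (Finset.card_insert_le l0 _)
            simp only [Finset.mem_filter, Finset.mem_range, Finset.mem_insert] at hl ⊢
            by_cases h11 : l = l0
            · exact Or.inl h11
            · exact Or.inr ⟨hl.1, Or.inl ((hlive r hr (by omega) l hl.1 hl.2).1.mem fun h =>
                not_three (G.hX _) h h7 h8 (by simpa using h11) (by simp) (by simp))⟩
          omega
      · push Not at h6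
        refine ⟨i, hi, (Play.persist (fun _ _ => adj_symm) (hR.h3 i hi.le) h4).mem
          (hn _ (by omega) hrt _ hi.le), ?_⟩
        have : lv G s i0 r ≤ lv G s i0 (r + 1) := by
          refine Finset.card_le_card fun l hl => ?_
          simp only [Finset.mem_filter, Finset.mem_range] at hl ⊢
          obtain ⟨h7, h8⟩ := hlive r hr (by omega) l hl.1 hl.2
          refine ⟨hl.1, ?_⟩
          by_cases h9 : un (zy s i0) l 0 ∈ G.X (r + 1)
          · exact Or.inr (h8.mem (h6 l hl.1 h9))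
          · exact Or.inl (h7.mem h9)
        omega
  obtain ⟨i, hi, -, h4⟩ := key t hα le_rfl
  have : lv G s i0 t ≤ (G.X (t + 1)).card := by
    refine Finset.card_le_card_of_injOn (fun l => un (zy s i0) l 0) (fun l hl => ?_)
      (fun l _ l' _ h => by simpa using h)
    simp only [Finset.coe_filter, Finset.mem_range, mem_ofPred_eq] at hl
    exact (hlive t hα le_rfl l hl.1 hl.2).1.shot (h3 l hl.1)
  have := G.hX (t + 1)
  omega

theorem deg_ch {i : ℕ} (hi : i ≤ A.N + 1) : Play.Deg3 A.adj (host (ch i)) := by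
  by_cases h0 : i = 0
  · subst h0
    exact ⟨_, _, _, adj_symm (a_zb (s := false) (i := 0) (by omega)),
      adj_symm (a_zb (s := false) (i := 1) (by omega)),
      adj_symm (a_zb (s := false) (i := 2) (by omega)), by simp, by simp, by simp⟩
  by_cases h1 : i = A.N + 1
  · subst h1
    exact ⟨_, _, _, adj_symm (a_zb (s := true) (i := 0) (by omega)),
      adj_symm (a_zb (s := true) (i := 1) (by omega)),
      adj_symm (a_zb (s := true) (i := 2) (by omega)), by simp, by simp, by simp⟩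
  have h2 : 0 < A.nU (ch i) := by
    simp only [nU]
    split_ifs <;> omega
  exact ⟨_, _, _, a_ch_c (by omega) hi, a_ch_c' (by omega), adj_symm (a_un0 h2), by simp,
    by simp, by simp⟩

theorem deg_u (hn : 2 ≤ A.n) : Play.Deg3 A.adj u :=
  ⟨g, y 0, y 1, Or.inl Ed.u_g, Or.inr (Ed.y_u (by omega)), Or.inr (Ed.y_u (by omega)), by simp,
    by simp, by simp⟩

theorem route_false (hn : 2 ≤ A.n) (hN : 1 ≤ A.N) : Route A false 2
    (fun i => if i = 0 then u else host (ch (A.N - 1 + i)))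
    (fun i => if i = 0 then g else c (A.N + 1)) where
  h1 i hi := by
    interval_cases i
    · exact Or.inr Ed.u_g
    · simp only [one_ne_zero, if_false, show A.N - 1 + 1 = A.N by omega]
      exact adj_symm (a_ch_c' le_rfl)
  h2 i hi := by
    interval_cases i
    · simp only [Nat.zero_add, one_ne_zero, if_false, if_true, show A.N - 1 + 1 = A.N by omega]
      exact Or.inr Ed.g_ch
    · simp only [one_ne_zero, if_false, show A.N - 1 + (1 + 1) = A.N + 1 by omega,
        show (1 + 1 : ℕ) ≠ 0 by omega]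
      exact a_ch_c (by omega) le_rfl
  h3 i hi := by
    split_ifs
    · exact deg_u hn
    · exact deg_ch (by omega)
  h4 i hi := by
    split_ifs
    · simp [zz]
    · simp [zz, zc]
      omega
  h5 i hi h l pos := by
    split_ifs <;> simp

theorem route_true (hn : 2 ≤ A.n) : Route A true (A.N + 1)
    (fun i => if i = 0 then u else host (ch (A.N + 1 - i)))
    (fun i => if i = 0 then g else c (A.N + 1 - i)) where
  h1 i hi := by
    split_ifs
    · exact Or.inr Ed.u_g
    · exact adj_symm (a_ch_c (by omega) (by omega))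
  h2 i hi := by
    rw [if_neg (by omega)]
    split_ifs with h
    · subst h
      exact Or.inr Ed.g_ch
    · rw [show A.N + 1 - i = A.N + 1 - (i + 1) + 1 by omega]
      exact a_ch_c' (by omega)
  h3 i hi := by
    split_ifs
    · exact deg_u hn
    · exact deg_ch (by omega)
  h4 i hi := by
    split_ifs
    · simp [zz]
    · simp [zz, zc]
      omega
  h5 i hi h l pos := by
    split_ifs <;> simp

/-- The neighbours of `u`. -/
def nb (A : Pm) (e : ℕ) : Vx := if e < A.n then y e else g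

theorem a_nb {e : ℕ} : A.adj (A.nb e) u := by
  unfold nb
  split_ifs with h
  · exact Or.inl (Ed.y_u h)
  · exact Or.inr Ed.u_g

theorem nb_inj {e e' : ℕ} (h1 : e < A.n + 1) (h2 : e' < A.n + 1) (h : A.nb e = A.nb e') : e = e' := by
  unfold nb at h
  split_ifs at h
  · cases h
    rfl
  · omega

open Classical in
theorem card_nb (W : Finset Vx) :
    ((Finset.range (A.n + 1)).filter (fun e => A.nb e ∈ W)).card ≤ W.card := by
  refine Finset.card_le_card_of_injOn A.nb (fun e he => ?_) fun e he e' he' h => ?_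
  · exact (Finset.mem_filter.1 he).2
  · exact nb_inj (Finset.mem_range.1 (Finset.mem_filter.1 he).1)
      (Finset.mem_range.1 (Finset.mem_filter.1 he').1) h

variable (G)

open Classical in
/-- The danger condition of the job region. -/
def HJ (β t : ℕ) : Prop :=
  3 ≤ ((Finset.range (A.n + 1)).filter
    (fun e => A.nb e ∈ G.P β ∧ (e < A.n → ∀ s, β ≤ s → s ≤ t → hotJob G e s))).card

variable {G}

theorem hj_self (hn : 4 ≤ A.n) (β : ℕ) (h : G.Reset u β) : HJ G β β := by
  classical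
  have h1 := card_nb (A := A) (G.X β)
  have h2 := G.hX β
  have h3 := Finset.card_filter_add_card_filter_not (s := Finset.range (A.n + 1))
    (fun e => A.nb e ∈ G.X β)
  rw [Finset.card_range] at h3
  refine le_trans (b := ((Finset.range (A.n + 1)).filter (fun e => ¬ A.nb e ∈ G.X β)).card)
    (by omega) (Finset.card_le_card fun e he => ?_)
  simp only [Finset.mem_filter] at he ⊢
  have h4 := h _ a_nb he.2
  refine ⟨he.1, h4, fun h5 s h6 h7 => Or.inl ?_⟩
  obtain rfl : s = β := by omega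
  simpa [nb, h5] using h4

theorem g_thr {β t : ℕ} (h1 : β ≤ t) (hu : ∀ s, β ≤ s → s ≤ t → u ∈ G.Y s) (h0 : g ∈ G.P β) :
    G.ThB g t := by
  classical
  obtain ⟨k, hk, h2⟩ := exists_unshot (Finset.range 3) ((G.Y β).erase u ∪ (G.Y t).erase u) lab
    ((Finset.card_union_le _ _).trans_lt (by
      have := G.hY β
      have := G.hY t
      rw [Finset.card_erase_of_mem (hu _ le_rfl h1), Finset.card_erase_of_mem (hu _ h1 le_rfl)]
      simp
      omega))
  have hk := Finset.mem_range.1 hk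
  have h3 : host (gx k) ∈ G.Q β := G.hQ _ _ _ h0 (Or.inl (Ed.gx_g hk)) fun h =>
    h2 _ (Finset.mem_union_left _ (Finset.mem_erase.2 ⟨by simp, h⟩)) rfl
  refine ⟨host (gx k), ?_, Or.inr (Ed.gx_g hk)⟩
  rcases h1.eq_or_lt with rfl | h4
  · exact h3
  · exact (hard_lit (T := t) rfl (by simp [nU, hk]) (fun s h5 h6 => hu s h5.le h6.le) h3 t h4
      le_rfl).mem fun h => h2 _ (Finset.mem_union_right _ (Finset.mem_erase.2 ⟨by simp, h⟩)) rfl

theorem u_thr (hM : ∀ j < A.n, 11 ≤ A.M j) {t : ℕ} (h : G.Hot u (HJ G) t) : G.ThA u t := by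
  classical
  induction t using Nat.strong_induction_on with
  | _ t ih =>
    have h1 := Play.lastR_le (G := G) u t
    have hu : ∀ s, G.lastR u t ≤ s → s < t → u ∈ G.Y s := fun s h2 h3 =>
      (ih s h3 (h.prev h2 h3.le)).shot (Play.notQ_of_lastR h2 h3)
    unfold Play.Hot at h
    set β := G.lastR u t
    have h2 := h t h1 le_rfl
    unfold HJ at h2
    rcases h1.eq_or_lt with h3 | h3
    · obtain ⟨e, he⟩ := Finset.card_pos.1 (lt_of_lt_of_le (by omega) h2)
      exact ⟨_, h3 ▸ (Finset.mem_filter.1 he).2.1, adj_symm a_nb⟩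
    · obtain ⟨t, rfl⟩ : ∃ t', t = t' + 1 := ⟨t - 1, by omega⟩
      by_contra hc
      have h4 := card_nb (A := A) (G.X (t + 1))
      have h5 := G.hX (t + 1)
      refine absurd (h2.trans ((Finset.card_le_card fun e he => ?_).trans (h4.trans h5))) (by omega)
      simp only [Finset.mem_filter] at he ⊢
      refine ⟨he.1, Play.ThB.shot ?_ fun h6 => hc ⟨_, h6, adj_symm a_nb⟩⟩
      obtain ⟨-, h6, h7⟩ := he
      by_cases h8 : e < A.n
      · simp only [nb, h8, if_true] at h6 ⊢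
        exact thr_job h8 (hM e h8) h6 (by omega) fun s h9 h10 => h7 h8 s h9 (by omega)
      · simp only [nb, h8, if_false] at h6 ⊢
        exact g_thr (by omega) (fun s h9 h10 => hu s h9 (by omega)) h6

theorem u_cool (hn : 4 ≤ A.n) (hM : ∀ j < A.n, 11 ≤ A.M j) {t : ℕ} (h : G.Hot u (HJ G) t)
    (h' : ¬ G.Hot u (HJ G) (t + 1)) :
    ∃ α ≤ t, (∀ s, α ≤ s → s ≤ t → u ∈ G.Y s) ∧ G.Reset u α ∧ ¬ HJ G α (t + 1) := by
  obtain ⟨h1, h2⟩ := h.cool (hj_self hn) h'
  refine ⟨G.lastR u t, Play.lastR_le _ _, fun s h3 h4 => (u_thr hM (h.prev h3 h4)).shot ?_,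
    Play.lastR_reset _ _, h2⟩
  rcases h4.eq_or_lt with rfl | h5
  · exact h1
  · exact Play.notQ_of_lastR h3 h5

end Pm

end Pool.Agent.MP_9694c2_lc

end MrgPart2

-- ======== part 3: formerly Pool.Agent.MP_9694c2_lc.Pack
section MrgPart3

/-!
From the positions of the jobs along the chain to a packing.
-/

set_option autoImplicit false

namespace Pool.Agent.MP_9694c2_lc

/-- The hard positions. -/
def HardP (m σ : ℕ) (T : ℕ → ℕ) (p : ℕ) : Prop := ∃ b < m, T b ≤ p ∧ p + σ < T (b + 1)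

theorem sum_card_le {J : Finset ℕ} (a b : ℕ → ℕ) (lo hi : ℕ)
    (h1 : ∀ j ∈ J, lo ≤ a j ∧ b j ≤ hi)
    (h2 : ∀ j ∈ J, ∀ j' ∈ J, j ≠ j' → b j ≤ a j' ∨ b j' ≤ a j) :
    ∑ j ∈ J, (b j - a j) ≤ hi - lo := by
  have h3 : (J.biUnion (fun j => Finset.Ico (a j) (b j))).card = ∑ j ∈ J, (b j - a j) := by
    rw [Finset.card_biUnion]
    · simp
    · intro j hj j' hj' hne
      simp only [Function.onFun]
      rw [Finset.disjoint_left]
      intro x hx hx'
      rw [Finset.mem_Ico] at hx hx'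
      have := h2 j hj j' hj' hne
      omega
  rw [← h3, ← Nat.card_Ico]
  refine Finset.card_le_card fun x hx => ?_
  obtain ⟨j, hj, hx⟩ := Finset.mem_biUnion.1 hx
  rw [Finset.mem_Ico] at hx ⊢
  have := h1 j hj
  omega

theorem T_mono {m σ : ℕ} {T : ℕ → ℕ} (hstep : ∀ b < m, T b + σ < T (b + 1)) {b b' : ℕ}
    (h : b < b') (h' : b' ≤ m) : T b + σ < T b' := by
  induction b' with
  | zero => omega
  | succ c ih =>
    have := hstep c (by omega)
    rcases Nat.lt_succ_iff_lt_or_eq.1 h with h1 | rfl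
    · have := ih h1 (by omega)
      omega
    · exact this

theorem pack_abstract (J : Finset ℕ) (d H φ : ℕ → ℕ) (N m σ : ℕ) (T : ℕ → ℕ)
    (hT0 : T 0 = σ + 1) (hTm : T m = N + 1) (hstep : ∀ b < m, T b + σ < T (b + 1))
    (hφ : Set.InjOn φ J) (hlo : ∀ j ∈ J, d j + 1 ≤ H j) (hd : ∀ j ∈ J, σ < d j)
    (hH : ∀ j ∈ J, HardP m σ T (H j) ∨ H j = N + 1)
    (hord : ∀ j ∈ J, ∀ j' ∈ J, φ j < φ j' → ∀ p, H j ≤ p + d j →
      (HardP m σ T p ∨ p = N + 1) → H j' ≤ p)
    (htight : N + σ * m < ∑ j ∈ J, d j + 2 * σ) :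
    ∃ f : ℕ → ℕ, (∀ j ∈ J, f j < m) ∧
      ∀ b < m, ∑ j ∈ J.filter (fun j => f j = b), d j + T b ≤ T (b + 1) + σ := by
  classical
  have hmono : ∀ b b', b ≤ b' → b' ≤ m → T b ≤ T b' := by
    intro b b' h h'
    rcases h.eq_or_lt with rfl | h
    · exact le_rfl
    · have := T_mono hstep h h'
      omega
  have hTh : ∀ b ≤ m, HardP m σ T (T b) ∨ T b = N + 1 := by
    intro b hb
    rcases hb.eq_or_lt with rfl | hb
    · exact Or.inr hTm
    · exact Or.inl ⟨b, hb, le_rfl, hstep b hb⟩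
  have hTl : ∀ b ≤ m, 1 ≤ b → HardP m σ T (T b - σ - 1) := by
    intro b hb h1
    obtain ⟨c, rfl⟩ : ∃ c, b = c + 1 := ⟨b - 1, by omega⟩
    have := hstep c (by omega)
    exact ⟨c, by omega, by omega, by omega⟩
  -- position of a hard point relative to the marks
  have hpos : ∀ p, (HardP m σ T p ∨ p = N + 1) → ∀ b ≤ m, T b ≤ p ∨ p + σ < T b := by
    rintro p (⟨c, hc, h1, h2⟩ | rfl) b hb
    · by_cases h : b ≤ c
      · exact Or.inl ((hmono _ _ h hc.le).trans h1)
      · exact Or.inr (h2.trans_le (hmono _ _ (by omega) hb))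
    · exact Or.inl (hTm ▸ hmono _ _ hb le_rfl)
  have hle : ∀ j ∈ J, H j ≤ N + 1 := by
    intro j hj
    rcases hH j hj with ⟨c, hc, -, h2⟩ | h
    · have := hmono (c + 1) m hc le_rfl
      omega
    · omega
  have hcover : ∀ p ≤ N, HardP m σ T p ∨ ∃ b ≤ m, T b ≤ p + σ + 1 ∧ p < T b ∧
      (p = 0 ∨ T b ≤ p + σ) := by
    intro p hp
    have hex : ∃ b, b ≤ m ∧ p < T b := ⟨m, le_rfl, by omega⟩
    obtain ⟨h1, h2⟩ := Nat.find_spec hex
    rcases h3 : Nat.find hex with _ | b
    · rw [h3] at h1 h2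
      exact Or.inr ⟨0, h1, by omega, h2, by omega⟩
    · have h4 := Nat.find_min hex (m := b) (by omega)
      rw [h3] at h1 h2
      by_cases h5 : p + σ < T (b + 1)
      · exact Or.inl ⟨b, by omega, by omega, h5⟩
      · exact Or.inr ⟨b + 1, h1, by omega, h2, by omega⟩
  have htri : ∀ j ∈ J, ∀ j' ∈ J, j ≠ j' → φ j < φ j' ∨ φ j' < φ j := fun j hj j' hj' hne =>
    lt_or_gt_of_ne fun h => hne (hφ hj hj' h)
  have hT0' : ∀ j ∈ J, T 0 < H j := by
    intro j hj
    have := hlo j hj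
    have := hd j hj
    omega
  have hall : ∀ b0, 1 ≤ b0 → b0 < m → ∃ j ∈ J, H j = T b0 := by
    intro b0 h1 h2
    by_contra hc
    push Not at hc
    set Js := J.filter (fun j => ∃ b < m, H j = T b) with hJs
    have h3 : ∑ j ∈ J, ((if j ∈ Js then H j - σ else H j) - (H j - d j)) ≤ N + 1 - 1 := by
      refine sum_card_le _ _ 1 (N + 1) (fun j hj => ?_) ?_
      · have := hlo j hj
        have := hle j hj
        split_ifs <;> omega
      · have key : ∀ j ∈ J, ∀ j' ∈ J, φ j < φ j' →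
            (if j' ∈ Js then H j' - σ else H j') ≤ H j - d j := by
          intro j hj j' hj' hlt
          have h4 := hlo j hj
          have h5 := hle j hj
          have h6 := hd j hj
          rcases hcover (H j - d j) (by omega) with h | ⟨b, hb, h7, h8, h9⟩
          · have := hord j hj j' hj' hlt _ (by omega) (Or.inl h)
            split_ifs <;> omega
          · have h10 := hord j hj j' hj' hlt (T b) (by omega) (hTh b hb)
            have hbm : b < m := by
              rcases hb.eq_or_lt with rfl | h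
              · omega
              · exact h
            rcases hpos _ (hH j' hj') b hb with h11 | h11
            · rw [if_pos (Finset.mem_filter.2 ⟨hj', b, hbm, by omega⟩)]
              omega
            · split_ifs <;> omega
        intro j hj j' hj' hne
        rcases htri j hj j' hj' hne with h | h
        · exact Or.inr (key j hj j' hj' h)
        · exact Or.inl (key j' hj' j hj h)
    have h4 : ∑ j ∈ J, d j =
        ∑ j ∈ J, ((if j ∈ Js then H j - σ else H j) - (H j - d j)) + σ * Js.card := by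
      rw [Finset.card_eq_sum_ones, Finset.mul_sum, mul_one, hJs, Finset.sum_filter,
        ← Finset.sum_add_distrib]
      refine Finset.sum_congr rfl fun j hj => ?_
      have := hlo j hj
      have := hd j hj
      by_cases h : ∃ b < m, H j = T b
      · rw [if_pos (Finset.mem_filter.2 ⟨hj, h⟩), if_pos h]
        omega
      · rw [if_neg h, if_neg (by simp only [Finset.mem_filter]; exact fun h' => h h'.2)]
        omega
    have h5 : Js.card ≤ (((Finset.Ico 1 m).erase b0).image T).card := by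
      refine Finset.card_le_card_of_injOn H (fun j hj => ?_) ?_
      · obtain ⟨hj, b, hb, h⟩ := Finset.mem_filter.1 hj
        refine Finset.mem_coe.2 (Finset.mem_image.2 ⟨b, Finset.mem_erase.2 ⟨?_,
          Finset.mem_Ico.2 ⟨?_, hb⟩⟩, h.symm⟩)
        · rintro rfl
          exact hc j hj h
        · rcases Nat.eq_zero_or_pos b with rfl | h'
          · have := hT0' j hj
            omega
          · exact h'
      · have key : ∀ j ∈ Js, ∀ j' ∈ Js, φ j < φ j' → H j ≠ H j' := by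
          intro j hj j' hj' hlt he
          obtain ⟨hj, b, hb, h⟩ := Finset.mem_filter.1 hj
          have hj' := (Finset.mem_filter.1 hj').1
          have h6 := hT0' j hj
          have h7 := hd j hj
          have h8 := hlo j hj
          have hb1 : 1 ≤ b := by
            rcases Nat.eq_zero_or_pos b with rfl | h'
            · omega
            · exact h'
          have := hord j hj j' hj' hlt _ (by omega) (Or.inl (hTl b hb.le hb1))
          omega
        intro j hj j' hj' he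
        by_contra hne
        rcases htri j (Finset.mem_filter.1 hj).1 j' (Finset.mem_filter.1 hj').1 hne with h | h
        · exact key j hj j' hj' h he
        · exact key j' hj' j hj h he.symm
    have h6 : (((Finset.Ico 1 m).erase b0).image T).card ≤ m - 2 := by
      refine Finset.card_image_le.trans ?_
      rw [Finset.card_erase_of_mem (Finset.mem_Ico.2 ⟨h1, h2⟩), Nat.card_Ico]
      omega
    have h7 : σ * Js.card + 2 * σ ≤ σ * m := by
      calc σ * Js.card + 2 * σ = σ * (Js.card + 2) := by ring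
        _ ≤ σ * m := Nat.mul_le_mul_left _ (by omega)
    omega
  have hf : ∀ j, ∃ b, j ∈ J → b < m ∧ T b < H j ∧ H j ≤ T (b + 1) := by
    intro j
    by_cases hj : j ∈ J
    · have hex : ∃ b, b ≤ m ∧ H j ≤ T b := ⟨m, le_rfl, by have := hle j hj; omega⟩
      obtain ⟨h1, h2⟩ := Nat.find_spec hex
      rcases h3 : Nat.find hex with _ | b
      · rw [h3] at h2
        have := hT0' j hj
        omega
      · have h4 := Nat.find_min hex (m := b) (by omega)
        rw [h3] at h1 h2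
        exact ⟨b, fun _ => ⟨by omega, by omega, h2⟩⟩
    · exact ⟨0, fun h => (hj h).elim⟩
  choose f hf using hf
  refine ⟨f, fun j hj => (hf j hj).1, fun b hb => ?_⟩
  have h0 := hstep b hb
  have h00 : σ + 1 ≤ T b := hT0 ▸ hmono 0 b (Nat.zero_le _) hb.le
  have h3 : ∑ j ∈ J.filter (fun j => f j = b), (H j - (H j - d j)) ≤ T (b + 1) - (T b - σ) := by
    refine sum_card_le _ _ _ _ (fun j hj => ?_) ?_
    · rw [Finset.mem_filter] at hj
      obtain ⟨hj, rfl⟩ := hj
      obtain ⟨-, h1, h2⟩ := hf j hj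
      refine ⟨?_, h2⟩
      have h4 := hlo j hj
      rcases Nat.eq_zero_or_pos (f j) with h | h
      · rw [h]
        omega
      · obtain ⟨j', hj', h5⟩ := hall _ h hb
        have h6 : φ j < φ j' := by
          rcases htri j hj j' hj' (by rintro rfl; omega) with h6 | h6
          · exact h6
          · have := hord j' hj' j hj h6 (H j') (by omega) (hH j' hj')
            omega
        by_contra hc
        have := hord j hj j' hj' h6 _ (by omega) (Or.inl (hTl _ hb.le h))
        omega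
    · have key : ∀ j ∈ J.filter (fun j => f j = b), ∀ j' ∈ J.filter (fun j => f j = b),
          φ j < φ j' → H j' ≤ H j - d j := by
        intro j hj j' hj' hlt
        obtain ⟨hj, h1⟩ := Finset.mem_filter.1 hj
        obtain ⟨hj', h2⟩ := Finset.mem_filter.1 hj'
        have h4 := hf j hj
        have h5 := hf j' hj'
        rw [h1] at h4
        rw [h2] at h5
        have h6 := hd j hj
        have h7 := hlo j hj
        by_cases h : T b ≤ H j - d j
        · exact hord j hj j' hj' hlt _ (by omega) (Or.inl ⟨b, hb, h, by omega⟩)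
        · have := hord j hj j' hj' hlt (T b) (by omega) (hTh b hb.le)
          omega
      intro j hj j' hj' hne
      rcases htri j (Finset.mem_filter.1 hj).1 j' (Finset.mem_filter.1 hj').1 hne with h | h
      · exact Or.inr (key j hj j' hj' h)
      · exact Or.inl (key j' hj' j hj h)
  have h4 : ∑ j ∈ J.filter (fun j => f j = b), d j =
      ∑ j ∈ J.filter (fun j => f j = b), (H j - (H j - d j)) :=
    Finset.sum_congr rfl fun j hj => by
      have := hlo j (Finset.mem_filter.1 hj).1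
      omega
  omega

end Pool.Agent.MP_9694c2_lc

end MrgPart3

-- ======== part 4: formerly Pool.Agent.MP_9694c2_lc.Sound4
section MrgPart4

/-!
A winning strategy of two hunters yields a packing.
-/

set_option autoImplicit false

namespace Pool.Agent.MP_9694c2_lc

open Set Hs Vx

namespace Pm

variable {A : Pm} {G : Play A.adj 2 2}

/-- The characteristic times of a job. -/
structure Times (G : Play A.adj 2 2) (β t j ρ σ φ : ℕ) : Prop where
  h1 : β ≤ ρ
  h2 : ρ < σ
  h3 : σ + 2 ≤ φ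
  h4 : φ ≤ t + 1
  h5 : ∀ s, ρ < s → s ≤ φ → y j ∈ G.X s
  h6 : A.M j ≤ cnt G j (ρ + 1) + 4
  h7 : A.M j ≤ cnt G j σ + 4
  h8 : cnt G j (σ + 1) + 4 < A.M j
  h9 : cnt G j φ ≤ 10

theorem exists_times {β t j : ℕ} (hj : j < A.n) (hM : 23 ≤ A.M j) (h0 : y j ∈ G.P β)
    (h1 : ∃ s, β ≤ s ∧ s ≤ t + 1 ∧ ¬ hotJob G j s) : ∃ ρ σ φ, Times G β t j ρ σ φ := by
  classical
  obtain ⟨h2, h3, h4⟩ := Nat.find_spec h1
  have h5 : ∀ s, β ≤ s → s < Nat.find h1 → hotJob G j s := fun s h5 h6 => by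
    have := Nat.find_min h1 h6
    by_contra hc
    exact this ⟨h5, by omega, hc⟩
  set φ := Nat.find h1
  unfold hotJob at h4
  push Not at h4
  have h6 : β < φ := lt_of_le_of_ne h2 fun h => h4.1 (h ▸ h0)
  have h7 : β ≤ Nat.findGreatest (fun s => y j ∈ G.P s) φ := Nat.le_findGreatest h2 h0
  have h8 := Nat.findGreatest_spec (P := fun s => y j ∈ G.P s) h2 h0
  have h9 := Nat.findGreatest_le (P := fun s => y j ∈ G.P s) φ
  have h10 : ∀ s, Nat.findGreatest (fun s => y j ∈ G.P s) φ < s → s ≤ φ → y j ∉ G.P s :=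
    fun s h h' => Nat.findGreatest_is_greatest (P := fun s => y j ∈ G.P s) h h'
  set ρ := Nat.findGreatest (fun s => y j ∈ G.P s) φ
  have h11 : ρ < φ := lt_of_le_of_ne h9 fun h => h4.1 (h ▸ h8)
  have h12 := cnt_reset hj h8
  have h13 : ρ + 1 ≤ Nat.findGreatest (fun s => A.M j ≤ cnt G j s + 4) φ :=
    Nat.le_findGreatest h11 h12
  have h14 := Nat.findGreatest_spec (P := fun s => A.M j ≤ cnt G j s + 4) (m := ρ + 1) h11 h12
  have h15 := Nat.findGreatest_le (P := fun s => A.M j ≤ cnt G j s + 4) φ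
  have h16 : ∀ s, Nat.findGreatest (fun s => A.M j ≤ cnt G j s + 4) φ < s → s ≤ φ →
      ¬ A.M j ≤ cnt G j s + 4 :=
    fun s h h' => Nat.findGreatest_is_greatest (P := fun s => A.M j ≤ cnt G j s + 4) h h'
  set σ := Nat.findGreatest (fun s => A.M j ≤ cnt G j s + 4) φ
  have h17 := cnt_step (G := G) (t := σ) hj
  have h18 : σ + 2 ≤ φ := by
    by_contra hc
    have : φ = σ ∨ φ = σ + 1 := by omega
    rcases this with h | h <;> rw [h] at h4 <;> omega
  refine ⟨ρ, σ, φ, h7, h13, h18, h3, fun s h19 h20 => ?_, h12, h14,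
    not_le.1 (h16 _ (by omega) (by omega)), by omega⟩
  obtain ⟨s, rfl⟩ : ∃ s', s = s' + 1 := ⟨s - 1, by omega⟩
  exact (thr_job hj (by omega) h0 (by omega) fun r h h' => h5 r h (by omega)).shot (h10 _ h19 h20)

theorem Times.overlap {β t j ρ σ φ j' ρ' σ' φ' : ℕ} (h : Times G β t j ρ σ φ)
    (h' : Times G β t j' ρ' σ' φ') (hj : j < A.n) (hj' : j' < A.n) (hne : j ≠ j')
    (hM : 23 ≤ A.M j) (hu : ∀ s, β ≤ s → s ≤ t → u ∈ G.Y s) (hφ : φ ≤ φ') : φ ≤ σ' := by
  by_contra hc
  have a1 := h.h1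
  have a2 := h.h2
  have a3 := h.h3
  have a4 := h.h4
  have b1 := h'.h1
  have b2 := h'.h2
  have b3 := h'.h3
  have h1 : σ' + 1 ≤ ρ := by
    by_contra h1
    have := cnt_keep hj' hne.symm (hu σ' (by omega) (by omega)) (h'.h5 _ (by omega) (by omega))
      (h.h5 _ (by omega) (by omega))
    have := h'.h7
    have := h'.h8
    omega
  have h2 : ∀ s, ρ + 1 ≤ s → s ≤ φ → cnt G j (ρ + 1) ≤ cnt G j s := by
    intro s hs
    induction s, hs using Nat.le_induction with
    | base => exact fun _ => le_rfl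
    | succ s hs ih =>
      intro h3
      exact (ih (by omega)).trans (cnt_keep hj hne (hu s (by omega) (by omega))
        (h.h5 _ (by omega) h3) (h'.h5 _ (by omega) (by omega)))
  have := h2 φ (by omega) le_rfl
  have := h.h6
  have := h.h9
  omega

theorem window {β t : ℕ} (D : Finset ℕ) (hM : ∀ j < A.n, 23 ≤ A.M j)
    (hD : ∀ j ∈ D, j < A.n ∧ y j ∈ G.P β ∧ ∃ s, β ≤ s ∧ s ≤ t + 1 ∧ ¬ hotJob G j s)
    (hu : ∀ s, β ≤ s → s ≤ t → u ∈ G.Y s) (xs cs : ℕ → Vx) (Hd : ℕ → Prop)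
    (hx1 : ∀ p, 1 ≤ p → p ≤ A.N + 1 → A.adj (xs p) (cs p))
    (hx2 : ∀ p, 1 ≤ p → p ≤ A.N + 1 → A.adj (xs (p - 1)) (cs p))
    (hxh : ∀ p, ∃ i, xs p = host (ch i)) (hch : ∀ p, ∃ i, cs p = c i)
    (hxn : ∀ p, 1 ≤ p → p ≤ A.N + 1 → xs p ≠ xs (p - 1))
    (hxd : ∀ p, 1 ≤ p → p ≤ A.N → ∃ i, 1 ≤ i ∧ i ≤ A.N ∧ xs p = host (ch i) ∧
      (A.hard i = true ↔ Hd p))
    (hHd : ∀ p, Hd p → 1 ≤ p ∧ p ≤ A.N)
    (htop : ∀ s, β ≤ s → s ≤ t → G.ThA (xs (A.N + 1)) s)
    (hsink : ∀ s, β ≤ s → s ≤ t → xs 0 ∉ G.Q s) :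
    ∃ H φ : ℕ → ℕ, InjOn φ D ∧ (∀ j ∈ D, A.M j - 22 + 1 ≤ H j) ∧
      (∀ j ∈ D, Hd (H j) ∨ H j = A.N + 1) ∧
      ∀ j ∈ D, ∀ j' ∈ D, φ j < φ j' → ∀ p, H j ≤ p + (A.M j - 22) → (Hd p ∨ p = A.N + 1) →
        H j' ≤ p := by
  classical
  have h1 : ∀ j, ∃ ρ σ φ, j ∈ D → Times G β t j ρ σ φ := fun j => by
    by_cases hj : j ∈ D
    · obtain ⟨a, b, e⟩ := hD j hj
      obtain ⟨ρ, σ, φ, h⟩ := exists_times a (hM j a) b e
      exact ⟨ρ, σ, φ, fun _ => h⟩
    · exact ⟨0, 0, 0, fun h => (hj h).elim⟩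
  choose ρ σ φ hT using h1
  have hex : ∀ r, ∃ p, p = A.N + 1 ∨ (Hd p ∧ ∃ s, β ≤ s ∧ s < r ∧ xs p ∈ G.Q s) :=
    fun r => ⟨_, Or.inl rfl⟩
  have hle : ∀ r p, (p = A.N + 1 ∨ (Hd p ∧ ∃ s, β ≤ s ∧ s < r ∧ xs p ∈ G.Q s)) →
      Nat.find (hex r) ≤ p := fun r p h => Nat.find_min' _ h
  have hmono : ∀ r r', r ≤ r' → Nat.find (hex r') ≤ Nat.find (hex r) := fun r r' h =>
    hle _ _ ((Nat.find_spec (hex r)).imp id fun ⟨a, s, b, e, f⟩ => ⟨a, s, b, by omega, f⟩)
  have hhard : ∀ p, Hd p → ∀ r0 s, β ≤ r0 → r0 < s → s ≤ t → xs p ∈ G.Q r0 → G.ThA (xs p) s := by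
    intro p hp r0 s a b e f
    obtain ⟨i, h1, h2, h3, h4⟩ := hxd p (hHd p hp).1 (hHd p hp).2
    rw [h3] at f ⊢
    exact hard_lit (a := ch i) (T := s) (h4.2 hp) (by simp [nU, h1, h2, h4.2 hp])
      (fun r h h' => hu r (by omega) (by omega)) f s b le_rfl
  have hov : ∀ j ∈ D, ∀ j' ∈ D, j ≠ j' → φ j ≤ φ j' → φ j ≤ σ j' := fun j hj j' hj' hne h =>
    (hT j hj).overlap (hT j' hj') (hD j hj).1 (hD j' hj').1 hne (hM j (hD j hj).1) hu h
  have hfire : ∀ j ∈ D, ∃ i, 1 ≤ i ∧ i + (A.M j - 22) ≤ Nat.find (hex (σ j + 2)) ∧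
      ∀ p, i ≤ p → p < Nat.find (hex (σ j + 2)) →
        ∃ s, σ j + 2 ≤ s ∧ s < φ j ∧ xs p ∈ G.Q s := by
    intro j hj
    have hjn := (hD j hj).1
    have h := hT j hj
    have a1 := h.h1
    have a2 := h.h2
    have a3 := h.h3
    have a4 := h.h4
    obtain ⟨F, h1, h2⟩ : ∃ F : Finset ℕ, (∀ l ∈ F, l < A.M j ∧ cl G j l (σ j + 2) = 0) ∧
        cnt G j (σ j) ≤ F.card + 8 := by
      refine ⟨_, fun l hl => ?_, (card_unshot ((Finset.range (A.M j)).filter
        (fun l => Ne G j l (σ j))) (G.shots (σ j) 2) lab).trans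
        (Nat.add_le_add_left (G.card_shots (σ j) 2) _)⟩
      simp only [Finset.mem_filter, Finset.mem_range] at hl
      exact ⟨hl.1.1, fill hjn hl.1.1 hl.2 hl.1.2⟩
    have h3 := Nat.find_spec (hex (σ j + 2))
    have h4 := hle (σ j + 2) _ (Or.inl rfl)
    obtain ⟨i, h5, h6, h7⟩ := job_fire (G := G) (H := Nat.find (hex (σ j + 2))) hjn xs cs hx1 hx2
      hxh hch hxn (by
        rcases h3 with h3 | h3
        · omega
        · exact (hHd _ h3.1).1) h4 h.h3 (fun s a b => hu s (by omega) (by omega))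
      (fun s a b => h.h5 s (by omega) b) (fun s a b => by
        rcases h3 with h3 | ⟨h3, r0, h8, h9, h10⟩
        · rw [h3]
          exact htop s (by omega) (by omega)
        · exact hhard _ h3 r0 s h8 (by omega) (by omega) h10)
      (fun p a b r0 s e f f' f'' => by
        by_cases hp : Hd p
        · exact hhard p hp r0 s (by omega) f (by omega) f''
        · obtain ⟨i, h1, h2, h3, h4⟩ := hxd p a b
          rw [h3] at f'' ⊢
          exact soft_lit (T := s) (j := j) (by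
              simp only [nU, h1, h2, and_self, if_true]
              split_ifs <;> omega)
            (fun r h h' => hu r (by omega) (by omega))
            (fun r h' h'' => h.h5 r (by omega) (by omega)) f'' s f le_rfl)
      (fun s a b => hsink s (by omega) (by omega)) F h1
    refine ⟨i, h5, ?_, h7⟩
    have := h.h7
    have := h.h9
    have := hM j hjn
    omega
  refine ⟨fun j => Nat.find (hex (σ j + 2)), φ, fun j hj j' hj' h => ?_, fun j hj => ?_,
    fun j _ => ?_, fun j hj j' hj' h p h1 h2 => ?_⟩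
  · by_contra hne
    have := hov j hj j' hj' hne h.le
    have := (hT j' hj').h3
    omega
  · obtain ⟨i, h1, h2, -⟩ := hfire j hj
    show _ ≤ Nat.find _
    omega
  · exact (Nat.find_spec (hex (σ j + 2))).symm.imp (fun h => h.1) id
  · have h3 := hov j hj j' hj' (by rintro rfl; omega) h.le
    have h4 := (hT j hj).h3
    have a1 := (hT j hj).h1
    have a2 := (hT j hj).h2
    obtain ⟨i, h5, h6, h7⟩ := hfire j hj
    beta_reduce at h1 ⊢
    by_cases h8 : p < Nat.find (hex (σ j + 2))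
    · obtain ⟨s, h9, h10, h11⟩ := h7 p (by omega) h8
      exact hle _ _ (h2.symm.imp id fun h => ⟨h, s, by omega, by omega, h11⟩)
    · exact (hmono _ _ (by omega)).trans (not_lt.1 h8)

theorem window_pack {β t : ℕ} (n0 m σ : ℕ) (T : ℕ → ℕ) (hn : A.n = n0 + 3)
    (hT0 : T 0 = σ + 1) (hTm : T m = A.N + 1) (hstep : ∀ b < m, T b + σ < T (b + 1))
    (hM : ∀ j < n0, σ + 23 ≤ A.M j) (hDm : ∀ j, n0 ≤ j → j < A.n → A.N + 23 ≤ A.M j)
    (htight : A.N + σ * m + 22 * n0 < ∑ j ∈ Finset.range n0, A.M j + 2 * σ)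
    (hR : G.Reset u β) (hJ : ¬ HJ G β (t + 1))
    (hu : ∀ s, β ≤ s → s ≤ t → u ∈ G.Y s) (xs cs : ℕ → Vx)
    (hx1 : ∀ p, 1 ≤ p → p ≤ A.N + 1 → A.adj (xs p) (cs p))
    (hx2 : ∀ p, 1 ≤ p → p ≤ A.N + 1 → A.adj (xs (p - 1)) (cs p))
    (hxh : ∀ p, ∃ i, xs p = host (ch i)) (hch : ∀ p, ∃ i, cs p = c i)
    (hxn : ∀ p, 1 ≤ p → p ≤ A.N + 1 → xs p ≠ xs (p - 1))
    (hxd : ∀ p, 1 ≤ p → p ≤ A.N → ∃ i, 1 ≤ i ∧ i ≤ A.N ∧ xs p = host (ch i) ∧
      (A.hard i = true ↔ HardP m σ T p))
    (htop : ∀ s, β ≤ s → s ≤ t → G.ThA (xs (A.N + 1)) s)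
    (hsink : ∀ s, β ≤ s → s ≤ t → xs 0 ∉ G.Q s) :
    ∃ f : ℕ → ℕ, (∀ j < n0, f j < m) ∧ ∀ b < m,
      ∑ j ∈ (Finset.range n0).filter (fun j => f j = b), (A.M j - 22) + T b ≤ T (b + 1) + σ := by
  classical
  have hM' : ∀ j < A.n, 23 ≤ A.M j := fun j hj => by
    by_cases h : j < n0
    · have := hM j h
      omega
    · have := hDm j (by omega) hj
      omega
  have hmono : ∀ b b', b ≤ b' → b' ≤ m → T b ≤ T b' := by
    intro b b' h h'
    rcases h.eq_or_lt with rfl | h
    · exact le_rfl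
    · have := T_mono hstep h h'
      omega
  have hHd : ∀ p, HardP m σ T p → 1 ≤ p ∧ p ≤ A.N := by
    rintro p ⟨b, hb, h1, h2⟩
    have := hmono 0 b (Nat.zero_le _) hb.le
    have := hmono (b + 1) m hb le_rfl
    omega
  set D := (Finset.range A.n).filter
    (fun j => y j ∈ G.P β ∧ ∃ s, β ≤ s ∧ s ≤ t + 1 ∧ ¬ hotJob G j s) with hD
  obtain ⟨H, φ, h1, h2, h3, h4⟩ := window (G := G) D hM' (fun j hj => by
    simpa only [hD, Finset.mem_filter, Finset.mem_range] using hj) hu xs cs (HardP m σ T)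
    hx1 hx2 hxh hch hxn hxd hHd htop hsink
  have h5 : D ⊆ Finset.range n0 := fun j hj => by
    by_contra hc
    have h6 := hDm j (by simpa using hc) (Finset.mem_range.1 (Finset.mem_filter.1 hj).1)
    have h7 := h2 j hj
    rcases h3 j hj with h | h
    · have := hHd _ h
      omega
    · omega
  have h6 : D = Finset.range n0 := by
    refine Finset.eq_of_subset_of_card_le h5 ?_
    unfold HJ at hJ
    have h7 := card_nb (A := A) (G.X β)
    have h8 := G.hX β
    have h9 : Finset.range (A.n + 1) ⊆ ((Finset.range (A.n + 1)).filter (fun e => A.nb e ∈ G.X β) ∪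
        (Finset.range (A.n + 1)).filter (fun e => A.nb e ∈ G.P β ∧
          (e < A.n → ∀ s, β ≤ s → s ≤ t + 1 → hotJob G e s))) ∪ D := by
      intro e he
      simp only [Finset.mem_union, Finset.mem_filter, hD]
      by_cases a : A.nb e ∈ G.X β
      · exact Or.inl (Or.inl ⟨he, a⟩)
      · have b := hR _ a_nb a
        by_cases e' : e < A.n → ∀ s, β ≤ s → s ≤ t + 1 → hotJob G e s
        · exact Or.inl (Or.inr ⟨he, b, e'⟩)
        · push Not at e'
          exact Or.inr ⟨Finset.mem_range.2 e'.1, by simpa [nb, e'.1] using b, e'.2⟩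
    have h10 := (Finset.card_le_card h9).trans ((Finset.card_union_le _ _).trans
      (Nat.add_le_add_right (Finset.card_union_le _ _) _))
    rw [Finset.card_range] at h10 ⊢
    omega
  rw [h6] at h1 h2 h3 h4
  obtain ⟨f, h7, h8⟩ := pack_abstract (Finset.range n0) (fun j => A.M j - 22) H φ A.N m σ T hT0 hTm
    hstep h1 h2 (fun j hj => by have := hM j (Finset.mem_range.1 hj); omega) h3 h4 (by
      have : ∑ j ∈ Finset.range n0, A.M j =
          ∑ j ∈ Finset.range n0, (A.M j - 22) + ∑ _j ∈ Finset.range n0, 22 := by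
        rw [← Finset.sum_add_distrib]
        exact Finset.sum_congr rfl fun j hj => by have := hM j (Finset.mem_range.1 hj); omega
      rw [Finset.sum_const, Finset.card_range, smul_eq_mul] at this
      omega)
  exact ⟨f, fun j hj => h7 j (Finset.mem_range.2 hj), h8⟩

/-- The centres of the three regions. -/
def cen (A : Pm) (X : Fin 3) : Vx := if X = 0 then A.zz false else if X = 1 then A.zz true else u

/-- The danger conditions of the three regions. -/
def Hc (G : Play A.adj 2 2) (X : Fin 3) : ℕ → ℕ → Prop :=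
  if X = 0 then HZ G false else if X = 1 then HZ G true else HJ G

/-- The shots of a round are used in a region. -/
def use (G : Play A.adj 2 2) (X : Fin 3) (t : ℕ) : Prop :=
  if X = 0 then A.zz false ∈ G.Y t ∧ ∃ i, host (zy false i) ∈ G.Y t
  else if X = 1 then A.zz true ∈ G.Y t ∧ ∃ i, host (zy true i) ∈ G.Y t else u ∈ G.Y t

/-- The cleaning windows of the three regions. -/
def Wn (G : Play A.adj 2 2) (X : Fin 3) (α t : ℕ) : Prop :=
  if X = 0 then WZ G false α t else if X = 1 then WZ G true α t else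
    (∀ s, α ≤ s → s ≤ t → u ∈ G.Y s) ∧ G.Reset u α ∧ ¬ HJ G α (t + 1)

theorem sound (n0 m σ : ℕ) (T : ℕ → ℕ) (hn : A.n = n0 + 3) (hn0 : 1 ≤ n0) (hN : 1 ≤ A.N)
    (hT0 : T 0 = σ + 1) (hTm : T m = A.N + 1) (hstep : ∀ b < m, T b + σ < T (b + 1))
    (hhard : ∀ p, A.hard p = true ↔ HardP m σ T p) (hZ : A.N + 5 ≤ A.Z)
    (hM : ∀ j < n0, σ + 23 ≤ A.M j) (hDm : ∀ j, n0 ≤ j → j < A.n → A.N + 23 ≤ A.M j)
    (htight : A.N + σ * m + 22 * n0 < ∑ j ∈ Finset.range n0, A.M j + 2 * σ)
    (h : Reach A.adj 2 2 ∅ A.BB) :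
    ∃ f : ℕ → ℕ, (∀ j < n0, f j < m) ∧ ∀ b < m,
      ∑ j ∈ (Finset.range n0).filter (fun j => f j = b), (A.M j - 22) + T b ≤ T (b + 1) + σ := by
  classical
  obtain ⟨G, n, hG⟩ := h.exists_play
  have hM' : ∀ j < A.n, 11 ≤ A.M j := fun j hj => by
    by_cases h : j < n0
    · have := hM j h
      omega
    · have := hDm j (by omega) hj
      omega
  have hself : ∀ X β, G.Reset (A.cen X) β → Hc G X β β := by
    intro X
    fin_cases X
    exacts [hz_self false, hz_self true, hj_self (by omega)]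
  have hthr : ∀ X t, G.Hot (A.cen X) (Hc G X) t → G.ThA (A.cen X) t := by
    intro X t
    fin_cases X
    exacts [z_thr, z_thr, u_thr hM']
  have hcold : ∀ X t, A.cen X ∈ G.Q t → G.Hot (A.cen X) (Hc G X) (t + 1) := fun X t h =>
    Play.hot_of_reset (hself X) (Play.reset_of_Q h)
  obtain ⟨X, Y, Z, α, t, hXY, hXZ, hYZ, hα, hW, hY, hZ'⟩ :=
    majority (fun X => G.Hot (A.cen X) (Hc G X)) (use G) (Wn G) n
      (fun X => Play.hot_of_reset (hself X) fun w _ _ => G.h0 w)
      (fun X h => by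
        obtain ⟨w, h1, h2⟩ := hthr X n h
        refine hG w ⟨⟨_, adj_symm h2⟩, ?_⟩ h1
        have h3 := parity h2
        have h4 : A.dep (A.cen X) % 2 = 0 := by
          fin_cases X
          · exact dep_host (ch (A.zc false))
          · exact dep_host (ch (A.zc true))
          · show (2 * A.N + 2) % 2 = 0
            omega
        omega)
      (fun X Y t hne h1 h2 => by
        have e1 : ∀ s i, A.zz s ∈ G.Y t → host (zy s i) ∈ G.Y t → u ∈ G.Y t → False :=
          fun s i a b e => not_three (G.hY t) a b e (by simp [zz]) (by simp [zz]) (by simp)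
        have e2 : ∀ i, A.zz false ∈ G.Y t → host (zy false i) ∈ G.Y t → A.zz true ∈ G.Y t →
            False := fun i a b e =>
          not_three (G.hY t) a b e (by simp [zz]) (by simp [zz, zc]) (by simp [zz])
        fin_cases X <;> fin_cases Y
        · exact hne rfl
        · exact h1.2.elim fun i hi => e2 i h1.1 hi h2.1
        · exact h1.2.elim fun i hi => e1 _ i h1.1 hi h2
        · exact h2.2.elim fun i hi => e2 i h2.1 hi h1.1
        · exact hne rfl
        · exact h1.2.elim fun i hi => e1 _ i h1.1 hi h2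
        · exact h2.2.elim fun i hi => e1 _ i h2.1 hi h1
        · exact h2.2.elim fun i hi => e1 _ i h2.1 hi h1
        · exact hne rfl)
      (fun X t h1 h2 => by
        fin_cases X
        · obtain ⟨α, h3, h4⟩ := z_cool (by omega) h1 h2
          obtain ⟨i, -, h5, -⟩ := id h4
          exact ⟨α, h3, fun s a b => ⟨(h5 s a b).1, i, (h5 s a b).2⟩, h4⟩
        · obtain ⟨α, h3, h4⟩ := z_cool (by omega) h1 h2
          obtain ⟨i, -, h5, -⟩ := id h4
          exact ⟨α, h3, fun s a b => ⟨(h5 s a b).1, i, (h5 s a b).2⟩, h4⟩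
        · obtain ⟨α, h3, h4⟩ := u_cool (by omega) hM' h1 h2
          exact ⟨α, h3, h4.1, h4⟩)
  have hfire : ∀ s L a b, WZ G s α t → Route A s L a b → L + 4 ≤ A.Z → a 0 = A.cen Z →
      a L = A.cen Y → False := fun s L a b h1 h2 h3 h4 h5 => by
    obtain ⟨r, h6, h7, h8⟩ := z_fire hα h1 h2 h3 (h4 ▸ hthr Z α (hZ' α le_rfl hα))
    exact hY (r + 1) (by omega) (by omega) (hcold Y r (h5 ▸ h8))
  have htop : ∀ s, α ≤ s → s ≤ t → G.ThA (A.cen Z) s := fun s a b => hthr Z s (hZ' s a b)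
  have hsink : ∀ s, α ≤ s → s ≤ t → A.cen Y ∉ G.Q s := fun s a b h =>
    hY (s + 1) (by omega) (by omega) (hcold Y s h)
  have r1 := route_false (A := A) (by omega) hN
  have r2 := route_true (A := A) (by omega)
  have hX : (X = 0 ∧ Y = 1 ∧ Z = 2) ∨ (X = 0 ∧ Y = 2 ∧ Z = 1) ∨ (X = 1 ∧ Y = 0 ∧ Z = 2) ∨
      (X = 1 ∧ Y = 2 ∧ Z = 0) ∨ (X = 2 ∧ Y = 0 ∧ Z = 1) ∨ (X = 2 ∧ Y = 1 ∧ Z = 0) := by
    clear * - hXY hXZ hYZ
    revert X Y Z
    decide
  rcases hX with ⟨rfl, rfl, rfl⟩ | ⟨rfl, rfl, rfl⟩ | ⟨rfl, rfl, rfl⟩ | ⟨rfl, rfl, rfl⟩ |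
    ⟨rfl, rfl, rfl⟩ | ⟨rfl, rfl, rfl⟩
  · exact (hfire _ _ _ _ hW r1 (by omega) rfl (by simp [cen, zz, zc]; omega)).elim
  · exact (hfire _ _ _ _ hW r1.rev (by omega) (by simp [cen, zz, zc]; omega) rfl).elim
  · exact (hfire _ _ _ _ hW r2 (by omega) rfl (by simp [cen, zz, zc])).elim
  · exact (hfire _ _ _ _ hW r2.rev (by omega) (by simp [cen, zz, zc]) (by simp [cen])).elim
  · exact window_pack n0 m σ T hn hT0 hTm hstep hM hDm htight hW.2.1 hW.2.2 hW.1
      (fun p => host (ch p)) c (fun p a b => a_ch_c a b)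
      (fun p a b => by
        have := a_ch_c' (A := A) (i := p - 1) (by omega)
        rwa [show p - 1 + 1 = p by omega] at this)
      (fun p => ⟨_, rfl⟩) (fun p => ⟨_, rfl⟩) (fun p a b => by simp; omega)
      (fun p a b => ⟨p, a, b, rfl, hhard p⟩) htop hsink
  · have hle : ∀ b ≤ m, σ + 1 ≤ T b ∧ T b ≤ A.N + 1 := fun b hb => by
      constructor
      · rcases Nat.eq_zero_or_pos b with rfl | h
        · omega
        · have := T_mono hstep h hb
          omega
      · rcases hb.eq_or_lt with rfl | h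
        · omega
        · have := T_mono hstep h le_rfl
          omega
    obtain ⟨f, h1, h2⟩ := window_pack n0 m σ (fun b => A.N + 2 + σ - T (m - b)) hn
      (by simp only [Nat.sub_zero]; omega) (by simp only [Nat.sub_self]; omega)
      (fun b hb => by
        have := hstep (m - (b + 1)) (by omega)
        have := hle (m - b) (by omega)
        rw [show m - (b + 1) + 1 = m - b by omega] at *
        omega) hM hDm htight hW.2.1 hW.2.2 hW.1
      (fun p => host (ch (A.N + 1 - p))) (fun p => c (A.N + 2 - p))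
      (fun p a b => by
        rw [show A.N + 2 - p = A.N + 1 - p + 1 by omega]
        exact a_ch_c' (by omega))
      (fun p a b => by
        rw [show A.N + 1 - (p - 1) = A.N + 2 - p by omega]
        exact a_ch_c (by omega) (by omega))
      (fun p => ⟨_, rfl⟩) (fun p => ⟨_, rfl⟩) (fun p a b => by simp; omega)
      (fun p a b => ⟨A.N + 1 - p, by omega, by omega, rfl, (hhard _).trans (by
        constructor
        · rintro ⟨e, he, h1, h2⟩
          have := hle e he.le
          have := hle (e + 1) he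
          refine ⟨m - 1 - e, by omega, ?_, ?_⟩ <;> beta_reduce
          · rw [show m - (m - 1 - e) = e + 1 by omega]
            omega
          · rw [show m - (m - 1 - e + 1) = e by omega]
            omega
        · rintro ⟨e, he, h1, h2⟩
          have := hle (m - e) (by omega)
          have := hle (m - (e + 1)) (by omega)
          beta_reduce at h1 h2
          refine ⟨m - (e + 1), by omega, by omega, ?_⟩
          rw [show m - (e + 1) + 1 = m - e by omega]
          omega)⟩)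
      (by simpa [cen, zz, zc] using htop) (by simpa [cen, zz, zc] using hsink)
    refine ⟨fun j => m - 1 - f j, fun j hj => by have := h1 j hj; beta_reduce; omega,
      fun b hb => ?_⟩
    have h3 := h2 (m - 1 - b) (by omega)
    have h4 := hle b hb.le
    have h5 := hle (b + 1) hb
    rw [show m - (m - 1 - b) = b + 1 by omega, show m - (m - 1 - b + 1) = b by omega] at h3
    rw [Finset.filter_congr (q := fun j => f j = m - 1 - b) fun j hj => by
      have := h1 j (Finset.mem_range.1 hj)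
      beta_reduce
      omega]
    omega

end Pm

end Pool.Agent.MP_9694c2_lc

end MrgPart4

-- ======== part 5: formerly Pool.Agent.MP_9694c2_lc.Encode
section MrgPart5

/-!
The tree of a packing instance as a list of edges, and the reduction.
-/

set_option autoImplicit false

namespace Pool.Agent.MP_9694c2_lc

open Set Hs Vx Pool.Agent.H82 Pool.Agent.H8

/-- Numbers for the hosts. -/
def hc : Hs → ℕ
  | ch i => Nat.pair 0 i
  | gx k => Nat.pair 1 k
  | zy s i => Nat.pair (cond s 2 3) i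

/-- Numbers for the vertices. -/
def code : Vx → ℕ
  | host h => Nat.pair 0 (hc h)
  | un h l pos => Nat.pair 1 (Nat.pair (hc h) (Nat.pair l pos))
  | c i => Nat.pair 2 i
  | zb s i => Nat.pair 3 (hc (zy s i))
  | g => Nat.pair 4 0
  | u => Nat.pair 5 0
  | y j => Nat.pair 6 j
  | leg j l k => Nat.pair 7 (Nat.pair j (Nat.pair l k))

theorem hc_inj : Function.Injective hc := by
  rintro (i | i | ⟨_ | _, i⟩) (j | j | ⟨_ | _, j⟩) h <;> simp_all [hc, Nat.pair_eq_pair]

theorem code_inj : Function.Injective code := by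
  intro a b h
  cases a <;> cases b <;> simp_all [code, Nat.pair_eq_pair, hc_inj.eq_iff]

/-- The edges of the units of a host. -/
def unitE (rg : ℕ → List ℕ) (h : Hs) (nu : ℕ) (hd : Bool) : List (Vx × Vx) :=
  (rg nu).flatMap fun l => [(un h l 0, host h), (un h l 1, un h l 0), (un h l 2, un h l 1)] ++
    cond hd [(un h l 3, un h l 1)] []

/-- The edges at one end of the chain. -/
def endE (rg : ℕ → List ℕ) (s : Bool) (z Z : ℕ) : List (Vx × Vx) :=
  (List.range 9).flatMap fun i =>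
    (zb s i, host (ch z)) :: (host (zy s i), zb s i) :: unitE rg (zy s i) Z false

/-- All edges. -/
def edgesV (rg : ℕ → List ℕ) (A : Pm) : List (Vx × Vx) :=
  (rg (A.N + 1)).flatMap (fun i => [(host (ch (i + 1)), c (i + 1)), (c (i + 1), host (ch i))]) ++
  ((List.range 3).flatMap (fun k => (host (gx k), g) :: unitE rg (gx k) 5 true) ++
  ([(g, host (ch A.N)), (u, g)] ++
  ((rg A.n).flatMap (fun j => (y j, u) :: (rg (A.M j)).flatMap fun l =>
    (leg j l 0, y j) :: (List.range 6).map fun k => (leg j l (k + 1), leg j l k)) ++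
  (endE rg false 0 A.Z ++ (endE rg true (A.N + 1) A.Z ++
  (rg A.N).flatMap fun i => unitE rg (ch (i + 1)) (cond (A.hard (i + 1)) 5 3) (A.hard (i + 1)))))))

section mem

variable {rg : ℕ → List ℕ} {A : Pm} {R : ℕ} (hrg : ∀ n ≤ R, ∀ i, i ∈ rg n ↔ i < n)

include hrg

theorem unitE_ed {h : Hs} {nu : ℕ} {hd : Bool} (h1 : nu ≤ R) (h2 : nu = A.nU h) (h3 : hd = A.isH h)
    {e : Vx × Vx} (he : e ∈ unitE rg h nu hd) : A.Ed e.1 e.2 := by
  subst h2 h3
  simp only [unitE, List.mem_flatMap, hrg _ h1, List.mem_append, List.mem_cons, List.not_mem_nil,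
    or_false] at he
  obtain ⟨l, hl, (rfl | rfl | rfl) | he⟩ := he
  · exact Pm.Ed.un0 hl
  · exact Pm.Ed.un1 hl
  · exact Pm.Ed.un2 hl
  · cases h4 : A.isH h <;> simp only [h4, cond_true, cond_false, List.not_mem_nil,
      List.mem_singleton] at he
    subst he
    exact Pm.Ed.un3 hl h4

theorem mem_edgesV (h1 : A.N + 1 ≤ R) (h2 : A.n ≤ R) (h3 : ∀ j, A.M j ≤ R) (h4 : A.Z ≤ R)
    (h5 : 5 ≤ R) (e : Vx × Vx) : e ∈ edgesV rg A ↔ A.Ed e.1 e.2 := by
  have hend : ∀ s, ∀ e ∈ endE rg s (A.zc s) A.Z, A.Ed e.1 e.2 := by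
    intro s e he
    simp only [endE, List.mem_flatMap, List.mem_range, List.mem_cons] at he
    obtain ⟨i, hi, rfl | rfl | he⟩ := he
    · exact Pm.Ed.zb_z hi
    · exact Pm.Ed.zy_zb hi
    · exact unitE_ed hrg h4 (Pm.nU_zy hi).symm rfl he
  have hsub : ∀ h, 0 < A.nU h → A.nU h ≤ R ∧ unitE rg h (A.nU h) (A.isH h) ⊆ edgesV rg A := by
    rintro (i | k | ⟨s, i⟩) hl
    · have h6 : 1 ≤ i ∧ i ≤ A.N := by
        by_contra hc
        simp [Pm.nU, hc] at hl
      obtain ⟨i, rfl⟩ : ∃ i', i = i' + 1 := ⟨i - 1, by omega⟩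
      have h7 : A.nU (ch (i + 1)) = cond (A.hard (i + 1)) 5 3 := by
        simp only [Pm.nU, h6, and_self, if_true, Bool.cond_eq_ite]
      refine ⟨by rw [h7]; cases A.hard (i + 1) <;> simp <;> omega, fun e he => ?_⟩
      simp only [edgesV, List.mem_append, List.mem_flatMap]
      exact Or.inr (Or.inr (Or.inr (Or.inr (Or.inr (Or.inr
        ⟨i, (hrg _ (by omega) _).2 (by omega), h7 ▸ he⟩)))))
    · have h6 : k < 3 := by
        by_contra hc
        simp [Pm.nU, hc] at hl
      have h7 : A.nU (gx k) = 5 := by simp [Pm.nU, h6]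
      refine ⟨h7 ▸ h5, fun e he => ?_⟩
      simp only [edgesV, List.mem_append, List.mem_flatMap]
      exact Or.inr (Or.inl ⟨k, List.mem_range.2 h6, List.mem_cons_of_mem _ (h7 ▸ he)⟩)
    · have h6 : i < 9 := by
        by_contra hc
        simp [Pm.nU, hc] at hl
      rw [Pm.nU_zy h6]
      refine ⟨h4, fun e he => ?_⟩
      have h7 : ∀ z, e ∈ endE rg s z A.Z := fun z => List.mem_flatMap.2
        ⟨i, List.mem_range.2 h6, List.mem_cons_of_mem _ (List.mem_cons_of_mem _ he)⟩
      simp only [edgesV, List.mem_append]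
      cases s
      · exact Or.inr (Or.inr (Or.inr (Or.inr (Or.inl (h7 _)))))
      · exact Or.inr (Or.inr (Or.inr (Or.inr (Or.inr (Or.inl (h7 _))))))
  have hend' : ∀ s, endE rg s (A.zc s) A.Z ⊆ edgesV rg A := by
    intro s e he
    simp only [edgesV, List.mem_append]
    cases s
    · exact Or.inr (Or.inr (Or.inr (Or.inr (Or.inl he))))
    · exact Or.inr (Or.inr (Or.inr (Or.inr (Or.inr (Or.inl he)))))
  constructor
  · intro he
    simp only [edgesV, List.mem_append, List.mem_flatMap, List.mem_range, List.mem_cons,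
      List.not_mem_nil, or_false, hrg _ h1, hrg _ h2, hrg _ (h3 _), hrg A.N (by omega),
      List.mem_map] at he
    rcases he with ⟨i, hi, rfl | rfl⟩ | ⟨k, hk, rfl | he⟩ | (rfl | rfl) |
      ⟨j, hj, rfl | ⟨l, hl, rfl | ⟨k, hk, rfl⟩⟩⟩ | he | he | ⟨i, hi, he⟩
    · exact Pm.Ed.ch_c (by omega)
    · exact Pm.Ed.c_ch (by omega)
    · exact Pm.Ed.gx_g hk
    · exact unitE_ed hrg h5 (by simp [Pm.nU, hk]) rfl he
    · exact Pm.Ed.g_ch
    · exact Pm.Ed.u_g
    · exact Pm.Ed.y_u hj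
    · exact Pm.Ed.leg0 hj hl
    · exact Pm.Ed.legS hj hl hk
    · exact hend false e he
    · exact hend true e he
    · refine unitE_ed hrg (by cases A.hard (i + 1) <;> simp <;> omega) ?_ rfl he
      simp only [Pm.nU, show 1 ≤ i + 1 ∧ i + 1 ≤ A.N by omega, and_self, if_true,
        Bool.cond_eq_ite]
  · obtain ⟨a, b⟩ := e
    intro he
    cases he with
    | @zb_z s _ h => exact hend' s (List.mem_flatMap.2 ⟨_, List.mem_range.2 h, by simp⟩)
    | @zy_zb s _ h => exact hend' s (List.mem_flatMap.2 ⟨_, List.mem_range.2 h, by simp⟩)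
    | un0 h =>
      obtain ⟨h6, h7⟩ := hsub _ (Nat.zero_lt_of_lt h)
      exact h7 (List.mem_flatMap.2 ⟨_, (hrg _ h6 _).2 h, by simp⟩)
    | un1 h =>
      obtain ⟨h6, h7⟩ := hsub _ (Nat.zero_lt_of_lt h)
      exact h7 (List.mem_flatMap.2 ⟨_, (hrg _ h6 _).2 h, by simp⟩)
    | un2 h =>
      obtain ⟨h6, h7⟩ := hsub _ (Nat.zero_lt_of_lt h)
      exact h7 (List.mem_flatMap.2 ⟨_, (hrg _ h6 _).2 h, by simp⟩)
    | un3 h h' =>
      obtain ⟨h6, h7⟩ := hsub _ (Nat.zero_lt_of_lt h)
      exact h7 (List.mem_flatMap.2 ⟨_, (hrg _ h6 _).2 h, by simp [h']⟩)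
    | ch_c h =>
      exact List.mem_append_left _ (List.mem_flatMap.2 ⟨_, (hrg _ h1 _).2 (Nat.lt_succ_of_le h),
        by simp⟩)
    | c_ch h =>
      exact List.mem_append_left _ (List.mem_flatMap.2 ⟨_, (hrg _ h1 _).2 (Nat.lt_succ_of_le h),
        by simp⟩)
    | gx_g h =>
      exact List.mem_append_right _ (List.mem_append_left _
        (List.mem_flatMap.2 ⟨_, List.mem_range.2 h, by simp⟩))
    | g_ch => exact List.mem_append_right _ (List.mem_append_right _ (by simp))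
    | u_g => exact List.mem_append_right _ (List.mem_append_right _ (by simp))
    | y_u h =>
      exact List.mem_append_right _ (List.mem_append_right _ (List.mem_append_right _
        (List.mem_append_left _ (List.mem_flatMap.2 ⟨_, (hrg _ h2 _).2 h, by simp⟩))))
    | leg0 h h' =>
      exact List.mem_append_right _ (List.mem_append_right _ (List.mem_append_right _
        (List.mem_append_left _ (List.mem_flatMap.2 ⟨_, (hrg _ h2 _).2 h, List.mem_cons_of_mem _
          (List.mem_flatMap.2 ⟨_, (hrg _ (h3 _) _).2 h', by simp⟩)⟩))))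
    | legS h h' h'' =>
      exact List.mem_append_right _ (List.mem_append_right _ (List.mem_append_right _
        (List.mem_append_left _ (List.mem_flatMap.2 ⟨_, (hrg _ h2 _).2 h, List.mem_cons_of_mem _
          (List.mem_flatMap.2 ⟨_, (hrg _ (h3 _) _).2 h', List.mem_cons_of_mem _
            (List.mem_map.2 ⟨_, List.mem_range.2 h'', rfl⟩)⟩)⟩))))

end mem

/-- The code of an edge. -/
def cE (e : Vx × Vx) : ℕ × ℕ := (code e.1, code e.2)

theorem hunt_code {A : Pm} {L : List (Vx × Vx)} (hL : ∀ e, e ∈ L ↔ A.Ed e.1 e.2) :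
    ∃ d, Good (L.map cE) 0 d ∧ (hunt (L.map cE) ≤ 2 ↔ Reach A.adj 2 2 ∅ A.BB) := by
  have h1 : ∀ a b, (a, b) ∈ L.map cE ↔ ∃ v w, A.Ed v w ∧ a = code v ∧ b = code w := by
    intro a b
    simp only [List.mem_map, hL, cE, Prod.mk.injEq, Prod.exists]
    exact ⟨fun ⟨v, w, h, h', h''⟩ => ⟨v, w, h, h'.symm, h''.symm⟩,
      fun ⟨v, w, h, h', h''⟩ => ⟨v, w, h, h'.symm, h''.symm⟩⟩
  have h2 : ∀ v, Function.extend code A.dep 0 (code v) = A.dep v :=
    fun v => code_inj.extend_apply _ _ v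
  have h3 : ∀ a b, adjE (L.map cE) a b ↔ ∃ v w, A.adj v w ∧ a = code v ∧ b = code w := by
    intro a b
    simp only [adjE, h1]
    exact ⟨fun h => h.elim (fun ⟨v, w, h, h'⟩ => ⟨v, w, Or.inl h, h'⟩)
      fun ⟨v, w, h, h'⟩ => ⟨w, v, Or.inr h, h'.symm⟩,
      fun ⟨v, w, h, h'⟩ => h.imp (fun h => ⟨v, w, h, h'⟩) fun h => ⟨w, v, h, h'.symm⟩⟩
  have h4 : Good (L.map cE) 0 (Function.extend code A.dep 0) := by
    refine ⟨List.ne_nil_of_mem ((h1 _ _).2 ⟨_, _, Pm.Ed.u_g, rfl, rfl⟩), h2 (host (ch 0)),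
      fun a b h => ?_, fun a b b' h h' => ?_, fun a b h => ?_⟩
    · obtain ⟨v, w, e1, rfl, rfl⟩ := (h1 _ _).1 h
      rw [h2, h2, e1.dep]
    · obtain ⟨v, w, e1, rfl, rfl⟩ := (h1 _ _).1 h
      obtain ⟨v', w', e2, h5, rfl⟩ := (h1 _ _).1 h'
      rw [e1.uniq (code_inj h5 ▸ e2)]
    · obtain ⟨v, w, e1, rfl, rfl⟩ := (h1 _ _).1 h
      exact e1.par.imp (fun h => by rw [h]; rfl) fun ⟨e, he⟩ => ⟨_, (h1 _ _).2 ⟨_, _, he, rfl, rfl⟩⟩
  refine ⟨_, h4, (h4.hunt_le 2).trans ⟨fun h => ?_, fun h => ?_⟩⟩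
  · refine ((h.swap (h4.cls_adj (c := 1) (c' := 0) rfl)).preimage code code_inj
      fun a b h => (h3 _ _).2 ⟨a, b, h, rfl, rfl⟩).sub ?_
    rintro v ⟨⟨w, hw⟩, hv⟩
    exact ⟨⟨_, (h3 _ _).2 ⟨v, w, hw, rfl, rfl⟩⟩, by rw [h2, hv]⟩
  · refine Reach.swap ?_ (h4.cls_adj (c := 0) (c' := 1) rfl)
    have h5 := h.image (r' := adjE (L.map cE)) code fun a b h => by
      obtain ⟨v, w, e1, h6, rfl⟩ := (h3 _ _).1 h
      exact ⟨w, rfl, code_inj h6 ▸ e1⟩
    rw [image_empty] at h5
    refine h5.sub ?_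
    rintro a ⟨⟨b, hb⟩, ha⟩
    obtain ⟨v, w, h, rfl, rfl⟩ := (h3 _ _).1 hb
    exact ⟨v, ⟨⟨w, h⟩, h2 v ▸ ha⟩, rfl⟩

/-- The scale. -/
def kk (s B : List ℕ) : ℕ := 22 * s.length + B.length + 23

/-- The marks on the chain. -/
def tt (s B : List ℕ) (b : ℕ) : ℕ :=
  kk s B + 1 + ((B.take b).map (fun x => kk s B * (x - 1) + 1)).sum

/-- The hard positions. -/
def hd (s B : List ℕ) (p : ℕ) : Bool :=
  (idx B).any (fun b => !ltB p (tt s B b) && ltB (p + kk s B) (tt s B (b + 1)))

/-- The numbers of legs. -/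
def mm (s B : List ℕ) (j : ℕ) : ℕ :=
  cond (ltB j s.length) (kk s B * s.getD j 0) (tt s B B.length + 22)

/-- The parameters of the tree of a packing instance. -/
def pm (s B : List ℕ) : Pm :=
  ⟨tt s B B.length - 1, hd s B, s.length + 3, mm s B, tt s B B.length + 4⟩

theorem tt_succ (s B : List ℕ) {b : ℕ} (hb : b < B.length) :
    tt s B (b + 1) = tt s B b + (kk s B * (B.getD b 0 - 1) + 1) := by
  simp only [tt, List.take_succ_eq_append_getElem hb, List.map_append, List.sum_append,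
    List.map_singleton, List.sum_singleton, List.getD_eq_getElem _ _ hb]
  omega

theorem sum_getD (l : List ℕ) : ∑ j ∈ Finset.range l.length, l.getD j 0 = l.sum := by
  induction l with
  | nil => rfl
  | cons a l ih => rw [List.length_cons, Finset.sum_range_succ', List.sum_cons, ← ih, add_comm]; rfl

theorem tt_last (s : List ℕ) {B : List ℕ} (hB : ∀ x ∈ B, 2 ≤ x) :
    tt s B B.length + kk s B * B.length = kk s B + 1 + kk s B * B.sum + B.length := by
  have : ∀ (K : ℕ) (l : List ℕ), (∀ x ∈ l, 2 ≤ x) →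
      (l.map (fun x => K * (x - 1) + 1)).sum + K * l.length = K * l.sum + l.length := by
    intro K l hl
    induction l with
    | nil => rfl
    | cons a l ih =>
      have h1 := ih fun x hx => hl x (List.mem_cons_of_mem _ hx)
      obtain ⟨a, rfl⟩ : ∃ a', a = a' + 1 := ⟨a - 1, by have := hl a List.mem_cons_self; omega⟩
      simp only [List.map_cons, List.sum_cons, List.length_cons, Nat.add_sub_cancel, mul_add]
      omega
  have := this (kk s B) B hB
  simp only [tt, List.take_length]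
  omega

theorem pm_iff {s B : List ℕ} (hs0 : s ≠ []) (hs : ∀ x ∈ s, 2 ≤ x)
    (hB : ∀ x ∈ B, 2 ≤ x) (hsum : s.sum = B.sum) :
    Reach (pm s B).adj 2 2 ∅ (pm s B).BB ↔ PackL s B := by
  have hs' : ∀ j < s.length, 2 ≤ s.getD j 0 := fun j hj => by
    rw [List.getD_eq_getElem _ _ hj]
    exact hs _ (List.getElem_mem hj)
  have hK : kk s B = 22 * s.length + B.length + 23 := rfl
  have hT0 : tt s B 0 = kk s B + 1 := by simp [tt]
  have hT : ∀ b < B.length, tt s B (b + 1) + kk s B = tt s B b + kk s B * B.getD b 0 + 1 ∧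
      tt s B b + kk s B < tt s B (b + 1) := fun b hb => by
    have h1 : 2 ≤ B.getD b 0 := by
      rw [List.getD_eq_getElem _ _ hb]
      exact hB _ (List.getElem_mem hb)
    rw [tt_succ s B hb]
    obtain ⟨x, hx⟩ : ∃ x, B.getD b 0 = x + 2 := ⟨B.getD b 0 - 2, by omega⟩
    simp only [hx, show x + 2 - 1 = x + 1 by omega, mul_add]
    omega
  have hstep : ∀ b < B.length, tt s B b + kk s B < tt s B (b + 1) := fun b hb => (hT b hb).2
  have hmono : ∀ b b', b ≤ b' → b' ≤ B.length → tt s B b ≤ tt s B b' := by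
    intro b b' h h'
    rcases h.eq_or_lt with rfl | h
    · exact le_rfl
    · have := T_mono hstep h h'
      omega
  have hN : tt s B B.length = (pm s B).N + 1 := by
    have := hmono 0 _ (Nat.zero_le _) le_rfl
    show _ = tt s B B.length - 1 + 1
    omega
  have hN' : kk s B ≤ (pm s B).N := by
    have := hmono 0 _ (Nat.zero_le _) le_rfl
    omega
  have hhard : ∀ p, (pm s B).hard p = true ↔ HardP B.length (kk s B) (tt s B) p := fun p => by
    simp [pm, hd, HardP]
  have hM : ∀ j < s.length, (pm s B).M j = kk s B * s.getD j 0 := fun j hj => by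
    simp only [pm, mm, ltB, hj, decide_true, cond_true]
  have hM' : ∀ F : Finset ℕ, F ⊆ Finset.range s.length →
      ∑ j ∈ F, (pm s B).M j = kk s B * ∑ j ∈ F, s.getD j 0 := fun F hF => by
    rw [Finset.mul_sum]
    exact Finset.sum_congr rfl fun j hj => hM j (Finset.mem_range.1 (hF hj))
  constructor
  · intro h
    obtain ⟨f, h1, h2⟩ := Pm.sound s.length B.length (kk s B) (tt s B) rfl
      (List.length_pos_of_ne_nil hs0) (by omega) hT0 hN hstep hhard
      (by show _ ≤ tt s B B.length + 4; omega)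
      (fun j hj => by
        have := Nat.mul_le_mul_left (kk s B) (hs' j hj)
        rw [hM j hj]
        omega)
      (fun j hj _ => by
        have : (pm s B).M j = tt s B B.length + 22 := by
          simp only [pm, mm, ltB, hj.not_gt, decide_false, cond_false]
        omega)
      (by
        have := tt_last s hB
        rw [hM' _ Finset.Subset.rfl, sum_getD, hsum]
        omega) h
    refine ⟨f, h1, fun b hb => ?_⟩
    have h3 := h2 b hb
    have h4 := (hT b hb).1
    have h5 := hM' _ (Finset.filter_subset (fun j => f j = b) (Finset.range s.length))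
    have h6 : ∑ j ∈ (Finset.range s.length).filter (fun j => f j = b), (pm s B).M j ≤
        ∑ j ∈ (Finset.range s.length).filter (fun j => f j = b), ((pm s B).M j - 22 + 22) :=
      Finset.sum_le_sum fun j _ => by omega
    rw [Finset.sum_add_distrib, Finset.sum_const, smul_eq_mul] at h6
    have h7 := (Finset.card_filter_le (Finset.range s.length) (fun j => f j = b)).trans_eq
      (Finset.card_range _)
    refine Nat.le_of_lt_succ (Nat.lt_of_mul_lt_mul_left (a := kk s B) ?_)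
    rw [Nat.mul_succ]
    beta_reduce
    omega
  · rintro ⟨f, h1, h2⟩
    refine Pm.complete s.length B.length (kk s B) (tt s B) f rfl (by omega) (by omega)
      (fun b hb => hT0 ▸ hmono 0 b (Nat.zero_le _) hb) hN (fun b hb => hN ▸ hmono b _ hb le_rfl)
      (fun b hb p h3 h4 => ?_) h1 fun b hb => ?_
    · rw [← Bool.not_eq_true, hhard]
      rintro ⟨b', h5, h6, h7⟩
      by_cases h8 : b ≤ b'
      · have := hmono b b' h8 h5.le
        omega
      · have := hmono (b' + 1) b (by omega) hb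
        omega
    · have h3 := Nat.mul_le_mul_left (kk s B) (h2 b hb)
      have h4 := (hT b hb).1
      rw [hM' _ (Finset.filter_subset _ _)]
      beta_reduce at h3
      omega

/-- An initial segment of the numbers, cut at the length of `R`. -/
def rgL (R : List ℕ) (n : ℕ) : List ℕ := (idx R).take n

/-- The tree of a packing instance. -/
def treeE (R s B : List ℕ) : List (ℕ × ℕ) := (edgesV (rgL R) (pm s B)).map cE

theorem map_cond {α β : Type} (f : α → β) (b : Bool) (l l' : List α) :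
    (cond b l l').map f = cond b (l.map f) (l'.map f) := by
  cases b <;> rfl

theorem p_treeE {α : Type} [N487b59b3 α] {R s B : α → List ℕ} (hR : PolyT.Poly R)
    (hs : PolyT.Poly s) (hB : PolyT.Poly B) : PolyT.Poly (fun a => treeE (R a) (s a) (B a)) := by
  simp only [treeE, edgesV, endE, unitE, pm, List.map_append, List.map_flatMap, List.map_cons,
    List.map_nil, List.map_map, map_cond, Function.comp_def, cE, code, hc, rgL, mm, hd, tt, kk]
  fun_prop

theorem treeE_spec {R s B : List ℕ} (hs0 : s ≠ []) (hs : ∀ x ∈ s, 2 ≤ x)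
    (hB : ∀ x ∈ B, 2 ≤ x) (hsum : s.sum = B.sum) (hR : (s.sum + 24) ^ 4 ≤ R.length) :
    ∃ d, Good (treeE R s B) 0 d ∧ (hunt (treeE R s B) ≤ 2 ↔ PackL s B) := by
  have h1 : ∀ l : List ℕ, (∀ x ∈ l, 2 ≤ x) → l.length ≤ l.sum := fun l hl => by
    simpa using List.card_nsmul_le_sum l 1 fun x hx => (hl x hx).trans' (by omega)
  have h2 := h1 s hs
  have h3 := h1 B hB
  have h4 := tt_last s hB
  have h5 : kk s B ≤ 23 * (s.sum + 1) := by
    unfold kk
    omega
  have h6 : kk s B * s.sum ≤ 23 * (s.sum + 1) * s.sum := Nat.mul_le_mul_right _ h5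
  have h7 : 23 * (s.sum + 1) * s.sum + 24 * s.sum + 50 ≤ R.length := by
    refine le_trans ?_ hR
    nlinarith [Nat.zero_le (s.sum ^ 4), Nat.zero_le (s.sum ^ 3), Nat.zero_le (s.sum ^ 2)]
  rw [← hsum] at h3 h4
  rw [← pm_iff hs0 hs hB hsum]
  refine hunt_code (mem_edgesV (R := R.length) (fun n hn i => by simp [rgL, idx, hn])
    (show tt s B B.length - 1 + 1 ≤ _ by omega) (show s.length + 3 ≤ _ by omega) (fun j => ?_)
    (show tt s B B.length + 4 ≤ _ by omega) (by omega))
  show mm s B j ≤ _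
  unfold mm
  by_cases hj : j < s.length
  · have h8 : s.getD j 0 ≤ s.sum := by
      rw [List.getD_eq_getElem _ _ hj]
      exact List.single_le_sum (fun _ _ => Nat.zero_le _) _ (List.getElem_mem hj)
    have := Nat.mul_le_mul_left (kk s B) h8
    simp only [ltB, hj, decide_true, cond_true]
    omega
  · simp only [ltB, hj, decide_false, cond_false]
    omega

theorem p_pad {α : Type} [N487b59b3 α] (C : ℕ) {E : α → List (ℕ × ℕ)} (hE : PolyT.Poly E) :
    PolyT.Poly (fun a => pad C (E a)) := by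
  refine PolyT.Poly.congr (f := fun a => (idx (umul (List.range C) (idx (E a)))).flatMap
    (fun l => (Nat.pair l 0 + 1, 0) ::
      (E a).map (fun e => (Nat.pair l e.1 + 1, Nat.pair l e.2 + 1)))) (by fun_prop) fun a => ?_
  simp only [idx, length_umul, List.length_range]
  rfl

theorem hard_two {L : List Bool → Bool} (hL : L ∈ N68a2faeb.NP) :
    ∃ f : List Bool → List (ℕ × ℕ), PolyT.Poly f ∧
      ∀ x, ∃ d, Good (f x) 0 d ∧ (L x = true ↔ hunt (f x) ≤ 2) := by
  obtain ⟨φ, h1, h2⟩ := cook_levin hL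
  obtain ⟨s, B, R, h3, h4, h5, h6⟩ := binpack
  refine ⟨fun x => treeE (upow (R (φ x) ++ List.range 24) 4) (s (φ x)) (B (φ x)),
    p_treeE (p_upow (by fun_prop) 4) (h3.comp h1) (h4.comp h1), fun x => ?_⟩
  obtain ⟨a1, -, a3, a4, a5, a6, a7⟩ := h6 (φ x)
  obtain ⟨d, h7, h8⟩ := treeE_spec (R := upow (R (φ x) ++ List.range 24) 4) a1 a3 a4 a5 (by
    simp only [length_upow, List.length_append, List.length_range]
    exact Nat.pow_le_pow_left (by omega) 4)
  exact ⟨d, h7, (h2 x).trans (a7.trans h8.symm)⟩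

theorem hard_all {L : List Bool → Bool} (hL : L ∈ N68a2faeb.NP) (k : ℕ) (hk : 2 ≤ k) :
    ∃ f : List Bool → List (ℕ × ℕ), PolyT.Poly f ∧
      ∀ x, ∃ d, Good (f x) 0 d ∧ (L x = true ↔ hunt (f x) ≤ k) := by
  induction k, hk using Nat.le_induction with
  | base => exact hard_two hL
  | succ k _ ih =>
    obtain ⟨f, h1, h2⟩ := ih
    refine ⟨fun x => pad (6 * k + 7) (pad (6 * k + 7) (f x)), p_pad _ (p_pad _ h1), fun x => ?_⟩
    obtain ⟨d, h3, h4⟩ := h2 x
    exact ⟨_, (h3.pad (by omega)).pad (by omega), h4.trans (h3.hunt_pad k).symm⟩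

end Pool.Agent.MP_9694c2_lc

end MrgPart5

-- marker of a merged file
example : 731051 + 659947 = 731051 + 659947 := rfl
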